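import Pool.Agent.Helper78.DR.Artin

/-!
# Conjugate roots and the double centralizer of an element
-/

set_option autoImplicit false

namespace Pool.Agent.Helper78.DR

universe u

variable {D : Type u} [DivisionRing D]

theorem minpoly_natDegree (a : D) (ha : IsIntegral (Subring.center D) a) :
    ∃ n, (minpoly (Subring.center D) a).natDegree = n + 1 :=
  ⟨(minpoly (Subring.center D) a).natDegree - 1, by
    have := minpoly.natDegree_pos ha
    omega⟩

/-- Roots of the minimal polynomial are conjugate. -/
theorem conj_root (a a' : D) (ha : IsIntegral (Subring.center D) a)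
    (ha' : Polynomial.aeval a' (minpoly (Subring.center D) a) = 0) :
    ∃ w : D, w ≠ 0 ∧ a' * w = w * a := by
  classical
  obtain ⟨n, hn⟩ := minpoly_natDegree a ha
  obtain ⟨E, hE, hw⟩ := casimir (minpoly (Subring.center D) a) n (minpoly.monic ha) hn a' a ha'
    (minpoly.aeval _ _)
  by_contra hcon
  push Not at hcon
  have h0 : ∀ t : D, ∑ j ∈ Finset.range (n + 1), E j * t * a ^ j = 0 := by
    intro t
    by_contra hne
    exact hcon _ hne (hw t)
  have hli := linearIndependent_pow (K := Subring.center D) a
  have h1 := artin (fun i : Fin (minpoly (Subring.center D) a).natDegree => a ^ (i : ℕ)) hli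
    Finset.univ (fun i => E i) (fun t => by
      have := h0 t
      rw [← hn, Finset.sum_range] at this
      exact this)
  have h2 := h1 ⟨n, by omega⟩ (Finset.mem_univ _)
  have h3 : E n = 0 := h2
  rw [hE] at h3
  exact one_ne_zero h3

/-- inverses of polynomial expressions -/
theorem inv_aeval (a : D) (ha : IsIntegral (Subring.center D) a)
    (Q : Polynomial (Subring.center D)) (hQ : Polynomial.aeval a Q ≠ 0) :
    ∃ R : Polynomial (Subring.center D), (Polynomial.aeval a Q)⁻¹ = Polynomial.aeval a R := by
  have hirr := minpoly.irreducible ha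
  have hnd : ¬ minpoly (Subring.center D) a ∣ Q := by
    rintro ⟨S, rfl⟩
    apply hQ
    rw [map_mul, minpoly.aeval, zero_mul]
  obtain ⟨u, v, huv⟩ := (hirr.coprime_iff_not_dvd.2 hnd : IsCoprime _ _)
  refine ⟨v, ?_⟩
  have h1 := congrArg (Polynomial.aeval a) huv
  rw [map_add, map_mul, map_mul, minpoly.aeval, mul_zero, zero_add, map_one] at h1
  exact inv_eq_of_mul_eq_one_left h1

/-- **Double centralizer.** -/
theorem dcc (a x : D) (ha : IsIntegral (Subring.center D) a)
    (hx : ∀ c, c * a = a * c → x * c = c * x) :
    ∃ p : Polynomial (Subring.center D), x = Polynomial.aeval a p := by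
  classical
  by_contra hcon
  push Not at hcon
  obtain ⟨n, hn⟩ := minpoly_natDegree a ha
  obtain ⟨E, hE, hw⟩ := casimir (minpoly (Subring.center D) a) n (minpoly.monic ha) hn a a
    (minpoly.aeval _ _) (minpoly.aeval _ _)
  have hli := linearIndependent_pow (K := Subring.center D) a
  rw [Fintype.linearIndependent_iff] at hli
  obtain ⟨v, hv⟩ : ∃ v : Fin (minpoly (Subring.center D) a).natDegree ⊕
      Fin (minpoly (Subring.center D) a).natDegree → D,
      v = Sum.elim (fun i : Fin (minpoly (Subring.center D) a).natDegree => a ^ (i : ℕ))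
        (fun i : Fin (minpoly (Subring.center D) a).natDegree => a ^ (i : ℕ) * x) := ⟨_, rfl⟩
  have hvli : LinearIndependent (Subring.center D) v := by
    rw [Fintype.linearIndependent_iff]
    intro g hg
    rw [Fintype.sum_sum_type, hv] at hg
    simp only [Sum.elim_inl, Sum.elim_inr] at hg
    obtain ⟨Q, hQ⟩ : ∃ Q : Polynomial (Subring.center D), Polynomial.aeval a Q =
        ∑ i : Fin (minpoly (Subring.center D) a).natDegree, g (Sum.inr i) • a ^ (i : ℕ) :=
      ⟨∑ i : Fin (minpoly (Subring.center D) a).natDegree,
        Polynomial.monomial (i : ℕ) (g (Sum.inr i)), by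
        rw [map_sum]
        exact Finset.sum_congr rfl fun i _ => by
          rw [Polynomial.aeval_monomial, Algebra.smul_def]⟩
    obtain ⟨P, hP⟩ : ∃ P : Polynomial (Subring.center D), Polynomial.aeval a P =
        ∑ i : Fin (minpoly (Subring.center D) a).natDegree, g (Sum.inl i) • a ^ (i : ℕ) :=
      ⟨∑ i : Fin (minpoly (Subring.center D) a).natDegree,
        Polynomial.monomial (i : ℕ) (g (Sum.inl i)), by
        rw [map_sum]
        exact Finset.sum_congr rfl fun i _ => by
          rw [Polynomial.aeval_monomial, Algebra.smul_def]⟩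
    have h1 : Polynomial.aeval a P + Polynomial.aeval a Q * x = 0 := by
      rw [hP, hQ, Finset.sum_mul, ← hg]
      congr 1
      exact Finset.sum_congr rfl fun i _ => smul_mul_assoc _ _ _
    have hQ0 : Polynomial.aeval a Q = 0 := by
      by_contra hne
      obtain ⟨R, hR⟩ := inv_aeval a ha Q hne
      apply hcon (-(R * P))
      have h2 : Polynomial.aeval a Q * x = -Polynomial.aeval a P := eq_neg_of_add_eq_zero_right h1
      have h3 : x = (Polynomial.aeval a Q)⁻¹ * (Polynomial.aeval a Q * x) := by
        rw [inv_mul_cancel_left₀ hne]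
      rw [h3, h2, hR, mul_neg, map_neg, map_mul]
    have hP0 : Polynomial.aeval a P = 0 := by
      rwa [hQ0, zero_mul, add_zero] at h1
    rintro (i | i)
    · exact hli (fun i => g (Sum.inl i)) (by rw [← hP, hP0]) i
    · exact hli (fun i => g (Sum.inr i)) (by rw [← hQ, hQ0]) i
  have h1 := artin v hvli Finset.univ (Sum.elim
    (fun i : Fin (minpoly (Subring.center D) a).natDegree => x * E i)
    (fun i : Fin (minpoly (Subring.center D) a).natDegree => -E i)) (fun t => by
    rw [Fintype.sum_sum_type, hv]
    simp only [Sum.elim_inl, Sum.elim_inr]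
    have h2 := hx _ (hw t).symm
    rw [← hn, Finset.sum_range, Finset.mul_sum, Finset.sum_mul, ← sub_eq_zero] at h2
    rw [← h2, sub_eq_add_neg, ← Finset.sum_neg_distrib]
    congr 1
    · exact Finset.sum_congr rfl fun i _ => by simp only [mul_assoc]
    · exact Finset.sum_congr rfl fun i _ => by simp only [mul_assoc, neg_mul])
  have h2 := h1 (Sum.inr ⟨n, by omega⟩) (Finset.mem_univ _)
  rw [Sum.elim_inr] at h2
  change -E n = 0 at h2
  rw [hE] at h2
  exact one_ne_zero (neg_eq_zero.1 h2)

end Pool.Agent.Helper78.DR
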