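import Pool.Agent.Helper78.DR.Deg4b

/-!
# Independence of bimodule maps, conjugate roots and the double centralizer of an element
-/

set_option autoImplicit false

namespace Pool.Agent.Helper78.DR

universe u

variable {D : Type u} [DivisionRing D]

/-- If the `v i` are linearly independent over the center and `∑ A i * t * v i = 0` for all `t`
then all `A i` vanish. -/
theorem artin {ι : Type*} (v : ι → D) (hv : LinearIndependent (Subring.center D) v)
    (s : Finset ι) :
    ∀ A : ι → D, (∀ t : D, ∑ i ∈ s, A i * t * v i = 0) → ∀ i ∈ s, A i = 0 := by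
  classical
  induction s using Finset.induction_on with
  | empty => intro A _ i hi; simp at hi
  | insert j s hj ih =>
    intro A hA
    have h0 : A j = 0 := by
      by_contra hne
      obtain ⟨B, hBdef⟩ : ∃ B : ι → D, B = fun i => (A j)⁻¹ * A i := ⟨_, rfl⟩
      have hB : ∀ t, ∑ i ∈ insert j s, B i * t * v i = 0 := by
        intro t
        have e : ∑ i ∈ insert j s, B i * t * v i =
            (A j)⁻¹ * ∑ i ∈ insert j s, A i * t * v i := by
          rw [Finset.mul_sum, hBdef]
          exact Finset.sum_congr rfl fun i _ => by simp only [mul_assoc]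
        rw [e, hA t, mul_zero]
      have hBj : B j = 1 := by rw [hBdef]; exact inv_mul_cancel₀ hne
      have hcen : ∀ i ∈ s, ∀ x, x * B i = B i * x := by
        intro i hi x
        have h1 : ∀ t, ∑ i ∈ s, (B i * x - x * B i) * t * v i = 0 := by
          intro t
          have e1 := hB (x * t)
          have e2 := hB t
          rw [Finset.sum_insert hj, hBj] at e1 e2
          have e3 : x * (1 * t * v j + ∑ i ∈ s, B i * t * v i) = 0 := by rw [e2, mul_zero]
          rw [mul_add, Finset.mul_sum] at e3
          have e4 : ∑ i ∈ s, (B i * x - x * B i) * t * v i =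
              (1 * (x * t) * v j + ∑ i ∈ s, B i * (x * t) * v i) -
                (x * (1 * t * v j) + ∑ i ∈ s, x * (B i * t * v i)) := by
            have e5 : 1 * (x * t) * v j = x * (1 * t * v j) := by
              simp only [one_mul, mul_assoc]
            rw [e5, add_sub_add_left_eq_sub, ← Finset.sum_sub_distrib]
            exact Finset.sum_congr rfl fun i _ => by simp only [sub_mul, mul_assoc]
          rw [e4, e1, e3, sub_zero]
        exact (sub_eq_zero.1 (ih _ h1 i hi)).symm
      have hcen' : ∀ i ∈ insert j s, B i ∈ Subring.center D := by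
        intro i hi
        rw [Subring.mem_center_iff]
        rcases Finset.mem_insert.1 hi with rfl | hi
        · intro x; rw [hBj, mul_one, one_mul]
        · exact hcen i hi
      have h2 := hB 1
      have h3 : ∑ i ∈ insert j s,
          (if h : B i ∈ Subring.center D then (⟨B i, h⟩ : Subring.center D) else 0) • v i = 0 := by
        rw [← h2]
        refine Finset.sum_congr rfl fun i hi => ?_
        rw [dif_pos (hcen' i hi), mul_one]
        rfl
      have h4 := linearIndependent_iff'.1 hv _ _ h3 j (Finset.mem_insert_self _ _)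
      rw [dif_pos (hcen' j (Finset.mem_insert_self _ _))] at h4
      have h5 : B j = 0 := congrArg Subtype.val h4
      rw [hBj] at h5
      exact one_ne_zero h5
    intro i hi
    rcases Finset.mem_insert.1 hi with rfl | hi
    · exact h0
    · refine ih A (fun t => ?_) i hi
      have := hA t
      rwa [Finset.sum_insert hj, h0, zero_mul, zero_mul, zero_add] at this

/-- The Casimir element of a monic polynomial with roots `a`, `a'`. -/
theorem casimir {F : Type*} [Field F] [Algebra F D] (f : Polynomial F) (n : ℕ)
    (hf : f.Monic) (hn : f.natDegree = n + 1) (a a' : D) (ha : Polynomial.aeval a f = 0)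
    (ha' : Polynomial.aeval a' f = 0) :
    ∃ E : ℕ → D, E n = 1 ∧ ∀ t : D,
      a * ∑ j ∈ Finset.range (n + 1), E j * t * a' ^ j =
        (∑ j ∈ Finset.range (n + 1), E j * t * a' ^ j) * a' := by
  classical
  -- the iterated quotients
  obtain ⟨g, hg⟩ : ∃ g : ℕ → Polynomial F, g = fun j => (Polynomial.divX^[j]) f := ⟨_, rfl⟩
  have hg0 : g 0 = f := by rw [hg]; rfl
  have hgs : ∀ j, g (j + 1) = (g j).divX := by
    intro j
    rw [hg]
    exact Function.iterate_succ_apply' _ _ _
  have hco : ∀ j k, (g j).coeff k = f.coeff (k + j) := by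
    intro j
    induction j with
    | zero => intro k; rw [hg0, add_zero]
    | succ j ih =>
      intro k
      rw [hgs, Polynomial.coeff_divX, ih]
      congr 1
      ring
  have hrec : ∀ j, Polynomial.aeval a (g j) =
      a * Polynomial.aeval a (g (j + 1)) + algebraMap F D (f.coeff j) := by
    intro j
    have h1 := Polynomial.divX_mul_X_add (g j)
    rw [← hgs, hco, zero_add, ← Polynomial.X_mul] at h1
    rw [← h1, map_add, Polynomial.aeval_C, map_mul, Polynomial.aeval_X]
  have hlast : g (n + 1) = 1 := by
    ext k
    rw [hco, Polynomial.coeff_one]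
    by_cases hk : k = 0
    · subst hk
      rw [if_pos rfl, zero_add, ← hn]
      exact hf.coeff_natDegree
    · rw [if_neg hk]
      exact Polynomial.coeff_eq_zero_of_natDegree_lt (by omega)
  refine ⟨fun j => Polynomial.aeval a (g (j + 1)), ?_, fun t => ?_⟩
  · change Polynomial.aeval a (g (n + 1)) = 1
    rw [hlast, map_one]
  · -- multiply out
    have e1 : ∀ j, a * (Polynomial.aeval a (g (j + 1)) * t * a' ^ j) =
        Polynomial.aeval a (g j) * t * a' ^ j - f.coeff j • (t * a' ^ j) := by
      intro j
      rw [hrec j, Algebra.smul_def]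
      simp only [add_mul, mul_assoc]
      abel
    rw [Finset.mul_sum, Finset.sum_mul]
    have e2 : ∀ j, Polynomial.aeval a (g (j + 1)) * t * a' ^ j * a' =
        Polynomial.aeval a (g (j + 1)) * t * a' ^ (j + 1) := by
      intro j
      rw [mul_assoc, ← pow_succ]
    rw [Finset.sum_congr rfl fun j _ => e1 j, Finset.sum_congr rfl fun j _ => e2 j,
      Finset.sum_sub_distrib]
    have e3 := Finset.sum_range_succ' (fun j => Polynomial.aeval a (g j) * t * a' ^ j) (n + 1)
    have e4 := Finset.sum_range_succ (fun j => Polynomial.aeval a (g j) * t * a' ^ j) (n + 1)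
    have e5 : Polynomial.aeval a (g 0) = 0 := by rw [hg0, ha]
    have e6 : ∑ j ∈ Finset.range (n + 1), f.coeff j • (t * a' ^ j) + t * a' ^ (n + 1) = 0 := by
      have h1 : t * Polynomial.aeval a' f = 0 := by rw [ha', mul_zero]
      rw [Polynomial.aeval_eq_sum_range, hn, Finset.mul_sum, Finset.sum_range_succ] at h1
      have h2 : f.coeff (n + 1) = 1 := by rw [← hn]; exact hf.coeff_natDegree
      rw [h2, one_smul] at h1
      rw [← h1]
      congr 1
      exact Finset.sum_congr rfl fun j _ => (mul_smul_comm _ _ _).symm
    rw [e3, e5, zero_mul, zero_mul, add_zero, hlast, map_one, one_mul] at e4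
    rw [e4, sub_eq_iff_eq_add]
    have e7 : t * a' ^ (n + 1) = -∑ j ∈ Finset.range (n + 1), f.coeff j • (t * a' ^ j) :=
      eq_neg_of_add_eq_zero_right e6
    rw [e7]
    abel

end Pool.Agent.Helper78.DR
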