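import Pool.Agent.Helper78.DR.Dcc

/-!
# Normalized subfields and inseparable elements
-/

set_option autoImplicit false

namespace Pool.Agent.Helper78.DR

universe u

variable {D : Type u} [DivisionRing D]

open scoped IsMulCommutative in
/-- a conjugation which maps `F[a]` to itself has finite order on it -/
theorem aut_order (a w : D) (ha : IsIntegral (Subring.center D) a) (hw0 : w ≠ 0)
    (hw : w * a * w⁻¹ ∈ Algebra.adjoin (Subring.center D) ({a} : Set D)) :
    ∃ m : ℕ, 0 < m ∧ w ^ m * a = a * w ^ m := by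
  classical
  -- conjugation preserves `F[a]`
  have hpres : ∀ x ∈ Algebra.adjoin (Subring.center D) ({a} : Set D),
      w * x * w⁻¹ ∈ Algebra.adjoin (Subring.center D) ({a} : Set D) := by
    intro x hx
    induction hx using Algebra.adjoin_induction with
    | mem x hx => rw [Set.mem_singleton_iff.1 hx]; exact hw
    | algebraMap r =>
      rw [← Algebra.commutes, mul_assoc, mul_inv_cancel₀ hw0, mul_one]
      exact Subalgebra.algebraMap_mem _ _
    | add x y _ _ hx hy =>
      rw [mul_add, add_mul]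
      exact add_mem hx hy
    | mul x y _ _ hx hy =>
      have e : w * (x * y) * w⁻¹ = (w * x * w⁻¹) * (w * y * w⁻¹) := by
        simp only [mul_assoc]
        rw [inv_mul_cancel_left₀ hw0]
      rw [e]
      exact mul_mem hx hy
  have hmem : ∀ k : ℕ, w ^ k * a * (w ^ k)⁻¹ ∈
      Algebra.adjoin (Subring.center D) ({a} : Set D) := by
    intro k
    induction k with
    | zero =>
      rw [pow_zero, one_mul, inv_one, mul_one]
      exact Algebra.subset_adjoin rfl
    | succ k ih =>
      have e : w ^ (k + 1) * a * (w ^ (k + 1))⁻¹ = w * (w ^ k * a * (w ^ k)⁻¹) * w⁻¹ := by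
        rw [pow_succ', mul_inv_rev]
        simp only [mul_assoc]
      rw [e]
      exact hpres _ ih
  -- all conjugates are roots
  have hconj : ∀ (k : ℕ) (p : Polynomial (Subring.center D)),
      Polynomial.aeval (w ^ k * a * (w ^ k)⁻¹) p = w ^ k * Polynomial.aeval a p * (w ^ k)⁻¹ := by
    intro k p
    have hk0 : w ^ k ≠ 0 := pow_ne_zero _ hw0
    induction p using Polynomial.induction_on with
    | C r =>
      rw [Polynomial.aeval_C, Polynomial.aeval_C, ← Algebra.commutes, mul_assoc,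
        mul_inv_cancel₀ hk0, mul_one]
    | add p q hp hq => rw [map_add, map_add, hp, hq, mul_add, add_mul]
    | monomial n r h =>
      rw [pow_succ, ← mul_assoc, map_mul (Polynomial.aeval (w ^ k * a * (w ^ k)⁻¹)) _ Polynomial.X,
        h, map_mul (Polynomial.aeval a) _ Polynomial.X, Polynomial.aeval_X, Polynomial.aeval_X]
      simp only [mul_assoc]
      rw [inv_mul_cancel_left₀ hk0]
  have hfin := Polynomial.rootSet_finite (minpoly (Subring.center D) a)
    (Algebra.adjoin (Subring.center D) ({a} : Set D))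
  have hroot : ∀ k : ℕ, (⟨w ^ k * a * (w ^ k)⁻¹, hmem k⟩ :
      Algebra.adjoin (Subring.center D) ({a} : Set D)) ∈
      (minpoly (Subring.center D) a).rootSet
        (Algebra.adjoin (Subring.center D) ({a} : Set D)) := by
    intro k
    rw [Polynomial.mem_rootSet]
    refine ⟨minpoly.ne_zero ha, ?_⟩
    apply Subtype.ext
    have h1 := hconj k (minpoly (Subring.center D) a)
    rw [minpoly.aeval, mul_zero, zero_mul] at h1
    rw [← Subalgebra.coe_val, ← Polynomial.aeval_algHom_apply]
    exact h1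
  have hninj : ¬ Function.Injective (fun k : ℕ => (⟨w ^ k * a * (w ^ k)⁻¹, hmem k⟩ :
      Algebra.adjoin (Subring.center D) ({a} : Set D))) := by
    intro hinj
    exact Set.infinite_of_injective_forall_mem hinj hroot hfin
  simp only [Function.Injective, not_forall] at hninj
  obtain ⟨i, j, hij, hne⟩ := hninj
  have hij' : w ^ i * a * (w ^ i)⁻¹ = w ^ j * a * (w ^ j)⁻¹ := congrArg Subtype.val hij
  have key : ∀ i j : ℕ, i < j → w ^ i * a * (w ^ i)⁻¹ = w ^ j * a * (w ^ j)⁻¹ →
      ∃ m : ℕ, 0 < m ∧ w ^ m * a = a * w ^ m := by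
    intro i j hlt h
    refine ⟨j - i, by omega, ?_⟩
    have hi0 : w ^ i ≠ 0 := pow_ne_zero _ hw0
    have hj : w ^ j = w ^ i * w ^ (j - i) := by rw [← pow_add]; congr 1; omega
    have hm0 : w ^ (j - i) ≠ 0 := pow_ne_zero _ hw0
    rw [hj, mul_inv_rev] at h
    have h2 : w ^ i * a * (w ^ i)⁻¹ = w ^ i * (w ^ (j - i) * a * (w ^ (j - i))⁻¹) * (w ^ i)⁻¹ := by
      rw [h]
      simp only [mul_assoc]
    have h3 := mul_left_cancel₀ hi0 (mul_right_cancel₀ (inv_ne_zero hi0) h2)
    nth_rw 2 [h3]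
    rw [mul_assoc, inv_mul_cancel₀ hm0, mul_one]
  rcases lt_or_gt_of_ne hne with h | h
  · exact key i j h hij'
  · exact key j i h hij'.symm

/-- **Normalized subfields.** -/
theorem aut_case (a w : D) (ha : IsIntegral (Subring.center D) a) (hne : w * a ≠ a * w)
    (hw : w * a * w⁻¹ ∈ Algebra.adjoin (Subring.center D) ({a} : Set D)) :
    ∃ K : Subfield D, CentFin K := by
  classical
  have hw0 : w ≠ 0 := by
    rintro rfl
    apply hne
    simp
  obtain ⟨m, hm0, hm⟩ := aut_order a w ha hw0 hw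
  have hpres : ∀ x ∈ Algebra.adjoin (Subring.center D) ({a} : Set D),
      w * x * w⁻¹ ∈ Algebra.adjoin (Subring.center D) ({a} : Set D) := by
    intro x hx
    induction hx using Algebra.adjoin_induction with
    | mem x hx => rw [Set.mem_singleton_iff.1 hx]; exact hw
    | algebraMap r =>
      rw [← Algebra.commutes, mul_assoc, mul_inv_cancel₀ hw0, mul_one]
      exact Subalgebra.algebraMap_mem _ _
    | add x y _ _ hx hy =>
      rw [mul_add, add_mul]
      exact add_mem hx hy
    | mul x y _ _ hx hy =>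
      have e : w * (x * y) * w⁻¹ = (w * x * w⁻¹) * (w * y * w⁻¹) := by
        simp only [mul_assoc]
        rw [inv_mul_cancel_left₀ hw0]
      rw [e]
      exact mul_mem hx hy
  have hcomm : ∀ x ∈ Algebra.adjoin (Subring.center D) ({a} : Set D),
      x * w ^ m = w ^ m * x := by
    intro x hx
    induction hx using Algebra.adjoin_induction with
    | mem x hx => rw [Set.mem_singleton_iff.1 hx]; exact hm.symm
    | algebraMap r => exact Algebra.commutes _ _
    | add x y _ _ hx hy => rw [mul_add, add_mul, hx, hy]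
    | mul x y _ _ hx hy => rw [mul_assoc, hy, ← mul_assoc, hx, mul_assoc]
  obtain ⟨S, hS⟩ := ha.fg_adjoin_singleton
  obtain ⟨s, hs⟩ : ∃ s : S × Fin m → D, s = fun i => (i.1 : D) * w ^ (i.2 : ℕ) := ⟨_, rfl⟩
  have hSmem : ∀ x ∈ S, x ∈ Algebra.adjoin (Subring.center D) ({a} : Set D) := by
    intro x hx
    have : x ∈ (Algebra.adjoin (Subring.center D) ({a} : Set D)).toSubmodule := by
      rw [← hS]
      exact Submodule.subset_span hx
    exact this
  have hall : ∀ x ∈ Algebra.adjoin (Subring.center D) ({a} : Set D), ∀ j : ℕ, j < m →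
      x * w ^ j ∈ Sp (w ^ m) s := by
    intro x hx j hj
    have hx' : x ∈ Submodule.span (Subring.center D) (S : Set D) := by
      rw [hS]; exact hx
    clear hx
    induction hx' using Submodule.span_induction with
    | mem x hx =>
      have := Sp_mem (z₀ := w ^ m) s (⟨x, hx⟩, ⟨j, hj⟩)
      rw [hs] at this ⊢
      exact this
    | zero => rw [zero_mul]; exact zero_mem _
    | add x y _ _ ihx ihy =>
      rw [add_mul]
      exact add_mem ihx ihy
    | smul r x _ ih =>
      rw [smul_mul_assoc]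
      exact Sp_smul r ih
  have h1 : (1 : D) ∈ Sp (w ^ m) s := by
    have := hall 1 (one_mem _) 0 hm0
    rwa [one_mul, pow_zero] at this
  refine centFin_of_span (w ^ m) s h1 a w hm.symm (Commute.self_pow w m).eq ?_ ?_ hne.symm
  · rintro ⟨x, j⟩
    rw [hs]
    change a * ((x : D) * w ^ (j : ℕ)) ∈ _
    rw [← mul_assoc, ← hs]
    exact hall _ (mul_mem (Algebra.subset_adjoin rfl) (hSmem _ x.2)) _ j.2
  · rintro ⟨x, j⟩
    rw [hs]
    change w * ((x : D) * w ^ (j : ℕ)) ∈ _
    have e : w * ((x : D) * w ^ (j : ℕ)) = (w * x * w⁻¹) * w ^ ((j : ℕ) + 1) := by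
      rw [pow_succ']
      simp only [mul_assoc]
      rw [inv_mul_cancel_left₀ hw0]
    rw [e, ← hs]
    by_cases hj : (j : ℕ) + 1 < m
    · exact hall _ (hpres _ (hSmem _ x.2)) _ hj
    · have hj2 : (j : ℕ) + 1 = m := by have := j.2; omega
      rw [hj2, hcomm _ (hpres _ (hSmem _ x.2))]
      refine Sp_mul (self_mem_Zc _) ?_
      have := hall _ (hpres _ (hSmem _ x.2)) 0 hm0
      rwa [pow_zero, mul_one] at this

theorem charP_of_prime {R : Type*} [Ring R] [Nontrivial R] (p : ℕ) (hp : p.Prime)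
    (h : (p : R) = 0) : CharP R p := by
  have h1 : ringChar R ∣ p := ringChar.dvd h
  rcases (Nat.dvd_prime hp).1 h1 with h2 | h2
  · exfalso
    have h3 : ((ringChar R : ℕ) : R) = 0 := ringChar.Nat.cast_ringChar
    rw [h2, Nat.cast_one] at h3
    exact one_ne_zero h3
  · exact ringChar.of_eq h2

/-- `w b - b w = 1` -/
theorem weyl_of_insep (p : ℕ) (hp : p.Prime) (hp0 : (p : D) = 0) (b : D)
    (hbp : ∀ x : D, x * b ^ p = b ^ p * x) (hb : NonC b) : ∃ w : D, w * b - b * w = 1 := by
  classical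
  have hfact := Fact.mk hp
  obtain ⟨z, hz⟩ := hb
  obtain ⟨δ, hδ⟩ : ∃ δ : Module.End (Subring.center D) D,
      δ = LinearMap.mulRight (Subring.center D) b - LinearMap.mulLeft (Subring.center D) b :=
    ⟨_, rfl⟩
  have hδa : ∀ x, δ x = x * b - b * x := by
    intro x
    rw [hδ, LinearMap.sub_apply, LinearMap.mulRight_apply, LinearMap.mulLeft_apply]
  have hchar : CharP (Module.End (Subring.center D) D) p := by
    refine charP_of_prime p hp ?_
    ext x
    rw [Module.End.natCast_apply, nsmul_eq_mul, hp0, zero_mul]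
    rfl
  have hδp : δ ^ p = 0 := by
    rw [hδ, sub_pow_char_of_commute _ (LinearMap.commute_mulLeft_right b b).symm,
      LinearMap.pow_mulRight, LinearMap.pow_mulLeft]
    ext x
    rw [LinearMap.sub_apply, LinearMap.mulRight_apply, LinearMap.mulLeft_apply, hbp, sub_self]
    rfl
  have hex : ∃ k : ℕ, (δ ^ (k + 1)) z = 0 := by
    refine ⟨p - 1, ?_⟩
    rw [Nat.sub_add_cancel hp.one_lt.le, hδp]
    rfl
  have h1 := Nat.find_spec hex
  have h2 : ∀ m < Nat.find hex, (δ ^ (m + 1)) z ≠ 0 := fun m hm => Nat.find_min hex hm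
  have hpos : 0 < Nat.find hex := by
    rw [Nat.find_pos]
    rw [pow_one, hδa, sub_eq_zero]
    exact hz
  obtain ⟨k, hk⟩ : ∃ k, Nat.find hex = k + 1 := ⟨Nat.find hex - 1, by omega⟩
  rw [hk] at h1
  have hu0 := h2 k (by omega)
  obtain ⟨u, hu⟩ : ∃ u, u = (δ ^ (k + 1)) z := ⟨_, rfl⟩
  obtain ⟨v, hv⟩ : ∃ v, v = (δ ^ k) z := ⟨_, rfl⟩
  have hvu : v * b - b * v = u := by
    rw [← hδa, hv, hu, pow_succ', Module.End.mul_apply]
  have hub : u * b - b * u = 0 := by
    rw [← hδa, hu, ← Module.End.mul_apply, ← pow_succ', h1]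
  rw [← hu] at hu0
  have hub' : b * u⁻¹ = u⁻¹ * b := (Commute.inv_right₀ (sub_eq_zero.1 hub).symm).eq
  refine ⟨v * u⁻¹, ?_⟩
  rw [mul_assoc, ← hub', ← mul_assoc, ← mul_assoc, ← sub_mul, hvu, mul_inv_cancel₀ hu0]

/-- **Inseparable elements.** -/
theorem insep_case (p : ℕ) (hp : p.Prime) (hp0 : (p : D) = 0) (b : D)
    (hbp : ∀ x : D, x * b ^ p = b ^ p * x) (hb : NonC b) : ∃ K : Subfield D, CentFin K := by
  classical
  obtain ⟨w, hw⟩ := weyl_of_insep p hp hp0 b hbp hb
  have hwb : w * b = b * w + 1 := by rw [← hw]; abel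
  have hpow : ∀ k : ℕ, w ^ (k + 1) * b = b * w ^ (k + 1) + ((k + 1 : ℕ) : D) * w ^ k := by
    intro k
    induction k with
    | zero =>
      rw [zero_add, pow_one, pow_zero, hwb, Nat.cast_one, one_mul]
    | succ k ih =>
      rw [pow_succ' w (k + 1), mul_assoc, ih, mul_add, ← mul_assoc w b, hwb, add_mul, one_mul,
        mul_assoc b w, ← pow_succ', add_assoc]
      congr 1
      rw [← mul_assoc, ← Nat.cast_commute (k + 1) w, mul_assoc, ← pow_succ']
      push_cast
      simp only [add_mul, one_mul]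
      abel
  have hp1 : 0 < p := hp.pos
  have hwpb : b * w ^ p = w ^ p * b := by
    have := hpow (p - 1)
    rw [Nat.sub_add_cancel hp.one_lt.le, hp0, zero_mul, add_zero] at this
    exact this.symm
  have hwb' : ∀ k : ℕ, w * b ^ (k + 1) = b ^ (k + 1) * w + ((k + 1 : ℕ) : D) * b ^ k := by
    intro k
    induction k with
    | zero =>
      rw [zero_add, pow_one, pow_zero, hwb, Nat.cast_one, one_mul]
    | succ k ih =>
      rw [pow_succ b (k + 1), ← mul_assoc, ih, add_mul, mul_assoc _ w b, hwb, mul_add, mul_one,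
        mul_assoc _ (b ^ k) b, ← pow_succ, ← mul_assoc, add_assoc]
      congr 1
      push_cast
      simp only [add_mul, one_mul]
      abel
  obtain ⟨s, hs⟩ : ∃ s : Fin p × Fin p → D, s = fun i => b ^ (i.1 : ℕ) * w ^ (i.2 : ℕ) :=
    ⟨_, rfl⟩
  have hall0 : ∀ i j : ℕ, i < p → j < p → b ^ i * w ^ j ∈ Sp (w ^ p) s := by
    intro i j hi hj
    have := Sp_mem (z₀ := w ^ p) s (⟨i, hi⟩, ⟨j, hj⟩)
    rw [hs] at this ⊢
    exact this
  have hbZ : b ^ p ∈ Zc (w ^ p) := center_mem_Zc _ hbp
  -- `j` may be `p`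
  have hall1 : ∀ i j : ℕ, i < p → j ≤ p → b ^ i * w ^ j ∈ Sp (w ^ p) s := by
    intro i j hi hj
    rcases Nat.lt_or_ge j p with h | h
    · exact hall0 i j hi h
    · have hjp : j = p := le_antisymm hj h
      subst hjp
      have e : b ^ i * w ^ j = w ^ j * (b ^ i * w ^ 0) := by
        rw [pow_zero, mul_one]
        exact ((show Commute b (w ^ j) from hwpb).pow_left i).eq
      rw [e]
      exact Sp_mul (self_mem_Zc _) (hall0 i 0 hi hp1)
  have hall2 : ∀ i j : ℕ, i ≤ p → j ≤ p → b ^ i * w ^ j ∈ Sp (w ^ p) s := by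
    intro i j hi hj
    rcases Nat.lt_or_ge i p with h | h
    · exact hall1 i j h hj
    · have hip : i = p := le_antisymm hi h
      subst hip
      have := Sp_mul hbZ (hall1 0 j hp1 hj)
      rwa [pow_zero, one_mul] at this
  have h1 : (1 : D) ∈ Sp (w ^ p) s := by
    have := hall0 0 0 hp1 hp1
    rwa [pow_zero, pow_zero, one_mul] at this
  refine centFin_of_span (w ^ p) s h1 b w hwpb (Commute.self_pow w p).eq ?_ ?_ ?_
  · rintro ⟨i, j⟩
    have h2 := hall2 (i + 1) j i.2 j.2.le
    rw [hs] at h2 ⊢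
    change b * (b ^ (i : ℕ) * w ^ (j : ℕ)) ∈ _
    rw [← mul_assoc, ← pow_succ']
    exact h2
  · rintro ⟨i, j⟩
    have e : w * s (i, j) = w * b ^ (i : ℕ) * w ^ (j : ℕ) := by
      rw [hs]
      exact (mul_assoc _ _ _).symm
    rw [e]
    rcases hi : (i : ℕ) with _ | k
    · rw [pow_zero, mul_one, ← pow_succ']
      have := hall2 0 (j + 1) hp1.le j.2
      rwa [pow_zero, one_mul] at this
    · have hk : k + 1 < p := by have := i.2; omega
      rw [hwb', add_mul, mul_assoc _ w, ← pow_succ', mul_assoc]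
      refine add_mem (hall2 _ _ hk.le j.2) (Sp_mul ?_ (hall2 _ _ (by omega) j.2.le))
      exact center_mem_Zc _ fun x => (Nat.cast_commute (k + 1) x).symm.eq
  · intro h
    rw [hwb] at h
    exact one_ne_zero (left_eq_add.1 h)

end Pool.Agent.Helper78.DR
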