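import Mathlib

/-!
# Centrally finite subdivision rings (MP_1d885e_al): the spanning criterion
-/

set_option autoImplicit false

namespace Pool.Agent.Helper78.DR

universe u

variable {D : Type u} [DivisionRing D]

/-- The conclusion of the problem: `K` is a non-commutative sub-division ring which is spanned by
finitely many of its elements over its own center. -/
def CentFin (K : Subfield D) : Prop :=
  (∃ a ∈ K, ∃ b ∈ K, a * b ≠ b * a) ∧
    ∃ s : Finset D, (∀ t ∈ s, t ∈ K) ∧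
      ∀ x ∈ K, ∃ c : D → D,
        (∀ t ∈ s, c t ∈ K ∧ ∀ y ∈ K, c t * y = y * c t) ∧ x = ∑ t ∈ s, c t * t

/-- the double centralizer of an element -/
def Zc (z₀ : D) : Subfield D where
  carrier := {z | ∀ x, x * z₀ = z₀ * x → x * z = z * x}
  mul_mem' := by
    intro a b ha hb x hx
    rw [← mul_assoc, ha x hx, mul_assoc, hb x hx, mul_assoc]
  one_mem' := by intro x _; simp
  add_mem' := by
    intro a b ha hb x hx
    rw [mul_add, add_mul, ha x hx, hb x hx]
  zero_mem' := by intro x _; simp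
  neg_mem' := by
    intro a ha x hx
    rw [mul_neg, neg_mul, ha x hx]
  inv_mem' := by
    intro a ha x hx
    exact (Commute.inv_right₀ (ha x hx : Commute x a)).eq

theorem mem_Zc {z₀ z : D} : z ∈ Zc z₀ ↔ ∀ x, x * z₀ = z₀ * x → x * z = z * x := Iff.rfl

theorem self_mem_Zc (z₀ : D) : z₀ ∈ Zc z₀ := fun _ hx => hx

theorem center_mem_Zc (z₀ : D) {z : D} (hz : ∀ x, x * z = z * x) : z ∈ Zc z₀ := fun x _ => hz x

/-- `Zc` is commutative -/
theorem Zc_comm {z₀ z z' : D} (hz : z ∈ Zc z₀) (hz' : z' ∈ Zc z₀) : z * z' = z' * z := by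
  have h1 : z * z₀ = z₀ * z := (hz z₀ rfl).symm
  exact hz' z h1

/-- the span of a family over `Zc z₀` -/
def Sp (z₀ : D) {ι : Type*} (s : ι → D) : Submodule (Zc z₀) D := Submodule.span _ (Set.range s)

theorem Sp_mul {z₀ z x : D} {ι : Type*} {s : ι → D} (hz : z ∈ Zc z₀) (hx : x ∈ Sp z₀ s) :
    z * x ∈ Sp z₀ s :=
  (Sp z₀ s).smul_mem ⟨z, hz⟩ hx

theorem Sp_mem {z₀ : D} {ι : Type*} (s : ι → D) (i : ι) : s i ∈ Sp z₀ s :=
  Submodule.subset_span ⟨i, rfl⟩

/-- left multiplication by an element that commutes with `z₀` preserves the span -/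
theorem Sp_left {z₀ g : D} {ι : Type*} {s : ι → D} (hc : g * z₀ = z₀ * g)
    (hg : ∀ i, g * s i ∈ Sp z₀ s) {x : D} (hx : x ∈ Sp z₀ s) : g * x ∈ Sp z₀ s := by
  refine Submodule.span_induction (p := fun x _ => g * x ∈ Sp z₀ s) ?_ ?_ ?_ ?_ hx
  · rintro _ ⟨i, rfl⟩
    exact hg i
  · rw [mul_zero]; exact (Sp z₀ s).zero_mem
  · intro x y _ _ hx hy
    rw [mul_add]
    exact (Sp z₀ s).add_mem hx hy
  · intro z x _ hx
    have e : g * (z • x) = (z : D) * (g * x) := by
      change g * ((z : D) * x) = _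
      rw [← mul_assoc, z.2 g hc, mul_assoc]
    rw [e]
    exact Sp_mul z.2 hx

/-- right multiplication preserves the span if it does so for the generators -/
theorem Sp_right {z₀ g : D} {ι : Type*} {s : ι → D}
    (hg : ∀ i, s i * g ∈ Sp z₀ s) {x : D} (hx : x ∈ Sp z₀ s) : x * g ∈ Sp z₀ s := by
  refine Submodule.span_induction (p := fun x _ => x * g ∈ Sp z₀ s) ?_ ?_ ?_ ?_ hx
  · rintro _ ⟨i, rfl⟩
    exact hg i
  · rw [zero_mul]; exact (Sp z₀ s).zero_mem
  · intro x y _ _ hx hy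
    rw [add_mul]
    exact (Sp z₀ s).add_mem hx hy
  · intro z x _ hx
    have e : (z • x) * g = (z : D) * (x * g) := mul_assoc _ _ _
    rw [e]
    exact Sp_mul z.2 hx

/-- the sub-division ring of the elements which commute with `Zc z₀` and preserve the span -/
def RK (z₀ : D) {ι : Type*} [Finite ι] (s : ι → D) : Subfield D where
  carrier := {x | (∀ z ∈ Zc z₀, x * z = z * x) ∧ ∀ w ∈ Sp z₀ s, x * w ∈ Sp z₀ s}
  mul_mem' := by
    rintro a b ⟨ha, ha'⟩ ⟨hb, hb'⟩
    refine ⟨fun z hz => ?_, fun w hw => ?_⟩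
    · rw [mul_assoc, hb z hz, ← mul_assoc, ha z hz, mul_assoc]
    · rw [mul_assoc]
      exact ha' _ (hb' w hw)
  one_mem' := ⟨fun z _ => by simp, fun w hw => by rwa [one_mul]⟩
  add_mem' := by
    rintro a b ⟨ha, ha'⟩ ⟨hb, hb'⟩
    refine ⟨fun z hz => ?_, fun w hw => ?_⟩
    · rw [add_mul, mul_add, ha z hz, hb z hz]
    · rw [add_mul]
      exact (Sp z₀ s).add_mem (ha' w hw) (hb' w hw)
  zero_mem' := ⟨fun z _ => by simp, fun w _ => by rw [zero_mul]; exact (Sp z₀ s).zero_mem⟩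
  neg_mem' := by
    rintro a ⟨ha, ha'⟩
    refine ⟨fun z hz => ?_, fun w hw => ?_⟩
    · rw [neg_mul, mul_neg, ha z hz]
    · rw [neg_mul]
      exact (Sp z₀ s).neg_mem (ha' w hw)
  inv_mem' := by
    rintro a ⟨ha, ha'⟩
    by_cases h0 : a = 0
    · subst h0
      rw [inv_zero]
      exact ⟨ha, ha'⟩
    refine ⟨fun z hz => ?_, fun w hw => ?_⟩
    · exact (Commute.inv_left₀ (ha z hz : Commute a z)).eq
    · have hfd : FiniteDimensional (Zc z₀) (Sp z₀ s) :=
        FiniteDimensional.span_of_finite _ (Set.finite_range s)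
      let L : Sp z₀ s →ₗ[Zc z₀] Sp z₀ s :=
        { toFun := fun w => ⟨a * w, ha' w w.2⟩
          map_add' := fun v w => by
            apply Subtype.ext
            exact mul_add a (v : D) (w : D)
          map_smul' := fun z w => by
            apply Subtype.ext
            change a * ((z : D) * (w : D)) = (z : D) * (a * (w : D))
            rw [← mul_assoc, ha z z.2, mul_assoc] }
      have hinj : Function.Injective L := by
        intro v w hvw
        have h1 : a * (v : D) = a * (w : D) := congrArg Subtype.val hvw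
        exact Subtype.ext (mul_left_cancel₀ h0 h1)
      have hsurj := LinearMap.surjective_of_injective hinj
      obtain ⟨v, hv⟩ := hsurj ⟨w, hw⟩
      have h1 : a * (v : D) = w := congrArg Subtype.val hv
      rw [← h1, inv_mul_cancel_left₀ h0]
      exact v.2

/-- **Spanning criterion.** -/
theorem centFin_of_span (z₀ : D) {ι : Type*} [Finite ι] (s : ι → D) (h1 : 1 ∈ Sp z₀ s)
    (g₁ g₂ : D) (c₁ : g₁ * z₀ = z₀ * g₁) (c₂ : g₂ * z₀ = z₀ * g₂)
    (hg₁ : ∀ i, g₁ * s i ∈ Sp z₀ s) (hg₂ : ∀ i, g₂ * s i ∈ Sp z₀ s) (hne : g₁ * g₂ ≠ g₂ * g₁) :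
    ∃ K : Subfield D, CentFin K := by
  have hfd : FiniteDimensional (Zc z₀) (Sp z₀ s) :=
    FiniteDimensional.span_of_finite _ (Set.finite_range s)
  refine ⟨RK z₀ s, ⟨g₁, ⟨fun z hz => hz g₁ c₁, fun w hw => Sp_left c₁ hg₁ hw⟩, g₂,
    ⟨fun z hz => hz g₂ c₂, fun w hw => Sp_left c₂ hg₂ hw⟩, hne⟩, ?_⟩
  -- `RK` as a submodule of the span
  let N : Submodule (Zc z₀) D :=
    { carrier := RK z₀ s
      add_mem' := fun ha hb => (RK z₀ s).add_mem ha hb
      zero_mem' := (RK z₀ s).zero_mem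
      smul_mem' := fun z x hx => by
        change (z : D) * x ∈ RK z₀ s
        refine (RK z₀ s).mul_mem ⟨fun z' hz' => Zc_comm z.2 hz', fun w hw => Sp_mul z.2 hw⟩ hx }
  have hN : N ≤ Sp z₀ s := by
    intro x hx
    have := hx.2 1 h1
    rwa [mul_one] at this
  have hfd2 : FiniteDimensional (Zc z₀) N := Submodule.finiteDimensional_of_le hN
  have hfg : N.FG := (Submodule.fg_iff_finiteDimensional N).2 hfd2
  obtain ⟨t, ht⟩ := hfg
  refine ⟨t, fun x hx => ?_, fun x hx => ?_⟩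
  · have : x ∈ N := by rw [← ht]; exact Submodule.subset_span hx
    exact this
  · have hx' : x ∈ Submodule.span (Zc z₀) (t : Set D) := by rw [ht]; exact hx
    rw [Submodule.mem_span_finset] at hx'
    obtain ⟨f, _, hf⟩ := hx'
    refine ⟨fun y => (f y : D), fun y _ => ⟨?_, fun z hz => ?_⟩, hf.symm⟩
    · exact ⟨fun z' hz' => Zc_comm (f y).2 hz', fun w hw => Sp_mul (f y).2 hw⟩
    · exact (hz.1 (f y) (f y).2).symm

end Pool.Agent.Helper78.DR
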