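import Pool.Agent.Helper78.DR.Aut

/-!
# The three cases over the center
-/

set_option autoImplicit false

namespace Pool.Agent.Helper78.DR

universe u

variable {D : Type u} [DivisionRing D]

theorem center_of_not (x : D) (h : ¬ NonC x) : ∃ r : Subring.center D, x = r • (1 : D) := by
  have h' : ∀ z, z * x = x * z := by
    intro z
    by_contra hne
    exact h ⟨z, hne⟩
  refine ⟨⟨x, Subring.mem_center_iff.2 h'⟩, ?_⟩
  change x = x * 1
  rw [mul_one]

/-- degree at most four -/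
theorem small_case (b : D) (hb : NonC b) (c : Fin 5 → Subring.center D) (hc : ∃ i, c i ≠ 0)
    (h : ∑ i, c i • b ^ (i : ℕ) = 0) : ∃ K : Subfield D, CentFin K := by
  classical
  by_cases hmin2 : ∀ (x : D) (α β : Subring.center D), NonC x → x * x ≠ α • x + β • 1
  swap
  · push Not at hmin2
    obtain ⟨x, α, β, hx, h2⟩ := hmin2
    exact deg_two α β x hx h2
  by_cases hmin3 : ∀ (x : D) (α β γ : Subring.center D), NonC x →
      x * x * x ≠ α • (x * x) + β • x + γ • 1
  swap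
  · push Not at hmin3
    obtain ⟨x, α, β, γ, hx, h3⟩ := hmin3
    exact deg_three hmin2 x hx α β γ h3
  rw [Fin.sum_univ_five] at h
  have e0 : (((0 : Fin 5) : ℕ)) = 0 := rfl
  have e1 : (((1 : Fin 5) : ℕ)) = 1 := rfl
  have e2 : (((2 : Fin 5) : ℕ)) = 2 := rfl
  have e3 : (((3 : Fin 5) : ℕ)) = 3 := rfl
  have e4 : (((4 : Fin 5) : ℕ)) = 4 := rfl
  rw [e0, e1, e2, e3, e4, pow_zero, pow_one] at h
  have p2 : b ^ 2 = b * b := pow_two b
  have p3 : b ^ 3 = b * b * b := by rw [pow_succ, p2]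
  have p4 : b ^ 4 = b * b * b * b := by rw [pow_succ, p3]
  rw [p2, p3, p4] at h
  -- a monic relation
  have hinv : ∀ (r : Subring.center D) (x y : D), r ≠ 0 → r • x = y → x = r⁻¹ • y := by
    intro r x y hr hxy
    rw [← hxy, smul_smul, inv_mul_cancel₀ hr, one_smul]
  by_cases h4 : c 4 = 0
  swap
  · have h5 : c 4 • (b * b * b * b) =
        -(c 0 • 1 + c 1 • b + c 2 • (b * b) + c 3 • (b * b * b)) :=
      eq_neg_of_add_eq_zero_right h
    have h6 := hinv _ _ _ h4 h5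
    refine deg_four (F := Subring.center D) center_of_not hmin2 hmin3 b hb
      (-((c 4)⁻¹ * c 3)) (-((c 4)⁻¹ * c 2)) (-((c 4)⁻¹ * c 1)) (-((c 4)⁻¹ * c 0)) ?_
    rw [h6]
    module
  rw [h4, zero_smul, add_zero] at h
  by_cases h3 : c 3 = 0
  swap
  · exfalso
    have h5 : c 3 • (b * b * b) = -(c 0 • 1 + c 1 • b + c 2 • (b * b)) :=
      eq_neg_of_add_eq_zero_right h
    have h6 := hinv _ _ _ h3 h5
    refine hmin3 b (-((c 3)⁻¹ * c 2)) (-((c 3)⁻¹ * c 1)) (-((c 3)⁻¹ * c 0)) hb ?_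
    rw [h6]
    module
  rw [h3, zero_smul, add_zero] at h
  by_cases h2 : c 2 = 0
  swap
  · exfalso
    have h5 : c 2 • (b * b) = -(c 0 • 1 + c 1 • b) := eq_neg_of_add_eq_zero_right h
    have h6 := hinv _ _ _ h2 h5
    refine hmin2 b (-((c 2)⁻¹ * c 1)) (-((c 2)⁻¹ * c 0)) hb ?_
    rw [h6]
    module
  rw [h2, zero_smul, add_zero] at h
  by_cases h1 : c 1 = 0
  swap
  · exfalso
    have h5 : c 1 • b = -(c 0 • 1) := eq_neg_of_add_eq_zero_right h
    have h6 := hinv _ _ _ h1 h5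
    obtain ⟨z, hz⟩ := hb
    apply hz
    have h7 : b = (-((c 1)⁻¹ * c 0)) • (1 : D) := by
      rw [h6]
      module
    rw [h7, mul_smul_comm, smul_mul_assoc, mul_one, one_mul]
  rw [h1, zero_smul, add_zero] at h
  exfalso
  have h0 : c 0 = 0 := by
    have h5 : ((c 0 : Subring.center D) : D) * 1 = 0 := h
    rw [mul_one] at h5
    exact Subtype.ext h5
  obtain ⟨i, hi⟩ := hc
  fin_cases i
  · exact hi h0
  · exact hi h1
  · exact hi h2
  · exact hi h3
  · exact hi h4

end Pool.Agent.Helper78.DR
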