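import Pool.Agent.Helper78.DR.Base

/-!
# Elements of degree two
-/

set_option autoImplicit false

namespace Pool.Agent.Helper78.DR

universe u v

variable {D : Type u} [DivisionRing D]

/-- non-central elements -/
def NonC (a : D) : Prop := ∃ z, z * a ≠ a * z

theorem commZ {z₀ g z : D} (hz : z ∈ Zc z₀) (hg : g * z₀ = z₀ * g) : g * z = z * g := hz g hg

/-- two quadratic elements -/
theorem quad (z₀ a v : D) (ca : a * z₀ = z₀ * a) (cv : v * z₀ = z₀ * v) (hne : a * v ≠ v * a)
    {α β γ δ p q r t : D} (hα : α ∈ Zc z₀) (hβ : β ∈ Zc z₀) (hγ : γ ∈ Zc z₀) (hδ : δ ∈ Zc z₀)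
    (hp : p ∈ Zc z₀) (hq : q ∈ Zc z₀) (hr : r ∈ Zc z₀) (ht : t ∈ Zc z₀)
    (h1 : a * a = α * a + β) (h2 : v * v = γ * v + δ)
    (h3 : v * a = p + q * a + r * v + t * (a * v)) : ∃ K : Subfield D, CentFin K := by
  have e0 : (1 : D) ∈ Sp z₀ ![1, a, v, a * v] := Sp_mem ![1, a, v, a * v] 0
  have ea : a ∈ Sp z₀ ![1, a, v, a * v] := Sp_mem ![1, a, v, a * v] 1
  have ev : v ∈ Sp z₀ ![1, a, v, a * v] := Sp_mem ![1, a, v, a * v] 2
  have eav : a * v ∈ Sp z₀ ![1, a, v, a * v] := Sp_mem ![1, a, v, a * v] 3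
  have ez : ∀ z ∈ Zc z₀, z ∈ Sp z₀ ![1, a, v, a * v] := fun z hz => by
    have := Sp_mul hz e0
    rwa [mul_one] at this
  have haa : a * a ∈ Sp z₀ ![1, a, v, a * v] := by
    rw [h1]
    exact add_mem (Sp_mul hα ea) (ez β hβ)
  have hvv : v * v ∈ Sp z₀ ![1, a, v, a * v] := by
    rw [h2]
    exact add_mem (Sp_mul hγ ev) (ez δ hδ)
  have havv : a * (v * v) ∈ Sp z₀ ![1, a, v, a * v] := by
    have e : a * (v * v) = γ * (a * v) + δ * a := by
      rw [h2, mul_add, ← mul_assoc, commZ hγ ca, commZ hδ ca, mul_assoc]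
    rw [e]
    exact add_mem (Sp_mul hγ eav) (Sp_mul hδ ea)
  refine centFin_of_span z₀ ![1, a, v, a * v] e0 a v ca cv ?_ ?_ hne
  · intro i
    fin_cases i
    · change a * 1 ∈ _
      rw [mul_one]; exact ea
    · exact haa
    · exact eav
    · change a * (a * v) ∈ _
      have e : a * (a * v) = α * (a * v) + β * v := by
        rw [← mul_assoc, h1, add_mul, mul_assoc]
      rw [e]
      exact add_mem (Sp_mul hα eav) (Sp_mul hβ ev)
  · intro i
    fin_cases i
    · change v * 1 ∈ _
      rw [mul_one]; exact ev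
    · change v * a ∈ _
      rw [h3]
      exact add_mem (add_mem (add_mem (ez p hp) (Sp_mul hq ea)) (Sp_mul hr ev)) (Sp_mul ht eav)
    · exact hvv
    · change v * (a * v) ∈ _
      have e : v * (a * v) = p * v + q * (a * v) + r * (v * v) + t * (a * (v * v)) := by
        rw [← mul_assoc, h3]
        simp only [add_mul, mul_assoc]
      rw [e]
      exact add_mem (add_mem (add_mem (Sp_mul hp ev) (Sp_mul hq eav)) (Sp_mul hr hvv))
        (Sp_mul ht havv)

variable {F : Type v} [Field F] [Algebra F D]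

theorem alg_mem (z₀ : D) (r : F) : algebraMap F D r ∈ Zc z₀ :=
  fun x _ => (Algebra.commutes r x).symm

theorem Sp_smul {z₀ x : D} {ι : Type*} {s : ι → D} (r : F) (hx : x ∈ Sp z₀ s) :
    r • x ∈ Sp z₀ s := by
  rw [Algebra.smul_def]
  exact Sp_mul (alg_mem z₀ r) hx

/-- the commutator of a quadratic element -/
theorem comm_two (α β : F) (a z : D) (h : a * a = α • a + β • 1) :
    (z * a - a * z) * a = α • (z * a - a * z) - a * (z * a - a * z) := by
  have e : (z * a - a * z) * a + a * (z * a - a * z) = z * (a * a) - (a * a) * z := by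
    simp only [sub_mul, mul_sub, mul_assoc]
    abel
  rw [h] at e
  have e2 : z * (α • a + β • (1 : D)) - (α • a + β • (1 : D)) * z = α • (z * a - a * z) := by
    simp only [mul_add, add_mul, mul_smul_comm, smul_mul_assoc, mul_one, one_mul, smul_sub]
    abel
  rw [e2] at e
  rw [← e]
  abel

/-- **Degree two.** -/
theorem deg_two (α β : F) (a : D) (hn : NonC a) (h : a * a = α • a + β • 1) :
    ∃ K : Subfield D, CentFin K := by
  obtain ⟨z, hz⟩ := hn
  have h1 : a * a = algebraMap F D α * a + algebraMap F D β := by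
    rw [h, Algebra.smul_def, Algebra.algebraMap_eq_smul_one β]
  have hy0 : z * a - a * z ≠ 0 := sub_ne_zero.2 hz
  have hya := comm_two α β a z h
  obtain ⟨y, hy⟩ : ∃ y, y = z * a - a * z := ⟨_, rfl⟩
  rw [← hy] at hy0 hya
  have hyy : y * y * a = a * (y * y) := by
    have e : y * y * a = y * (α • y - a * y) := by rw [mul_assoc, hya]
    rw [e, mul_sub, mul_smul_comm, ← mul_assoc y a y, hya, sub_mul, smul_mul_assoc]
    rw [sub_sub_cancel, mul_assoc]
  by_cases hc : a * y = y * a
  · -- `y` commutes with `a`: characteristic two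
    have hyinv : a * y⁻¹ = y⁻¹ * a := (Commute.inv_right₀ (hc : Commute a y)).eq
    obtain ⟨w, hw⟩ : ∃ w, w = z * y⁻¹ := ⟨_, rfl⟩
    have hwa : w * a = a * w + 1 := by
      have e : w * a - a * w = (z * a - a * z) * y⁻¹ := by
        rw [hw, mul_assoc z, ← hyinv]
        simp only [sub_mul, mul_assoc]
      rw [← hy, mul_inv_cancel₀ hy0] at e
      rw [← e]; abel
    have h2a : (2 : D) * a = algebraMap F D α := by
      have e : a * y = α • y - a * y := by rw [← hya, hc]
      have e2 : (2 : D) * a * y = algebraMap F D α * y := by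
        rw [← Algebra.smul_def, two_mul, add_mul]
        nth_rw 1 [e]
        abel
      exact mul_right_cancel₀ hy0 e2
    have h20 : (2 : D) = 0 := by
      have e1 : w * (2 * a) = (2 * a) * w := by rw [h2a, Algebra.commutes]
      have e2 : w * (2 * a) = (2 * a) * w + 2 := by
        have : w * (2 * a) = 2 * (w * a) := by
          rw [two_mul, two_mul, mul_add]
        rw [this, hwa, mul_add, mul_one, mul_assoc]
      rw [e1] at e2
      exact left_eq_add.1 e2
    have hww : a * (w * w) = w * w * a := by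
      have : w * w * a = a * (w * w) + 2 * w := by
        rw [mul_assoc, hwa, mul_add, mul_one, ← mul_assoc, hwa, add_mul, one_mul, mul_assoc,
          two_mul, add_assoc]
      rw [this, h20, zero_mul, add_zero]
    refine quad (w * w) a w hww (mul_assoc w w w).symm ?_ (alg_mem _ α) (alg_mem _ β)
      (zero_mem _) (self_mem_Zc _) (one_mem _) (zero_mem _) (zero_mem _) (one_mem _) h1
      (by rw [zero_mul, zero_add]) ?_
    · intro h3
      rw [hwa] at h3
      exact one_ne_zero (left_eq_add.1 h3)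
    · rw [hwa, zero_mul, zero_mul, one_mul]
      abel
  · refine quad (y * y) a y hyy.symm (mul_assoc y y y).symm hc (alg_mem _ α) (alg_mem _ β)
      (zero_mem _) (self_mem_Zc _) (zero_mem _) (zero_mem _) (alg_mem _ α)
      (neg_mem (one_mem _)) h1 (by rw [zero_mul, zero_add]) ?_
    rw [hya, Algebra.smul_def, zero_mul]
    simp only [neg_mul, one_mul]
    abel

end Pool.Agent.Helper78.DR
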