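import Pool.Agent.Helper78.DR.Deg2

/-!
# Elements of degree three
-/

set_option autoImplicit false

namespace Pool.Agent.Helper78.DR

universe u v

variable {D : Type u} [DivisionRing D]

/-- monomials `a^i b^j d^k` -/
def mon (a b d : D) (J K : ℕ) (i : Fin 3 × Fin J × Fin K) : D :=
  a ^ (i.1 : ℕ) * b ^ (i.2.1 : ℕ) * d ^ (i.2.2 : ℕ)

theorem mon_mem (z₀ a b d : D) {J K : ℕ} (i j k : ℕ) (hi : i < 3) (hj : j < J) (hk : k < K) :
    a ^ i * b ^ j * d ^ k ∈ Sp z₀ (mon a b d J K) :=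
  Sp_mem (mon a b d J K) (⟨i, hi⟩, ⟨j, hj⟩, ⟨k, hk⟩)

variable {F : Type v} [Field F] [Algebra F D]

/-- left multiplication by `a` when `a` is cubic -/
theorem mon_left {z₀ a b d : D} {J K : ℕ} (ca : a * z₀ = z₀ * a) (α β γ : F)
    (h : a * a * a = α • (a * a) + β • a + γ • 1) {x : D} (hx : x ∈ Sp z₀ (mon a b d J K)) :
    a * x ∈ Sp z₀ (mon a b d J K) := by
  refine Sp_left ca ?_ hx
  rintro ⟨i, j, k⟩
  have hj := j.2
  have hk := k.2
  change a * (a ^ (i : ℕ) * b ^ (j : ℕ) * d ^ (k : ℕ)) ∈ _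
  fin_cases i
  · have := mon_mem z₀ a b d (J := J) (K := K) 1 j k (by norm_num) hj hk
    simpa [mul_assoc] using this
  · have := mon_mem z₀ a b d (J := J) (K := K) 2 j k (by norm_num) hj hk
    rw [pow_two] at this
    simpa [mul_assoc] using this
  · have m0 := mon_mem z₀ a b d (J := J) (K := K) 0 j k (by norm_num) hj hk
    have m1 := mon_mem z₀ a b d (J := J) (K := K) 1 j k (by norm_num) hj hk
    have m2 := mon_mem z₀ a b d (J := J) (K := K) 2 j k (by norm_num) hj hk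
    have e : a * (a ^ 2 * b ^ (j : ℕ) * d ^ (k : ℕ)) =
        α • (a ^ 2 * b ^ (j : ℕ) * d ^ (k : ℕ)) + β • (a ^ 1 * b ^ (j : ℕ) * d ^ (k : ℕ)) +
          γ • (a ^ 0 * b ^ (j : ℕ) * d ^ (k : ℕ)) := by
      have e1 : a * (a ^ 2 * b ^ (j : ℕ) * d ^ (k : ℕ)) =
          (a * a * a) * (b ^ (j : ℕ) * d ^ (k : ℕ)) := by
        rw [pow_two]; simp only [mul_assoc]
      rw [e1, h, pow_two, pow_one, pow_zero]
      simp only [add_mul, smul_mul_assoc, one_mul, mul_assoc]
    change a * (a ^ 2 * b ^ (j : ℕ) * d ^ (k : ℕ)) ∈ _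
    rw [e]
    exact add_mem (add_mem (Sp_smul α m2) (Sp_smul β m1)) (Sp_smul γ m0)

/-- right multiplication by `d` when `d ^ K` is in `Zc` and commutes with `a`, `b` -/
theorem mon_right {z₀ a b d : D} {J K : ℕ} (ca : a * z₀ = z₀ * a) (cb : b * z₀ = z₀ * b)
    (hK : d ^ K = z₀) (hK0 : 0 < K) {x : D} (hx : x ∈ Sp z₀ (mon a b d J K)) :
    x * d ∈ Sp z₀ (mon a b d J K) := by
  refine Sp_right ?_ hx
  rintro ⟨i, j, k⟩
  have hi := i.2
  have hj := j.2
  have hk := k.2
  change a ^ (i : ℕ) * b ^ (j : ℕ) * d ^ (k : ℕ) * d ∈ _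
  rw [mul_assoc, ← pow_succ]
  by_cases h : (k : ℕ) + 1 < K
  · exact mon_mem z₀ a b d _ _ _ hi hj h
  · have hk2 : (k : ℕ) + 1 = K := by omega
    rw [hk2, hK]
    have e : a ^ (i : ℕ) * b ^ (j : ℕ) * z₀ = z₀ * (a ^ (i : ℕ) * b ^ (j : ℕ) * d ^ 0) := by
      have h1 : Commute (a ^ (i : ℕ) * b ^ (j : ℕ)) z₀ :=
        ((show Commute a z₀ from ca).pow_left _).mul_left
          ((show Commute b z₀ from cb).pow_left _)
      rw [pow_zero, mul_one]
      exact h1.eq
    rw [e]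
    exact Sp_mul (self_mem_Zc z₀) (mon_mem z₀ a b d _ _ _ hi hj hK0)

/-- the cubic relation and its derivative: separability -/
theorem der_zero (hmin : ∀ (x : D) (α β : F), NonC x → x * x ≠ α • x + β • 1)
    (a : D) (hn : NonC a) (α β : F)
    (h : (3 : D) * (a * a) = (2 * α) • a + β • 1) : (3 : D) = 0 ∧ (α : F) = 0 ∧ (β : F) = 0 := by
  have h3F : (3 : D) = algebraMap F D 3 := by rw [map_ofNat]
  have h3 : (3 : F) = 0 := by
    by_contra h3
    refine hmin a ((3 : F)⁻¹ * (2 * α)) ((3 : F)⁻¹ * β) hn ?_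
    have e : (3 : F) • (a * a) = (2 * α) • a + β • 1 := by
      rw [Algebra.smul_def, ← h3F]; exact h
    have e2 : (3 : F)⁻¹ • (3 : F) • (a * a) = (3 : F)⁻¹ • ((2 * α) • a + β • 1) := by rw [e]
    rw [smul_smul, inv_mul_cancel₀ h3, one_smul, smul_add, smul_smul, smul_smul] at e2
    exact e2
  have h3D : (3 : D) = 0 := by rw [h3F, h3, map_zero]
  rw [h3D, zero_mul] at h
  have h2 : (2 : F) ≠ 0 := by
    intro h2
    have : (1 : F) = 3 - 2 := by norm_num
    rw [h3, h2, sub_zero] at this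
    exact one_ne_zero this
  by_cases hα : α = 0
  · refine ⟨h3D, hα, ?_⟩
    rw [hα, mul_zero, zero_smul, zero_add] at h
    have h4 : algebraMap F D β = 0 := by rw [Algebra.algebraMap_eq_smul_one]; exact h.symm
    exact (map_eq_zero _).1 h4
  · exfalso
    have h5 : a = (-((2 * α)⁻¹ * β)) • (1 : D) := by
      have h6 : (2 * α) • a = -(β • (1 : D)) := eq_neg_of_add_eq_zero_left h.symm
      have h7 : (2 * α)⁻¹ • (2 * α) • a = (2 * α)⁻¹ • -(β • (1 : D)) := by rw [h6]
      rw [smul_smul, inv_mul_cancel₀ (mul_ne_zero h2 hα), one_smul] at h7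
      rw [h7, neg_smul, smul_neg, smul_smul]
    obtain ⟨z, hz⟩ := hn
    apply hz
    rw [h5, mul_smul_comm, smul_mul_assoc, mul_one, one_mul]

/-- the inseparable case -/
theorem deg_three_insep (γ : F) (a w : D) (h3 : (3 : D) = 0) (h : a * a * a = γ • 1)
    (hw : w * a = a * w + 1) : ∃ K : Subfield D, CentFin K := by
  have hw2 : w * w * a = a * (w * w) + 2 * w := by
    rw [mul_assoc, hw, mul_add, mul_one, ← mul_assoc, hw, add_mul, one_mul, mul_assoc,
      two_mul, add_assoc]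
  have hw3 : a * (w ^ 3) = w ^ 3 * a := by
    have e : w ^ 3 * a = a * w ^ 3 + 3 * (w * w) := by
      have e1 : w ^ 3 = w * (w * w) := by rw [pow_succ', pow_two]
      rw [e1, mul_assoc, hw2, mul_add, ← mul_assoc, hw, add_mul, one_mul, mul_assoc]
      have e2 : w * (2 * w) = 2 * (w * w) := by
        rw [two_mul, two_mul, mul_add]
      rw [e2, add_assoc]
      congr 1
      rw [two_mul]
      have e3 : (3 : D) * (w * w) = w * w + (w * w + w * w) := by
        have : (3 : D) = 1 + (1 + 1) := by norm_num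
        rw [this, add_mul, add_mul, one_mul]
      rw [e3]
    rw [e, h3, zero_mul, add_zero]
  have h' : a * a * a = (0 : F) • (a * a) + (0 : F) • a + γ • 1 := by
    rw [h, zero_smul, zero_smul, zero_add, zero_add]
  have cw : w * w ^ 3 = w ^ 3 * w := (Commute.self_pow w 3).eq
  refine centFin_of_span (w ^ 3) (mon a 1 w 1 3) ?_ a w hw3 cw ?_ ?_ ?_
  · have := mon_mem (w ^ 3) a 1 w (J := 1) (K := 3) 0 0 0 (by norm_num) (by norm_num)
      (by norm_num)
    simpa using this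
  · intro i
    exact mon_left hw3 0 0 γ h' (Sp_mem _ i)
  · rintro ⟨i, j, k⟩
    have hk := k.2
    -- `w a^i = a^i w + i a^(i-1)`
    have key : ∀ x ∈ Sp (w ^ 3) (mon a 1 w 1 3), x * w ∈ Sp (w ^ 3) (mon a 1 w 1 3) := fun x hx =>
      mon_right hw3 (by rw [one_mul, mul_one]) rfl (by norm_num) hx
    have hpow : ∀ n : ℕ, n < 3 → ∀ x ∈ Sp (w ^ 3) (mon a 1 w 1 3),
        x * w ^ n ∈ Sp (w ^ 3) (mon a 1 w 1 3) := by
      intro n _ x hx
      induction n with
      | zero => simpa using hx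
      | succ m ih =>
        rw [pow_succ w m, ← mul_assoc]
        exact key _ (ih (by omega))
    have hm : ∀ i k : ℕ, i < 3 → k < 3 → a ^ i * w ^ k ∈ Sp (w ^ 3) (mon a 1 w 1 3) := by
      intro i k hi hk
      have := mon_mem (w ^ 3) a 1 w (J := 1) (K := 3) i 0 k hi (by norm_num) hk
      simpa using this
    change w * (a ^ (i : ℕ) * 1 ^ (j : ℕ) * w ^ (k : ℕ)) ∈ _
    rw [one_pow, mul_one, ← mul_assoc]
    refine hpow _ hk _ ?_
    fin_cases i
    · simpa using hm 0 1 (by norm_num) (by norm_num)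
    · change w * a ^ 1 ∈ _
      rw [pow_one, hw]
      refine add_mem ?_ ?_
      · simpa using hm 1 1 (by norm_num) (by norm_num)
      · simpa using hm 0 0 (by norm_num) (by norm_num)
    · change w * a ^ 2 ∈ _
      have e : w * a ^ 2 = a ^ 2 * w + (a + a) := by
        rw [pow_two, ← mul_assoc, hw, add_mul, one_mul, mul_assoc, hw, mul_add, mul_one,
          mul_assoc, add_assoc]
      rw [e]
      refine add_mem ?_ (add_mem ?_ ?_)
      · simpa using hm 2 1 (by norm_num) (by norm_num)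
      · simpa using hm 1 0 (by norm_num) (by norm_num)
      · simpa using hm 1 0 (by norm_num) (by norm_num)
  · intro h4
    rw [hw] at h4
    exact one_ne_zero (left_eq_add.1 h4)

end Pool.Agent.Helper78.DR
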