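import Pool.Agent.Helper78.DR.Deg3

/-!
# Elements of degree three: the separable cases
-/

set_option autoImplicit false

namespace Pool.Agent.Helper78.DR

universe u v

variable {D : Type u} [DivisionRing D] {F : Type v} [Field F] [Algebra F D]

/-- the non-commuting case: Wedderburn's argument -/
theorem deg_three_wed (a b : D) (α β γ : F) (ha : a * a * a = α • (a * a) + β • a + γ • 1)
    (hb : b * b * b = α • (b * b) + β • b + γ • 1)
    (hbb : b * b = α • a + α • b + β • 1 - a * b - a * a) (hne : a * b ≠ b * a) :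
    ∃ K : Subfield D, CentFin K := by
  obtain ⟨c, hc⟩ : ∃ c, c = α • (1 : D) - a - b := ⟨_, rfl⟩
  obtain ⟨d, hd⟩ : ∃ d, d = a * b - b * a := ⟨_, rfl⟩
  -- the three products
  have p1 : c * b * a = γ • 1 := by
    have e : c * b * a = α • (b * a) - a * (b * a) - (b * b) * a := by
      rw [hc]; simp only [sub_mul, smul_mul_assoc, one_mul, mul_assoc]
    rw [e, hbb]
    simp only [sub_mul, add_mul, smul_mul_assoc, one_mul]
    rw [ha]
    simp only [mul_assoc]
    module
  have p2 : a * c * b = γ • 1 := by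
    have e : a * c * b = α • (a * b) - (a * a) * b - a * (b * b) := by
      rw [hc]; simp only [mul_sub, sub_mul, smul_mul_assoc, mul_smul_comm, mul_one, mul_assoc]
    rw [e, hbb]
    simp only [mul_sub, mul_add, mul_smul_comm, mul_one]
    rw [← mul_assoc a a a, ha]
    simp only [mul_assoc]
    module
  have p3 : b * a * c = γ • 1 := by
    have e : b * a * c = α • (b * a) - b * (a * a) - b * (a * b) := by
      rw [hc]; simp only [mul_sub, mul_smul_comm, mul_one, mul_assoc]
    have hab : a * b = α • a + α • b + β • 1 - b * b - a * a := by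
      rw [hbb]; abel
    rw [e, hab]
    simp only [mul_sub, mul_add, mul_smul_comm, mul_one]
    rw [← mul_assoc b b b, hb]
    module
  have d1 : d = b * c - c * b := by
    rw [hd, hc]
    simp only [mul_sub, sub_mul, mul_smul_comm, smul_mul_assoc, mul_one, one_mul]
    abel
  have d2 : d = c * a - a * c := by
    rw [hd, hc]
    simp only [mul_sub, sub_mul, mul_smul_comm, smul_mul_assoc, mul_one, one_mul]
    abel
  have q1 : d * a = b * d := by
    have e1 : d * a = b * c * a - c * b * a := by rw [d1, sub_mul]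
    have e2 : b * d = b * c * a - b * a * c := by
      rw [d2, mul_sub, ← mul_assoc, ← mul_assoc]
    rw [e1, e2, p1, p3]
  have q2 : d * b = c * d := by
    have e1 : d * b = c * a * b - a * c * b := by rw [d2, sub_mul]
    have e2 : c * d = c * a * b - c * b * a := by
      rw [hd, mul_sub, ← mul_assoc, ← mul_assoc]
    rw [e1, e2, p1, p2]
  have q3 : d * c = a * d := by
    have e1 : d * c = a * b * c - b * a * c := by rw [hd, sub_mul]
    have e2 : a * d = a * b * c - a * c * b := by
      rw [d1, mul_sub, ← mul_assoc, ← mul_assoc]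
    rw [e1, e2, p2, p3]
  have hd3 : d ^ 3 = d * (d * d) := by rw [pow_succ', pow_two]
  have ca : a * d ^ 3 = d ^ 3 * a := by
    rw [hd3]
    have : d * (d * d) * a = a * (d * (d * d)) := by
      rw [mul_assoc, mul_assoc d d a, q1, ← mul_assoc d b d, q2, ← mul_assoc d (c * d) ,
        ← mul_assoc d c d, q3]
      simp only [mul_assoc]
    exact this.symm
  have cb : b * d ^ 3 = d ^ 3 * b := by
    rw [hd3]
    have : d * (d * d) * b = b * (d * (d * d)) := by
      rw [mul_assoc, mul_assoc d d b, q2, ← mul_assoc d c d, q3, ← mul_assoc d (a * d),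
        ← mul_assoc d a d, q1]
      simp only [mul_assoc]
    exact this.symm
  -- membership facts
  have m : ∀ i j k : ℕ, i < 3 → j < 2 → k < 3 →
      a ^ i * b ^ j * d ^ k ∈ Sp (d ^ 3) (mon a b d 2 3) :=
    fun i j k hi hj hk => mon_mem _ a b d i j k hi hj hk
  have LA : ∀ x ∈ Sp (d ^ 3) (mon a b d 2 3), a * x ∈ Sp (d ^ 3) (mon a b d 2 3) :=
    fun x hx => mon_left ca α β γ ha hx
  have RD : ∀ x ∈ Sp (d ^ 3) (mon a b d 2 3), x * d ∈ Sp (d ^ 3) (mon a b d 2 3) :=
    fun x hx => mon_right ca cb rfl (by norm_num) hx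
  have RDn : ∀ n : ℕ, ∀ x ∈ Sp (d ^ 3) (mon a b d 2 3),
      x * d ^ n ∈ Sp (d ^ 3) (mon a b d 2 3) := by
    intro n
    induction n with
    | zero => intro x hx; simpa using hx
    | succ n ih =>
      intro x hx
      rw [pow_succ d n, ← mul_assoc]
      exact RD _ (ih x hx)
  have w1 : (1 : D) ∈ Sp (d ^ 3) (mon a b d 2 3) := by
    simpa using m 0 0 0 (by norm_num) (by norm_num) (by norm_num)
  have wa : a ∈ Sp (d ^ 3) (mon a b d 2 3) := by
    simpa using m 1 0 0 (by norm_num) (by norm_num) (by norm_num)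
  have wb : b ∈ Sp (d ^ 3) (mon a b d 2 3) := by
    simpa using m 0 1 0 (by norm_num) (by norm_num) (by norm_num)
  have wd : d ∈ Sp (d ^ 3) (mon a b d 2 3) := by
    simpa using m 0 0 1 (by norm_num) (by norm_num) (by norm_num)
  have wbb : b * b ∈ Sp (d ^ 3) (mon a b d 2 3) := by
    rw [hbb]
    exact sub_mem (sub_mem (add_mem (add_mem (Sp_smul α wa) (Sp_smul α wb)) (Sp_smul β w1))
      (LA b wb)) (LA a wa)
  have hba : b * a = a * b - d := by rw [hd]; abel
  have wba : b * a ∈ Sp (d ^ 3) (mon a b d 2 3) := by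
    rw [hba]
    exact sub_mem (LA b wb) wd
  have wcd : c * d ∈ Sp (d ^ 3) (mon a b d 2 3) := by
    have e : c * d = α • d - a * d - b * d := by
      rw [hc]; simp only [sub_mul, smul_mul_assoc, one_mul]
    rw [e]
    exact sub_mem (sub_mem (Sp_smul α wd) (LA d wd)) (RD b wb)
  have wbab : b * a * b ∈ Sp (d ^ 3) (mon a b d 2 3) := by
    have e : b * a * b = a * (b * b) - c * d := by
      rw [hba, sub_mul, q2, mul_assoc]
    rw [e]
    exact sub_mem (LA _ wbb) wcd
  have wbaa : b * (a * a) ∈ Sp (d ^ 3) (mon a b d 2 3) := by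
    have e : b * (a * a) = a * (b * a) - b * d := by
      rw [← mul_assoc, hba, sub_mul, q1, mul_assoc, hba]
    rw [e]
    exact sub_mem (LA _ wba) (RD b wb)
  have wbaab : b * (a * a) * b ∈ Sp (d ^ 3) (mon a b d 2 3) := by
    have e : b * (a * a) * b = a * (b * a * b) - b * c * d := by
      have : b * (a * a) = a * (b * a) - b * d := by
        rw [← mul_assoc, hba, sub_mul, q1, mul_assoc, hba]
      rw [this, sub_mul, mul_assoc b d b, q2]
      simp only [mul_assoc]
    have ebc : b * c = α • b - b * a - b * b := by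
      rw [hc]; simp only [mul_sub, mul_smul_comm, mul_one]
    rw [e, ebc]
    exact sub_mem (LA _ wbab) (RD _ (sub_mem (sub_mem (Sp_smul α wb) wba) wbb))
  refine centFin_of_span (d ^ 3) (mon a b d 2 3) w1 a b ca cb (fun i => LA _ (Sp_mem _ i)) ?_ hne
  rintro ⟨i, j, k⟩
  change b * (a ^ (i : ℕ) * b ^ (j : ℕ) * d ^ (k : ℕ)) ∈ _
  rw [← mul_assoc]
  refine RDn _ _ ?_
  fin_cases i <;> fin_cases j
  · simpa using wb
  · simpa using wbb
  · simpa using wba
  · simpa [mul_assoc] using wbab
  · simpa [pow_two] using wbaa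
  · simpa [pow_two, mul_assoc] using wbaab

/-- the commuting case -/
theorem deg_three_comm (a b y : D) (hy : y ≠ 0) (α β γ : F)
    (ha : a * a * a = α • (a * a) + β • a + γ • 1)
    (hb : b * b * b = α • (b * b) + β • b + γ • 1)
    (hbb : b * b = α • a + α • b + β • 1 - a * b - a * a) (hab : a * b = b * a) (hne : b ≠ a)
    (hya : y * a = b * y) (hbZ : b ∈ Zc a) : ∃ K : Subfield D, CentFin K := by
  obtain ⟨t, ht⟩ : ∃ t, t = y * b * y⁻¹ := ⟨_, rfl⟩
  have hyb : y * b = t * y := by rw [ht, mul_assoc, inv_mul_cancel₀ hy, mul_one]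
  have hbe : b = y * a * y⁻¹ := by rw [hya, mul_assoc, mul_inv_cancel₀ hy, mul_one]
  -- `t` commutes with everything that commutes with `b`
  have htZ : ∀ x, x * b = b * x → x * t = t * x := by
    intro x hx
    have h1 : (y⁻¹ * x * y) * a = a * (y⁻¹ * x * y) := by
      rw [mul_assoc, hya, ← mul_assoc, mul_assoc (y⁻¹) x b, hx]
      have e : a * (y⁻¹ * x * y) = y⁻¹ * (y * a * y⁻¹) * (x * y) := by
        simp only [mul_assoc]
        rw [inv_mul_cancel_left₀ hy]
      rw [e, ← hbe]
      simp only [mul_assoc]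
    have h2 := hbZ _ h1
    have h3 : y * (y⁻¹ * x * y * b) * y⁻¹ = y * (b * (y⁻¹ * x * y)) * y⁻¹ := by rw [h2]
    have e1 : y * (y⁻¹ * x * y * b) * y⁻¹ = x * t := by
      rw [ht]
      simp only [mul_assoc]
      rw [mul_inv_cancel_left₀ hy]
    have e2 : y * (b * (y⁻¹ * x * y)) * y⁻¹ = t * x := by
      rw [ht]
      simp only [mul_assoc]
      rw [mul_inv_cancel₀ hy, mul_one]
    rw [e1, e2] at h3
    exact h3
  have hta : a * t = t * a := htZ a hab
  have htb : b * t = t * b := htZ b rfl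
  have htc : t * t * t = α • (t * t) + β • t + γ • 1 := by
    have e : ∀ x : D, y * (x * b) * y⁻¹ = (y * x * y⁻¹) * t := by
      intro x
      rw [ht]
      simp only [mul_assoc]
      rw [inv_mul_cancel_left₀ hy]
    have e1 : t = y * b * y⁻¹ := ht
    have e2 : t * t = y * (b * b) * y⁻¹ := by rw [e, ← e1]
    have e3 : t * t * t = y * (b * b * b) * y⁻¹ := by rw [e, ← e2]
    rw [e3, hb]
    simp only [mul_add, add_mul, mul_smul_comm, smul_mul_assoc, mul_one]
    rw [← e2, ← e1, mul_inv_cancel₀ hy]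
  have htb0 : t ≠ b := by
    intro h
    apply hne
    have : y * b = y * a := by rw [hyb, hya, h]
    exact mul_left_cancel₀ hy this
  -- `t = a` or `t = c`
  obtain ⟨c, hc⟩ : ∃ c, c = α • (1 : D) - a - b := ⟨_, rfl⟩
  have hcase : t = a ∨ t = c := by
    by_contra hcon
    rw [not_or] at hcon
    obtain ⟨hta0, htc0⟩ := hcon
    have e1 : (t - a) * (t * t + a * t - α • t + a * a - α • a - β • 1) = 0 := by
      have e : (t - a) * (t * t + a * t - α • t + a * a - α • a - β • 1) =
          (t * t * t - α • (t * t) - β • t) - (a * a * a - α • (a * a) - β • a) := by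
        simp only [sub_mul, mul_add, mul_sub, mul_smul_comm, mul_one]
        rw [show t * (a * t) = a * (t * t) by rw [← mul_assoc, ← hta, mul_assoc],
          show t * (a * a) = a * (a * t) by rw [← mul_assoc, ← hta, mul_assoc, ← hta],
          show t * a = a * t from hta.symm]
        simp only [mul_assoc]
        module
      rw [e, htc, ha]
      module
    have e2 := (mul_eq_zero.1 e1).resolve_left (sub_ne_zero.2 hta0)
    have e3 : (t - b) * (t - c) = 0 := by
      have e : (t - b) * (t - c) = t * t + a * t - α • t + a * a - α • a - β • 1 := by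
        rw [hc]
        have hbb' : b * b = α • a + α • b + β • 1 - a * b - a * a := hbb
        simp only [sub_mul, mul_sub, mul_smul_comm, mul_one]
        rw [hbb', show b * a = a * b from hab.symm, show t * a = a * t from hta.symm,
          show t * b = b * t from htb.symm]
        module
      rw [e, e2]
    rcases mul_eq_zero.1 e3 with h | h
    · exact htb0 (sub_eq_zero.1 h)
    · exact htc0 (sub_eq_zero.1 h)
  -- `y ^ 6` commutes with `a` and `b`
  have hc6 : a * y ^ 6 = y ^ 6 * a ∧ b * y ^ 6 = y ^ 6 * b := by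
    rcases hcase with h | h
    · have h2 : Commute (y ^ 2) a := by
        change y ^ 2 * a = a * y ^ 2
        rw [pow_two, mul_assoc, hya, ← mul_assoc, hyb, h, mul_assoc]
      have h3 : Commute (y ^ 2) b := by
        change y ^ 2 * b = b * y ^ 2
        rw [pow_two, mul_assoc, hyb, h, ← mul_assoc, hya, mul_assoc]
      have e : y ^ 6 = (y ^ 2) ^ 3 := by rw [← pow_mul]
      rw [e]
      exact ⟨(h2.pow_left 3).symm.eq, (h3.pow_left 3).symm.eq⟩
    · have hyc : y * c = a * y := by
        rw [hc, mul_sub, mul_sub, mul_smul_comm, mul_one, hya, hyb, h, hc]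
        simp only [sub_mul, smul_mul_assoc, one_mul]
        abel
      have h2 : Commute (y ^ 3) a := by
        change y ^ 3 * a = a * y ^ 3
        have e3 : y ^ 3 = y * (y * y) := by rw [pow_succ', pow_two]
        rw [e3, mul_assoc, mul_assoc y y a, hya, ← mul_assoc y b y, hyb, h,
          ← mul_assoc y (c * y), ← mul_assoc y c y, hyc]
        simp only [mul_assoc]
      have h3 : Commute (y ^ 3) b := by
        change y ^ 3 * b = b * y ^ 3
        have e3 : y ^ 3 = y * (y * y) := by rw [pow_succ', pow_two]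
        rw [e3, mul_assoc, mul_assoc y y b, hyb, h, ← mul_assoc y c y, hyc,
          ← mul_assoc y (a * y), ← mul_assoc y a y, hya]
        simp only [mul_assoc]
      have e : y ^ 6 = (y ^ 3) ^ 2 := by rw [← pow_mul]
      rw [e]
      exact ⟨(h2.pow_left 2).symm.eq, (h3.pow_left 2).symm.eq⟩
  obtain ⟨ca, cb⟩ := hc6
  have cy : y * y ^ 6 = y ^ 6 * y := (Commute.self_pow y 6).eq
  have m : ∀ i j k : ℕ, i < 3 → j < 2 → k < 6 →
      a ^ i * b ^ j * y ^ k ∈ Sp (y ^ 6) (mon a b y 2 6) :=
    fun i j k hi hj hk => mon_mem _ a b y i j k hi hj hk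
  have LA : ∀ x ∈ Sp (y ^ 6) (mon a b y 2 6), a * x ∈ Sp (y ^ 6) (mon a b y 2 6) :=
    fun x hx => mon_left ca α β γ ha hx
  have RD : ∀ x ∈ Sp (y ^ 6) (mon a b y 2 6), x * y ∈ Sp (y ^ 6) (mon a b y 2 6) :=
    fun x hx => mon_right ca cb rfl (by norm_num) hx
  have RDn : ∀ n : ℕ, ∀ x ∈ Sp (y ^ 6) (mon a b y 2 6),
      x * y ^ n ∈ Sp (y ^ 6) (mon a b y 2 6) := by
    intro n
    induction n with
    | zero => intro x hx; simpa using hx
    | succ n ih =>
      intro x hx
      rw [pow_succ y n, ← mul_assoc]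
      exact RD _ (ih x hx)
  have w1 : (1 : D) ∈ Sp (y ^ 6) (mon a b y 2 6) := by
    simpa using m 0 0 0 (by norm_num) (by norm_num) (by norm_num)
  have LB : ∀ x ∈ Sp (y ^ 6) (mon a b y 2 6), b * x ∈ Sp (y ^ 6) (mon a b y 2 6) := by
    intro x hx
    refine Sp_left cb ?_ hx
    rintro ⟨i, j, k⟩
    have hi := i.2
    have hk := k.2
    change b * (a ^ (i : ℕ) * b ^ (j : ℕ) * y ^ (k : ℕ)) ∈ _
    have hba : b * a ^ (i : ℕ) = a ^ (i : ℕ) * b :=
      ((show Commute b a from hab.symm).pow_right _).eq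
    rw [← mul_assoc, ← mul_assoc, hba]
    fin_cases j
    · have := m i 1 k hi (by norm_num) hk
      simpa using this
    · have mx := m i 0 k hi (by norm_num) hk
      have mbx := m i 1 k hi (by norm_num) hk
      rw [pow_zero, mul_one] at mx
      rw [pow_one] at mbx
      change a ^ (i : ℕ) * b * b ^ 1 * y ^ (k : ℕ) ∈ _
      have e : a ^ (i : ℕ) * b * b ^ 1 * y ^ (k : ℕ) =
          α • (a * (a ^ (i : ℕ) * y ^ (k : ℕ))) + α • (a ^ (i : ℕ) * b * y ^ (k : ℕ)) +
            β • (a ^ (i : ℕ) * y ^ (k : ℕ)) - a * (a ^ (i : ℕ) * b * y ^ (k : ℕ)) -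
            a * (a * (a ^ (i : ℕ) * y ^ (k : ℕ))) := by
        rw [pow_one, mul_assoc (a ^ (i : ℕ)) b b, hbb]
        have ea : a ^ (i : ℕ) * a = a * a ^ (i : ℕ) := (Commute.pow_self a _).eq
        simp only [mul_sub, mul_add, sub_mul, add_mul, mul_smul_comm, smul_mul_assoc, mul_one,
          ← mul_assoc, ea]
        rw [mul_assoc a (a ^ (i : ℕ)) a, ea]
        simp only [mul_assoc]
      rw [e]
      exact sub_mem (sub_mem (add_mem (add_mem (Sp_smul α (LA _ mx)) (Sp_smul α mbx))
        (Sp_smul β mx)) (LA _ mbx)) (LA _ (LA _ mx))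
  have LC : ∀ x ∈ Sp (y ^ 6) (mon a b y 2 6), c * x ∈ Sp (y ^ 6) (mon a b y 2 6) := by
    intro x hx
    have e : c * x = α • x - a * x - b * x := by
      rw [hc]; simp only [sub_mul, smul_mul_assoc, one_mul]
    rw [e]
    exact sub_mem (sub_mem (Sp_smul α hx) (LA x hx)) (LB x hx)
  have LT : ∀ x ∈ Sp (y ^ 6) (mon a b y 2 6), t * x ∈ Sp (y ^ 6) (mon a b y 2 6) := by
    rcases hcase with h | h
    · rw [h]; exact LA
    · rw [h]; exact LC
  refine centFin_of_span (y ^ 6) (mon a b y 2 6) w1 a y ca cy (fun i => LA _ (Sp_mem _ i)) ?_ ?_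
  · rintro ⟨i, j, k⟩
    change y * (a ^ (i : ℕ) * b ^ (j : ℕ) * y ^ (k : ℕ)) ∈ _
    have e : y * (a ^ (i : ℕ) * b ^ (j : ℕ) * y ^ (k : ℕ)) =
        b ^ (i : ℕ) * (t ^ (j : ℕ) * (1 * y ^ ((k : ℕ) + 1))) := by
      have e1 : y * a ^ (i : ℕ) = b ^ (i : ℕ) * y :=
        (SemiconjBy.pow_right (show SemiconjBy y a b from hya) _).eq
      have e2 : y * b ^ (j : ℕ) = t ^ (j : ℕ) * y :=
        (SemiconjBy.pow_right (show SemiconjBy y b t from hyb) _).eq
      rw [← mul_assoc, ← mul_assoc, e1, mul_assoc (b ^ (i : ℕ)) y, e2, one_mul, pow_succ']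
      simp only [mul_assoc]
    rw [e]
    have hyk := RDn ((k : ℕ) + 1) 1 w1
    have hpow : ∀ (g : D), (∀ x ∈ Sp (y ^ 6) (mon a b y 2 6), g * x ∈ Sp (y ^ 6) (mon a b y 2 6)) →
        ∀ (n : ℕ), ∀ x ∈ Sp (y ^ 6) (mon a b y 2 6), g ^ n * x ∈ Sp (y ^ 6) (mon a b y 2 6) := by
      intro g hg n
      induction n with
      | zero => intro x hx; simpa using hx
      | succ n ih =>
        intro x hx
        rw [pow_succ' g n, mul_assoc]
        exact hg _ (ih x hx)
    exact hpow b LB _ _ (hpow t LT _ _ hyk)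
  · intro h
    apply hne
    have : b * y = a * y := by rw [← hya, h]
    exact mul_right_cancel₀ hy this

end Pool.Agent.Helper78.DR
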