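import Pool.Agent.Helper78.DR.Deg3b

/-!
# Elements of degree three and four
-/

set_option autoImplicit false

namespace Pool.Agent.Helper78.DR

universe u v

variable {D : Type u} [DivisionRing D]

/-- the centralizer of an element -/
def Cent (a : D) : Subfield D where
  carrier := {x | x * a = a * x}
  mul_mem' := by
    intro x y hx hy
    change x * y * a = a * (x * y)
    have hx' : x * a = a * x := hx
    have hy' : y * a = a * y := hy
    rw [mul_assoc, hy', ← mul_assoc, hx', mul_assoc]
  one_mem' := by change 1 * a = a * 1; simp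
  add_mem' := by
    intro x y hx hy
    change (x + y) * a = a * (x + y)
    have hx' : x * a = a * x := hx
    have hy' : y * a = a * y := hy
    rw [add_mul, mul_add, hx', hy']
  zero_mem' := by change 0 * a = a * 0; simp
  neg_mem' := by
    intro x hx
    change -x * a = a * -x
    have hx' : x * a = a * x := hx
    rw [neg_mul, mul_neg, hx']
  inv_mem' := by
    intro x hx
    exact (Commute.inv_left₀ (show Commute x a from hx)).eq

theorem mem_Cent {a x : D} : x ∈ Cent a ↔ x * a = a * x := Iff.rfl

/-- a centrally finite subdivision ring of a subdivision ring -/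
theorem centFin_map (C : Subfield D) (h : ∃ K : Subfield C, CentFin K) :
    ∃ K : Subfield D, CentFin K := by
  classical
  obtain ⟨K, ⟨a, ha, b, hb, hne⟩, s, hs, hK⟩ := h
  refine ⟨K.map C.subtype, ⟨a, ⟨a, ha, rfl⟩, b, ⟨b, hb, rfl⟩, ?_⟩, s.map ⟨_, C.subtype.injective⟩,
    ?_, ?_⟩
  · intro h
    apply hne
    exact Subtype.ext h
  · intro t ht
    rw [Finset.mem_map] at ht
    obtain ⟨t', ht', rfl⟩ := ht
    exact ⟨t', hs t' ht', rfl⟩
  · rintro _ ⟨x, hx, rfl⟩
    obtain ⟨c, hc, hsum⟩ := hK x hx
    refine ⟨fun t => if h : t ∈ C then (c ⟨t, h⟩ : D) else 0, ?_, ?_⟩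
    · intro t ht
      rw [Finset.mem_map] at ht
      obtain ⟨t', ht', rfl⟩ := ht
      have hmem : (C.subtype t' : D) ∈ C := t'.2
      have e : (if h : (C.subtype t' : D) ∈ C then (c ⟨C.subtype t', h⟩ : D) else 0) =
          (c t' : D) := by rw [dif_pos hmem]; rfl
      refine ⟨?_, ?_⟩
      · change (if h : (C.subtype t' : D) ∈ C then (c ⟨C.subtype t', h⟩ : D) else 0) ∈ _
        rw [e]
        exact ⟨c t', (hc t' ht').1, rfl⟩
      · rintro _ ⟨y, hy, rfl⟩
        change (if h : (C.subtype t' : D) ∈ C then (c ⟨C.subtype t', h⟩ : D) else 0) * _ =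
          _ * (if h : (C.subtype t' : D) ∈ C then (c ⟨C.subtype t', h⟩ : D) else 0)
        rw [e]
        exact congrArg Subtype.val ((hc t' ht').2 y hy)
    · rw [Finset.sum_map]
      have h1 := congrArg C.subtype hsum
      rw [map_sum] at h1
      refine h1.trans (Finset.sum_congr rfl fun t' _ => ?_)
      have hmem : (C.subtype t' : D) ∈ C := t'.2
      change C.subtype (c t' * t') =
        (if h : (C.subtype t' : D) ∈ C then (c ⟨C.subtype t', h⟩ : D) else 0) * (C.subtype t' : D)
      rw [dif_pos hmem, map_mul]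
      rfl

/-- degree two over the center, with the center as the base field -/
theorem deg_two_center (E : Type u) [DivisionRing E] (b A B : E) (hb : NonC b)
    (hA : ∀ x : E, x * A = A * x) (hB : ∀ x : E, x * B = B * x) (h : b * b = A * b + B) :
    ∃ K : Subfield E, CentFin K := by
  refine deg_two (F := Subring.center E) ⟨A, Subring.mem_center_iff.2 hA⟩
    ⟨B, Subring.mem_center_iff.2 hB⟩ b hb ?_
  rw [Algebra.smul_def, Algebra.smul_def, mul_one]
  exact h

variable {F : Type v} [Field F] [Algebra F D]

/-- conjugates satisfy the same equation -/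
theorem conj_cubic (a y : D) (hy : y ≠ 0) (α β γ : F)
    (ha : a * a * a = α • (a * a) + β • a + γ • 1) :
    (y * a * y⁻¹) * (y * a * y⁻¹) * (y * a * y⁻¹) =
      α • ((y * a * y⁻¹) * (y * a * y⁻¹)) + β • (y * a * y⁻¹) + γ • 1 := by
  have e2 : (y * a * y⁻¹) * (y * a * y⁻¹) = y * (a * a) * y⁻¹ := by
    simp only [mul_assoc]
    rw [inv_mul_cancel_left₀ hy]
  have e3 : (y * a * y⁻¹) * (y * a * y⁻¹) * (y * a * y⁻¹) = y * (a * a * a) * y⁻¹ := by
    rw [e2]
    simp only [mul_assoc]
    rw [inv_mul_cancel_left₀ hy]
  rw [e3, e2, ha]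
  simp only [mul_add, add_mul, mul_smul_comm, smul_mul_assoc, mul_one]
  rw [mul_inv_cancel₀ hy]

/-- **Degree three.** -/
theorem deg_three (hmin : ∀ (x : D) (α β : F), NonC x → x * x ≠ α • x + β • 1)
    (a : D) (hn : NonC a) (α β γ : F) (ha : a * a * a = α • (a * a) + β • a + γ • 1) :
    ∃ K : Subfield D, CentFin K := by
  obtain ⟨z, hz⟩ := id hn
  have hy0 : z * a - a * z ≠ 0 := sub_ne_zero.2 hz
  -- the quadratic relation for the commutator
  have hrel : (z * a - a * z) * (a * a) + (a - α • 1) * ((z * a - a * z) * a) +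
      (a * a - α • a - β • 1) * (z * a - a * z) = 0 := by
    have e : (z * a - a * z) * (a * a) + (a - α • 1) * ((z * a - a * z) * a) +
        (a * a - α • a - β • 1) * (z * a - a * z) =
        (z * (a * a * a) - α • (z * (a * a)) - β • (z * a)) -
          ((a * a * a) * z - α • ((a * a) * z) - β • (a * z)) := by
      simp only [sub_mul, mul_sub, smul_mul_assoc, one_mul, mul_assoc]
      module
    rw [e, ha]
    simp only [mul_add, add_mul, mul_smul_comm, smul_mul_assoc, mul_one, one_mul]
    module
  obtain ⟨y, hy⟩ : ∃ y, y = z * a - a * z := ⟨_, rfl⟩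
  rw [← hy] at hy0 hrel
  obtain ⟨b, hb⟩ : ∃ b, b = y * a * y⁻¹ := ⟨_, rfl⟩
  have hya : y * a = b * y := by rw [hb, mul_assoc, inv_mul_cancel₀ hy0, mul_one]
  have hbcub : b * b * b = α • (b * b) + β • b + γ • 1 := by
    rw [hb]; exact conj_cubic a y hy0 α β γ ha
  have hbb : b * b = α • a + α • b + β • 1 - a * b - a * a := by
    have e1 : y * (a * a) = b * b * y := by rw [← mul_assoc, hya, mul_assoc, hya, ← mul_assoc]
    rw [e1, hya] at hrel
    have e2 : (b * b + (a - α • 1) * b + (a * a - α • a - β • 1)) * y = 0 := by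
      rw [add_mul, add_mul, mul_assoc (a - α • (1 : D)) b y]
      exact hrel
    have e3 := (mul_eq_zero.1 e2).resolve_right hy0
    have e4 : b * b = -((a - α • (1 : D)) * b) - (a * a - α • a - β • 1) := by
      rw [eq_sub_iff_add_eq, eq_neg_iff_add_eq_zero]
      rw [← e3]; abel
    rw [e4]
    simp only [sub_mul, smul_mul_assoc, one_mul]
    abel
  by_cases hba : b = a
  · -- inseparable
    have hcy : a * y = y * a := by rw [hya, hba]
    have hyinv : a * y⁻¹ = y⁻¹ * a := (Commute.inv_right₀ (show Commute a y from hcy)).eq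
    obtain ⟨w, hw⟩ : ∃ w, w = z * y⁻¹ := ⟨_, rfl⟩
    have hwa : w * a = a * w + 1 := by
      have e : w * a - a * w = (z * a - a * z) * y⁻¹ := by
        rw [hw, mul_assoc z, ← hyinv]
        simp only [sub_mul, mul_assoc]
      rw [← hy, mul_inv_cancel₀ hy0] at e
      rw [← e]; abel
    have h2 : w * (a * a) = (a * a) * w + (a + a) := by
      rw [← mul_assoc, hwa, add_mul, one_mul, mul_assoc, hwa, mul_add, mul_one, ← mul_assoc,
        add_assoc]
    have h3 : w * (a * a * a) = (a * a * a) * w + (a * a + a * a + a * a) := by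
      rw [← mul_assoc, h2, add_mul, mul_assoc (a * a) w a, hwa, mul_add, mul_one, add_mul]
      simp only [mul_assoc]
      abel
    have hder : (3 : D) * (a * a) = (2 * α) • a + β • 1 := by
      rw [ha] at h3
      simp only [mul_add, add_mul, mul_smul_comm, smul_mul_assoc, mul_one, one_mul] at h3
      rw [h2, hwa] at h3
      have e3 : (3 : D) * (a * a) = a * a + a * a + a * a := by
        have : (3 : D) = 1 + 1 + 1 := by norm_num
        rw [this, add_mul, add_mul, one_mul]
      rw [e3]
      have h4 : a * a + a * a + a * a = α • (a * a * w + (a + a)) + β • (a * w + 1) + γ • w -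
          (α • (a * a * w) + β • (a * w) + γ • w) := by
        rw [h3]; abel
      rw [h4]
      module
    obtain ⟨h30, hα0, hβ0⟩ := der_zero hmin a hn α β hder
    refine deg_three_insep γ a w h30 ?_ hwa
    rw [ha, hα0, hβ0, zero_smul, zero_smul, zero_add, zero_add]
  · by_cases hab : a * b = b * a
    · by_cases hbZ : b ∈ Zc a
      · exact deg_three_comm a b y hy0 α β γ ha hbcub hbb hab hba hya hbZ
      · -- `b` is a noncentral quadratic element of the centralizer of `a`
        rw [mem_Zc] at hbZ
        push Not at hbZ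
        obtain ⟨x, hx1, hx2⟩ := hbZ
        apply centFin_map (Cent a)
        have hcen : ∀ r : F, ∀ u ∈ Cent a, r • u ∈ Cent a := by
          intro r u hu
          change (r • u) * a = a * (r • u)
          rw [smul_mul_assoc, mul_smul_comm, show u * a = a * u from hu]
        have ha' : a ∈ Cent a := rfl
        have h1' : (1 : D) ∈ Cent a := one_mem _
        refine deg_two_center (Cent a) ⟨b, hab.symm⟩
          ⟨α • 1 - a, sub_mem (hcen α 1 h1') ha'⟩
          ⟨α • a + β • 1 - a * a,
            sub_mem (add_mem (hcen α a ha') (hcen β 1 h1')) (mul_mem ha' ha')⟩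
          ⟨⟨x, hx1⟩, fun h => hx2 (congrArg Subtype.val h)⟩ ?_ ?_ ?_
        · rintro ⟨u, hu⟩
          apply Subtype.ext
          change u * (α • 1 - a) = (α • 1 - a) * u
          have hu' : u * a = a * u := hu
          rw [mul_sub, sub_mul, hu', mul_smul_comm, smul_mul_assoc, mul_one, one_mul]
        · rintro ⟨u, hu⟩
          apply Subtype.ext
          change u * (α • a + β • 1 - a * a) = (α • a + β • 1 - a * a) * u
          have hu' : u * a = a * u := hu
          have hu2 : u * (a * a) = a * a * u := by rw [← mul_assoc, hu', mul_assoc, hu', mul_assoc]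
          simp only [mul_sub, sub_mul, mul_add, add_mul, mul_smul_comm, smul_mul_assoc, mul_one,
            one_mul]
          rw [hu', hu2]
        · apply Subtype.ext
          change b * b = (α • 1 - a) * b + (α • a + β • 1 - a * a)
          rw [hbb]
          simp only [sub_mul, smul_mul_assoc, one_mul]
          abel
    · exact deg_three_wed a b α β γ ha hbcub hbb hab

end Pool.Agent.Helper78.DR
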