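import Pool.Agent.Helper78.DR.Deg4

/-!
# Elements of degree four
-/

set_option autoImplicit false

namespace Pool.Agent.Helper78.DR

universe u v

variable {D : Type u} [DivisionRing D] {F : Type v} [Field F] [Algebra F D]

/-- the cubic resolvent -/
theorem resolvent {R : Type u} [CommRing R] (w s c α β γ δ : R) (hss : s * s = α * s + w)
    (hcc : c * c = (w - β) * c + δ) (hsc : s * c = -(c * s) + α * c + (w - β) * s - γ) :
    w * w * w = (2 * β) * (w * w) + (-(β * β + 4 * δ + α * γ)) * w +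
      (γ * γ + α * β * γ - δ * (α * α)) := by
  linear_combination (-((w - β) ^ 2 + 4 * δ)) * hss + (-(2 * s - α) ^ 2) * hcc +
    (((2 * s - α) * c + ((w - β) * s - γ)) - (w - β) * (2 * s - α)) * hsc

theorem resolvent_D (w s c : D) (hcs : c * s = s * c) (α β γ δ : F) (hw : w = s * s - α • s)
    (hcc : c * c = (w - β • 1) * c + δ • 1)
    (hsc : s * c = -(c * s) + α • c + (w - β • 1) * s - γ • 1) :
    w * w * w = (2 * β) • (w * w) + (-(β * β + 4 * δ + α * γ)) • w +
      (γ * γ + α * β * γ - δ * (α * α)) • 1 := by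
  have hcomm : ∀ x ∈ ({s, c} : Set D), ∀ y ∈ ({s, c} : Set D), x * y = y * x := by
    rintro x (rfl | rfl) y (rfl | rfl)
    · rfl
    · exact hcs.symm
    · exact hcs
    · rfl
  letI : CommRing (Algebra.adjoin F ({s, c} : Set D)) := Algebra.adjoinCommRingOfComm F hcomm
  have hsA : s ∈ Algebra.adjoin F ({s, c} : Set D) := Algebra.subset_adjoin (Or.inl rfl)
  have hcA : c ∈ Algebra.adjoin F ({s, c} : Set D) := Algebra.subset_adjoin (Or.inr rfl)
  have hwA : w ∈ Algebra.adjoin F ({s, c} : Set D) := by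
    rw [hw]
    exact sub_mem (mul_mem hsA hsA) (Subalgebra.smul_mem _ hsA _)
  have key := resolvent (R := Algebra.adjoin F ({s, c} : Set D)) ⟨w, hwA⟩ ⟨s, hsA⟩ ⟨c, hcA⟩
    ⟨α • 1, Subalgebra.smul_mem _ (one_mem _) _⟩ ⟨β • 1, Subalgebra.smul_mem _ (one_mem _) _⟩
    ⟨γ • 1, Subalgebra.smul_mem _ (one_mem _) _⟩ ⟨δ • 1, Subalgebra.smul_mem _ (one_mem _) _⟩
    (Subtype.ext (by
      change s * s = (α • (1 : D)) * s + w
      rw [hw, smul_mul_assoc, one_mul]; abel))
    (Subtype.ext (by
      change c * c = (w - β • 1) * c + δ • 1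
      exact hcc))
    (Subtype.ext (by
      change s * c = -(c * s) + (α • (1 : D)) * c + (w - β • 1) * s - γ • 1
      rw [smul_mul_assoc, one_mul]; exact hsc))
  have key2 := congrArg Subtype.val key
  change w * w * w = (2 * (β • (1 : D))) * (w * w) + (-((β • (1 : D)) * (β • (1 : D)) +
    4 * (δ • (1 : D)) + (α • (1 : D)) * (γ • (1 : D)))) * w +
    ((γ • (1 : D)) * (γ • (1 : D)) + (α • (1 : D)) * (β • (1 : D)) * (γ • (1 : D)) -
      (δ • (1 : D)) * ((α • (1 : D)) * (α • (1 : D)))) at key2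
  rw [key2]
  simp only [Algebra.smul_def, map_mul, map_add, map_sub, map_neg, map_ofNat, mul_one]

/-- **Degree four.** -/
theorem deg_four (hF : ∀ x : D, ¬ NonC x → ∃ r : F, x = r • 1)
    (hmin2 : ∀ (x : D) (α β : F), NonC x → x * x ≠ α • x + β • 1)
    (hmin3 : ∀ (x : D) (α β γ : F), NonC x → x * x * x ≠ α • (x * x) + β • x + γ • 1)
    (a : D) (hn : NonC a) (α β γ δ : F)
    (ha : a * a * a * a = α • (a * a * a) + β • (a * a) + γ • a + δ • 1) :
    ∃ K : Subfield D, CentFin K := by
  obtain ⟨z, hz⟩ := id hn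
  have hy0 : z * a - a * z ≠ 0 := sub_ne_zero.2 hz
  have ha0 : a ≠ 0 := by
    rintro rfl
    apply hz
    simp
  -- the cubic relation for the commutator
  have hrel : (z * a - a * z) * (a * a * a) + (a - α • 1) * ((z * a - a * z) * (a * a)) +
      (a * a - α • a - β • 1) * ((z * a - a * z) * a) +
      (a * a * a - α • (a * a) - β • a - γ • 1) * (z * a - a * z) = 0 := by
    have e : (z * a - a * z) * (a * a * a) + (a - α • 1) * ((z * a - a * z) * (a * a)) +
      (a * a - α • a - β • 1) * ((z * a - a * z) * a) +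
      (a * a * a - α • (a * a) - β • a - γ • 1) * (z * a - a * z) =
        (z * (a * a * a * a) - α • (z * (a * a * a)) - β • (z * (a * a)) - γ • (z * a)) -
          ((a * a * a * a) * z - α • ((a * a * a) * z) - β • ((a * a) * z) - γ • (a * z)) := by
      simp only [sub_mul, mul_sub, smul_mul_assoc, one_mul, mul_assoc]
      module
    rw [e, ha]
    simp only [mul_add, add_mul, mul_smul_comm, smul_mul_assoc, mul_one, one_mul]
    module
  obtain ⟨y, hy⟩ : ∃ y, y = z * a - a * z := ⟨_, rfl⟩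
  rw [← hy] at hy0 hrel
  obtain ⟨b, hb⟩ : ∃ b, b = y * a * y⁻¹ := ⟨_, rfl⟩
  have hya : y * a = b * y := by rw [hb, mul_assoc, inv_mul_cancel₀ hy0, mul_one]
  have hb0 : b ≠ 0 := by
    rw [hb]
    exact mul_ne_zero (mul_ne_zero hy0 ha0) (inv_ne_zero hy0)
  have hB : (a * a + a * b + b * b - α • (a + b) - β • 1) * b =
      -(a * a * a - α • (a * a) - β • a - γ • 1) := by
    have e1 : y * (a * a) = b * b * y := by rw [← mul_assoc, hya, mul_assoc, hya, ← mul_assoc]
    have e1' : y * (a * a * a) = b * b * b * y := by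
      rw [← mul_assoc, e1, mul_assoc (b * b) y a, hya, ← mul_assoc]
    rw [e1', e1, hya] at hrel
    have e2 : (b * b * b + (a - α • 1) * (b * b) + (a * a - α • a - β • 1) * b +
        (a * a * a - α • (a * a) - β • a - γ • 1)) * y = 0 := by
      rw [← hrel]
      simp only [add_mul, mul_assoc]
    have e3 := (mul_eq_zero.1 e2).resolve_right hy0
    rw [eq_neg_iff_add_eq_zero, ← e3]
    simp only [add_mul, sub_mul, smul_mul_assoc, one_mul, mul_assoc, smul_add]
    abel
  obtain ⟨s, hs⟩ : ∃ s, s = a + b := ⟨_, rfl⟩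
  obtain ⟨c, hc⟩ : ∃ c, c = b * a := ⟨_, rfl⟩
  obtain ⟨w, hw⟩ : ∃ w, w = s * s - α • s := ⟨_, rfl⟩
  have hc0 : c ≠ 0 := by rw [hc]; exact mul_ne_zero hb0 ha0
  have haa : a * a = s * a - c := by rw [hs, hc, add_mul, add_sub_cancel_right]
  have hk : w - β • 1 - c = a * a + a * b + b * b - α • (a + b) - β • 1 := by
    rw [hw, hs, hc]
    simp only [add_mul, mul_add]
    abel
  have hkb : (w - β • 1 - c) * b = -(a * a * a - α • (a * a) - β • a - γ • 1) := by
    rw [hk]; exact hB
  have hkc : (w - β • 1 - c) * c = -(δ • 1) := by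
    rw [hc, ← mul_assoc, ← hc, hkb]
    have e : -(a * a * a - α • (a * a) - β • a - γ • 1) * a =
        -(a * a * a * a - α • (a * a * a) - β • (a * a) - γ • a) := by
      simp only [neg_mul, sub_mul, smul_mul_assoc, one_mul]
    rw [e, ha]
    congr 1
    abel
  have hck : c * (w - β • 1 - c) = -(δ • 1) := by
    have e : c * (w - β • 1 - c) * c = -(δ • 1) * c := by
      rw [mul_assoc, hkc]
      simp only [mul_neg, neg_mul, mul_smul_comm, smul_mul_assoc, mul_one, one_mul]
    exact mul_right_cancel₀ hc0 e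
  have hcw : c * w = w * c := by
    have e : c * (w - β • 1 - c) = (w - β • 1 - c) * c := by rw [hck, hkc]
    simp only [mul_sub, sub_mul, mul_smul_comm, smul_mul_assoc, mul_one, one_mul] at e
    exact sub_left_injective (sub_left_injective e)
  have hsw : s * w = w * s := by
    rw [hw]
    simp only [mul_sub, sub_mul, mul_smul_comm, smul_mul_assoc, mul_assoc]
  have hss : s * s = α • s + w := by rw [hw]; abel
  have hcc : c * c = (w - β • 1) * c + δ • 1 := by
    have e : (w - β • 1) * c - c * c = -(δ • 1) := by rw [← sub_mul]; exact hkc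
    have e2 : c * c = (w - β • 1) * c - ((w - β • 1) * c - c * c) := by abel
    rw [e2, e, sub_neg_eq_add]
  have hks : (w - β • 1 - c) * s = s * c - α • c + γ • 1 := by
    have e1 : a * a * a = w * a + α • (s * a) - s * c - c * a := by
      have : a * a * a = s * (a * a) - c * a := by
        nth_rw 1 [haa]
        rw [sub_mul, mul_assoc]
      rw [this, haa, mul_sub, ← mul_assoc, hss, add_mul, smul_mul_assoc]
      abel
    have e2 : (w - β • 1 - c) * s = (w - β • 1 - c) * a + (w - β • 1 - c) * b := by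
      rw [← mul_add, ← hs]
    rw [e2, hkb, e1]
    nth_rw 1 [haa]
    simp only [sub_mul, smul_mul_assoc, one_mul, smul_sub]
    abel
  have hsc : s * c = -(c * s) + α • c + (w - β • 1) * s - γ • 1 := by
    have e : (w - β • 1) * s - c * s = s * c - α • c + γ • 1 := by rw [← sub_mul]; exact hks
    have e2 : s * c = ((w - β • 1) * s - c * s) + α • c - γ • 1 := by rw [e]; abel
    rw [e2]; abel
  have hβZ : (β • (1 : D)) = algebraMap F D β := (Algebra.algebraMap_eq_smul_one β).symm
  have hγZ : (γ • (1 : D)) = algebraMap F D γ := (Algebra.algebraMap_eq_smul_one γ).symm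
  have hδZ : (δ • (1 : D)) = algebraMap F D δ := (Algebra.algebraMap_eq_smul_one δ).symm
  by_cases hcs : c * s = s * c
  · exfalso
    -- everything commutes: the cubic resolvent
    have hw3 : w * w * w = (2 * β) • (w * w) + (-(β * β + 4 * δ + α * γ)) • w +
        (γ * γ + α * β * γ - δ * (α * α)) • 1 := by
      exact resolvent_D w s c hcs α β γ δ hw hcc hsc
    have hwc : ¬ NonC w := fun h => hmin3 w _ _ _ h hw3
    obtain ⟨ω, hω⟩ := hF w hwc
    have hsc' : ¬ NonC s := fun h => hmin2 s α ω h (by rw [hss, hω])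
    obtain ⟨σ, hσ⟩ := hF s hsc'
    have hcc' : ¬ NonC c := fun h => hmin2 c (ω - β) δ h (by
      rw [hcc, hω]
      simp only [sub_mul, smul_mul_assoc, one_mul, sub_smul])
    obtain ⟨κ, hκ⟩ := hF c hcc'
    refine hmin2 a σ (-κ) hn ?_
    rw [haa, hσ, hκ]
    simp only [smul_mul_assoc, one_mul, neg_smul]
    abel
  · refine quad w c s hcw hsw hcs (α := w - β • 1) (β := δ • 1) (γ := algebraMap F D α) (δ := w)
      (p := -(γ • 1)) (q := algebraMap F D α) (r := w - β • 1) (t := -1)
      ?_ ?_ (alg_mem _ _) (self_mem_Zc _) ?_ (alg_mem _ _) ?_ (neg_mem (one_mem _)) hcc ?_ ?_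
    · rw [hβZ]; exact sub_mem (self_mem_Zc _) (alg_mem _ _)
    · rw [hδZ]; exact alg_mem _ _
    · rw [hγZ]; exact neg_mem (alg_mem _ _)
    · rw [hβZ]; exact sub_mem (self_mem_Zc _) (alg_mem _ _)
    · rw [hss, Algebra.smul_def]
    · rw [hsc, Algebra.smul_def α c]
      simp only [neg_mul, one_mul]
      abel

end Pool.Agent.Helper78.DR
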