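import Pool.Agent.Helper78.DR.Main

/-!
# The bracket construction: descent of a cyclic algebra along a quadratic extension
-/

set_option autoImplicit false

namespace Pool.Agent.Helper78.DR

universe u v w

section Bracket

variable {E : Type u} [DivisionRing E] {R : Type v} [Ring R] {N : Type w} [Field N]

/-- the bracket `n c^j + τ(n) c^(-j)` -/
def br (Φ : N →+* R) (τN : N →+* N) (c : Rˣ) (n : N) (j : ℤ) : R :=
  Φ n * ((c ^ j : Rˣ) : R) + Φ (τN n) * ((c ^ (-j) : Rˣ) : R)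

theorem br_add (Φ : N →+* R) (τN : N →+* N) (c : Rˣ) (n n' : N) (j : ℤ) :
    br Φ τN c (n + n') j = br Φ τN c n j + br Φ τN c n' j := by
  unfold br
  rw [map_add, map_add, map_add, add_mul, add_mul]
  abel

theorem br_zero (Φ : N →+* R) (τN : N →+* N) (c : Rˣ) (j : ℤ) : br Φ τN c 0 j = 0 := by
  unfold br
  rw [map_zero, map_zero, map_zero, zero_mul, zero_mul, add_zero]

theorem br_mul_left (Φ : N →+* R) (τN : N →+* N) (c : Rˣ) (β n : N) (hβ : τN β = β) (j : ℤ) :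
    Φ β * br Φ τN c n j = br Φ τN c (β * n) j := by
  unfold br
  rw [map_mul, map_mul τN, hβ, map_mul, mul_add, mul_assoc, mul_assoc]

/-- powers of `c` act through powers of `ρ` -/
theorem zpow_conj (Φ : N →+* R) (ρ : N ≃+* N) (c : Rˣ)
    (hc : ∀ n, (c : R) * Φ n = Φ (ρ n) * c) (j : ℤ) (n : N) :
    ((c ^ j : Rˣ) : R) * Φ n = Φ ((ρ ^ j : N ≃+* N) n) * ((c ^ j : Rˣ) : R) := by
  have hinv : ∀ n, ((c⁻¹ : Rˣ) : R) * Φ n = Φ ((ρ⁻¹ : N ≃+* N) n) * ((c⁻¹ : Rˣ) : R) := by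
    intro n
    have h1 := hc ((ρ⁻¹ : N ≃+* N) n)
    have h2 : ρ ((ρ⁻¹ : N ≃+* N) n) = n := by
      rw [← RingAut.mul_apply, mul_inv_cancel, RingAut.one_apply]
    rw [h2] at h1
    calc ((c⁻¹ : Rˣ) : R) * Φ n = ((c⁻¹ : Rˣ) : R) * (Φ n * c) * ((c⁻¹ : Rˣ) : R) := by
          rw [mul_assoc, mul_assoc, Units.mul_inv, mul_one]
      _ = ((c⁻¹ : Rˣ) : R) * ((c : R) * Φ ((ρ⁻¹ : N ≃+* N) n)) * ((c⁻¹ : Rˣ) : R) := by rw [h1]
      _ = _ := by rw [← mul_assoc ((c⁻¹ : Rˣ) : R), Units.inv_mul, one_mul]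
  induction j using Int.induction_on generalizing n with
  | zero => simp
  | succ k ih =>
    rw [zpow_add_one, zpow_add_one, Units.val_mul, mul_assoc, hc, ← mul_assoc, ih,
      RingAut.mul_apply, mul_assoc]
  | pred k ih =>
    rw [zpow_sub_one, zpow_sub_one, Units.val_mul, mul_assoc, hinv, ← mul_assoc, ih,
      RingAut.mul_apply, mul_assoc]

/-- product of brackets -/
theorem br_mul (Φ : N →+* R) (τN : N →+* N) (ρ : N ≃+* N) (c : Rˣ)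
    (hc : ∀ n, (c : R) * Φ n = Φ (ρ n) * c) (hττ : ∀ n, τN (τN n) = n)
    (hτρ : ∀ n, τN (ρ n) = (ρ⁻¹ : N ≃+* N) (τN n)) (n n' : N) (j : ℤ) :
    br Φ τN c n 1 * br Φ τN c n' j =
      br Φ τN c (n * ρ n') (1 + j) + br Φ τN c (n * ρ (τN n')) (1 - j) := by
  have h1 := fun n => zpow_conj Φ ρ c hc 1 n
  have h2 := fun n => zpow_conj Φ ρ c hc (-1) n
  have e1 : ∀ n, Φ n * ((c ^ (1 : ℤ) : Rˣ) : R) = Φ n * ((c ^ (1 : ℤ) : Rˣ) : R) := fun _ => rfl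
  unfold br
  rw [mul_add, add_mul, add_mul]
  have a1 : Φ n * ((c ^ (1 : ℤ) : Rˣ) : R) * (Φ n' * ((c ^ j : Rˣ) : R)) =
      Φ (n * ρ n') * ((c ^ (1 + j) : Rˣ) : R) := by
    rw [mul_assoc, ← mul_assoc _ (Φ n'), h1, zpow_one, zpow_one, mul_assoc (Φ (ρ n')), ← mul_assoc,
      ← map_mul, zpow_add, zpow_one, Units.val_mul]
  have a2 : Φ n * ((c ^ (1 : ℤ) : Rˣ) : R) * (Φ (τN n') * ((c ^ (-j) : Rˣ) : R)) =
      Φ (n * ρ (τN n')) * ((c ^ (1 - j) : Rˣ) : R) := by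
    rw [mul_assoc, ← mul_assoc _ (Φ (τN n')), h1, zpow_one, zpow_one, mul_assoc (Φ (ρ (τN n'))),
      ← mul_assoc, ← map_mul, sub_eq_add_neg, zpow_add, zpow_one, Units.val_mul]
  have a3 : Φ (τN n) * ((c ^ (-1 : ℤ) : Rˣ) : R) * (Φ n' * ((c ^ j : Rˣ) : R)) =
      Φ (τN (n * ρ (τN n'))) * ((c ^ (-(1 - j)) : Rˣ) : R) := by
    rw [mul_assoc, ← mul_assoc _ (Φ n'), h2, mul_assoc (Φ ((ρ ^ (-1 : ℤ) : N ≃+* N) n')),
      ← mul_assoc, ← map_mul, map_mul τN, hτρ, hττ, zpow_neg_one, neg_sub, sub_eq_add_neg,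
      add_comm j, zpow_add, Units.val_mul]
  have a4 : Φ (τN n) * ((c ^ (-1 : ℤ) : Rˣ) : R) * (Φ (τN n') * ((c ^ (-j) : Rˣ) : R)) =
      Φ (τN (n * ρ n')) * ((c ^ (-(1 + j)) : Rˣ) : R) := by
    rw [mul_assoc, ← mul_assoc _ (Φ (τN n')), h2, mul_assoc (Φ ((ρ ^ (-1 : ℤ) : N ≃+* N) (τN n'))),
      ← mul_assoc, ← map_mul, map_mul τN, hτρ, zpow_neg_one, neg_add, zpow_add, Units.val_mul]
  rw [a1, a2, a3, a4]
  abel

/-- the central element -/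
theorem br_z (Φ : N →+* R) (τN : N →+* N) (ρ : N ≃+* N) (c : Rˣ)
    (hc : ∀ n, (c : R) * Φ n = Φ (ρ n) * c) (m : ℕ) (hm : ρ ^ m = 1) (n : N) (j : ℤ) :
    (((c ^ (m : ℤ) : Rˣ) : R) + ((c ^ (-(m : ℤ)) : Rˣ) : R)) * br Φ τN c n j =
      br Φ τN c n (j + m) + br Φ τN c n (j - m) ∧
    br Φ τN c n j * (((c ^ (m : ℤ) : Rˣ) : R) + ((c ^ (-(m : ℤ)) : Rˣ) : R)) =
      br Φ τN c n (j + m) + br Φ τN c n (j - m) := by
  have hm1 : ρ ^ (m : ℤ) = 1 := by rw [zpow_natCast, hm]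
  have hm2 : ρ ^ (-(m : ℤ)) = 1 := by rw [zpow_neg, hm1, inv_one]
  have h1 : ∀ n, ((c ^ (m : ℤ) : Rˣ) : R) * Φ n = Φ n * ((c ^ (m : ℤ) : Rˣ) : R) := by
    intro n
    rw [zpow_conj Φ ρ c hc, hm1, RingAut.one_apply]
  have h2 : ∀ n, ((c ^ (-(m : ℤ)) : Rˣ) : R) * Φ n = Φ n * ((c ^ (-(m : ℤ)) : Rˣ) : R) := by
    intro n
    rw [zpow_conj Φ ρ c hc, hm2, RingAut.one_apply]
  have e1 : ((c ^ (j + m) : Rˣ) : R) = ((c ^ (m : ℤ) : Rˣ) : R) * ((c ^ j : Rˣ) : R) := by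
    rw [← Units.val_mul, ← zpow_add, add_comm]
  have e2 : ((c ^ (j - m) : Rˣ) : R) = ((c ^ (-(m : ℤ)) : Rˣ) : R) * ((c ^ j : Rˣ) : R) := by
    rw [← Units.val_mul, ← zpow_add]; congr 2; ring
  have e3 : ((c ^ (-(j + m)) : Rˣ) : R) =
      ((c ^ (-(m : ℤ)) : Rˣ) : R) * ((c ^ (-j) : Rˣ) : R) := by
    rw [← Units.val_mul, ← zpow_add]; congr 2; ring
  have e4 : ((c ^ (-(j - m)) : Rˣ) : R) =
      ((c ^ (m : ℤ) : Rˣ) : R) * ((c ^ (-j) : Rˣ) : R) := by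
    rw [← Units.val_mul, ← zpow_add]; congr 2; ring
  have c1 : ∀ i k : ℤ, ((c ^ i : Rˣ) : R) * ((c ^ k : Rˣ) : R) =
      ((c ^ k : Rˣ) : R) * ((c ^ i : Rˣ) : R) := by
    intro i k
    rw [← Units.val_mul, ← Units.val_mul, ← zpow_add, ← zpow_add, add_comm]
  constructor
  · unfold br
    rw [e1, e2, e3, e4]
    simp only [mul_add, add_mul, ← mul_assoc, h1, h2]
    abel
  · unfold br
    rw [e1, e2, e3, e4]
    simp only [mul_add, add_mul, mul_assoc, c1 j, c1 (-j)]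
    abel

end Bracket

end Pool.Agent.Helper78.DR
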