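import Pool.Agent.Helper78.DR.Dih1

/-!
# The bracket construction, continued: a centrally finite subdivision ring
-/

set_option autoImplicit false

namespace Pool.Agent.Helper78.DR

universe u v w

section Bracket2

variable {E : Type u} [DivisionRing E] {R : Type v} [Ring R] [Nontrivial R] {N : Type w} [Field N]

theorem bracket_case (inc : E →+* R) (τ : R →+* R) (hτinc : ∀ e, τ (inc e) = inc e)
    (hfix : ∀ r, τ r = r → ∃ e, inc e = r) (Φ : N →+* R) (τN : N →+* N) (ρ : N ≃+* N) (c : Rˣ)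
    (hτΦ : ∀ n, τ (Φ n) = Φ (τN n)) (hτc : τ c = ((c⁻¹ : Rˣ) : R))
    (hc : ∀ n, (c : R) * Φ n = Φ (ρ n) * c) (hττ : ∀ n, τN (τN n) = n)
    (hτρ : ∀ n, τN (ρ n) = (ρ⁻¹ : N ≃+* N) (τN n)) (hτN : ∃ n, τN n ≠ n)
    (m : ℕ) (hm0 : 0 < m) (hm : ρ ^ m = 1) (k : ℕ) (ν : Fin k → N)
    (hν : ∀ n : N, ∃ l : Fin k → E, (∀ i, ∀ x, x * l i = l i * x) ∧
      Φ n = ∑ i, inc (l i) * Φ (ν i))
    (β : N) (hβ : τN β = β) (hρβ : ρ β ≠ β) (b : E) (hb : inc b = Φ β) :
    ∃ K : Subfield E, CentFin K := by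
  classical
  have hinj : Function.Injective inc := inc.injective
  have hΦinj : Function.Injective Φ := Φ.injective
  -- `τ` on powers of `c`
  have hτc1 : τ ((c⁻¹ : Rˣ) : R) = c := by
    have h1 : τ ((c : R) * ((c⁻¹ : Rˣ) : R)) = 1 := by rw [Units.mul_inv, map_one]
    rw [map_mul, hτc] at h1
    calc τ ((c⁻¹ : Rˣ) : R) = (c : R) * (((c⁻¹ : Rˣ) : R) * τ ((c⁻¹ : Rˣ) : R)) := by
          rw [← mul_assoc, Units.mul_inv, one_mul]
      _ = c := by rw [h1, mul_one]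
  have hτcz : ∀ j : ℤ, τ ((c ^ j : Rˣ) : R) = ((c ^ (-j) : Rˣ) : R) := by
    intro j
    induction j using Int.induction_on with
    | zero => simp
    | succ k ih =>
      rw [zpow_add_one, Units.val_mul, map_mul, ih, hτc, ← Units.val_mul, neg_add, zpow_add,
        zpow_neg_one]
    | pred k ih =>
      rw [zpow_sub_one, Units.val_mul, map_mul, ih, hτc1, ← Units.val_mul, neg_sub,
        sub_neg_eq_add, add_comm (1 : ℤ), zpow_add_one, neg_neg]
  have hτbr : ∀ n j, τ (br Φ τN c n j) = br Φ τN c n j := by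
    intro n j
    unfold br
    rw [map_add, map_mul, map_mul, hτΦ, hτΦ, hττ, hτcz, hτcz, neg_neg, add_comm]
  -- the central element
  obtain ⟨z₀, hz₀⟩ := hfix (((c ^ (m : ℤ) : Rˣ) : R) + ((c ^ (-(m : ℤ)) : Rˣ) : R)) (by
    rw [map_add, hτcz, hτcz, neg_neg, add_comm])
  -- the spanning family
  choose s₀ hs₀ using fun (i : Fin k × Fin (2 * m)) =>
    hfix (br Φ τN c (ν i.1) ((i.2 : ℕ) : ℤ)) (hτbr _ _)
  have hlin : ∀ n : N, ∃ l : Fin k → E, (∀ i, ∀ x, x * l i = l i * x) ∧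
      ∀ j, br Φ τN c n j = ∑ i, inc (l i) * br Φ τN c (ν i) j := by
    intro n
    obtain ⟨l, hl, hsum⟩ := hν n
    refine ⟨l, hl, fun j => ?_⟩
    have h2 : Φ (τN n) = ∑ i, inc (l i) * Φ (τN (ν i)) := by
      rw [← hτΦ, hsum, map_sum]
      refine Finset.sum_congr rfl fun i _ => ?_
      rw [map_mul, hτinc, hτΦ]
    unfold br
    rw [hsum, h2, Finset.sum_mul, Finset.sum_mul, ← Finset.sum_add_distrib]
    refine Finset.sum_congr rfl fun i _ => ?_
    rw [mul_add, mul_assoc, mul_assoc]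
  -- window
  have hwin : ∀ j : ℕ, j < 2 * m → ∀ n, ∃ e ∈ Sp z₀ s₀, inc e = br Φ τN c n j := by
    intro j hj n
    obtain ⟨l, hl, hsum⟩ := hlin n
    refine ⟨∑ i, l i * s₀ (i, ⟨j, hj⟩), ?_, ?_⟩
    · exact Submodule.sum_mem _ fun i _ => Sp_mul (center_mem_Zc _ (hl i)) (Sp_mem _ _)
    · rw [map_sum, hsum]
      refine Finset.sum_congr rfl fun i _ => ?_
      rw [map_mul, hs₀]
  have hZ : z₀ ∈ Zc z₀ := self_mem_Zc z₀
  have hstep : ∀ n j, inc z₀ * br Φ τN c n j = br Φ τN c n (j + m) + br Φ τN c n (j - m) := by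
    intro n j
    rw [hz₀]
    exact (br_z Φ τN ρ c hc m hm n j).1
  have hstep' : ∀ n j, br Φ τN c n j * inc z₀ = br Φ τN c n (j + m) + br Φ τN c n (j - m) := by
    intro n j
    rw [hz₀]
    exact (br_z Φ τN ρ c hc m hm n j).2
  have hpos : ∀ j : ℕ, ∀ n, ∃ e ∈ Sp z₀ s₀, inc e = br Φ τN c n j := by
    intro j
    induction j using Nat.strong_induction_on with
    | _ j ih =>
      intro n
      by_cases hj : j < 2 * m
      · exact hwin j hj n
      · obtain ⟨e₁, he₁, h1⟩ := ih (j - m) (by omega) n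
        obtain ⟨e₂, he₂, h2⟩ := ih (j - 2 * m) (by omega) n
        refine ⟨z₀ * e₁ - e₂, sub_mem (Sp_mul hZ he₁) he₂, ?_⟩
        rw [map_sub, map_mul, h1, h2, hstep]
        have e1 : ((j - m : ℕ) : ℤ) + m = j := by omega
        have e2 : ((j - m : ℕ) : ℤ) - m = ((j - 2 * m : ℕ) : ℤ) := by omega
        rw [e1, e2]
        abel
  have hneg : ∀ j : ℕ, ∀ n, ∃ e ∈ Sp z₀ s₀, inc e = br Φ τN c n (-(j : ℤ)) := by
    intro j
    induction j using Nat.strong_induction_on with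
    | _ j ih =>
      intro n
      -- elements of index above `-j`
      have hup : ∀ i : ℤ, -(j : ℤ) < i → ∃ e ∈ Sp z₀ s₀, inc e = br Φ τN c n i := by
        intro i hi
        rcases le_or_gt 0 i with h | h
        · obtain ⟨e, he, h1⟩ := hpos i.toNat n
          exact ⟨e, he, by rw [h1, Int.toNat_of_nonneg h]⟩
        · obtain ⟨e, he, h1⟩ := ih (-i).toNat (by omega) n
          refine ⟨e, he, ?_⟩
          rw [h1, Int.toNat_of_nonneg (by omega), neg_neg]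
      obtain ⟨e₁, he₁, h1⟩ := hup (-(j : ℤ) + m) (by omega)
      obtain ⟨e₂, he₂, h2⟩ := hup (-(j : ℤ) + 2 * m) (by omega)
      refine ⟨z₀ * e₁ - e₂, sub_mem (Sp_mul hZ he₁) he₂, ?_⟩
      rw [map_sub, map_mul, h1, h2, hstep]
      have e1 : -(j : ℤ) + m + m = -(j : ℤ) + 2 * m := by ring
      have e2 : -(j : ℤ) + m - m = -(j : ℤ) := by ring
      rw [e1, e2]
      abel
  have hall : ∀ (j : ℤ) (n : N), ∃ e ∈ Sp z₀ s₀, inc e = br Φ τN c n j := by
    intro j n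
    rcases le_or_gt 0 j with h | h
    · obtain ⟨e, he, h1⟩ := hpos j.toNat n
      exact ⟨e, he, by rw [h1, Int.toNat_of_nonneg h]⟩
    · obtain ⟨e, he, h1⟩ := hneg (-j).toNat n
      refine ⟨e, he, ?_⟩
      rw [h1, Int.toNat_of_nonneg (by omega), neg_neg]
  have hmem : ∀ (j : ℤ) (n : N) (e : E), inc e = br Φ τN c n j → e ∈ Sp z₀ s₀ := by
    intro j n e he
    obtain ⟨e', he', h1⟩ := hall j n
    rwa [hinj (he.trans h1.symm)]
  -- one
  have hτ1 : ∃ n₀, n₀ + τN n₀ ≠ 0 := by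
    by_contra hcon
    push Not at hcon
    obtain ⟨n, hn⟩ := hτN
    have h1 := hcon 1
    rw [map_one] at h1
    apply hn
    have h2 := hcon n
    have h3 : (1 + 1 : N) * n = 0 := by rw [h1, zero_mul]
    rw [add_mul, one_mul] at h3
    exact add_left_cancel (h2.trans h3.symm)
  obtain ⟨n₀, hn₀⟩ := hτ1
  have hone : (1 : E) ∈ Sp z₀ s₀ := by
    apply hmem 0 (n₀ * (n₀ + τN n₀)⁻¹)
    unfold br
    rw [neg_zero, zpow_zero, Units.val_one, mul_one, mul_one, ← map_add]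
    have : n₀ * (n₀ + τN n₀)⁻¹ + τN (n₀ * (n₀ + τN n₀)⁻¹) = 1 := by
      rw [map_mul, map_inv₀, map_add, hττ, add_comm (τN n₀) n₀, ← add_mul, mul_inv_cancel₀ hn₀]
    rw [this, map_one, map_one]
  -- the second generator
  have hκ : ρ β - β ≠ 0 := sub_ne_zero.2 hρβ
  have hne1 : ∃ n', br Φ τN c n' 1 ≠ 0 := by
    by_contra hcon
    push Not at hcon
    obtain ⟨n, hn⟩ := hτN
    have h1 := hcon 1
    have h2 := hcon n
    unfold br at h1 h2
    simp only [map_one, one_mul] at h1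
    have h3 : ((c ^ (-1 : ℤ) : Rˣ) : R) = -((c ^ (1 : ℤ) : Rˣ) : R) :=
      eq_neg_of_add_eq_zero_right h1
    rw [h3, mul_neg, ← sub_eq_add_neg, ← sub_mul, ← map_sub] at h2
    have h4 : Φ (n - τN n) = 0 := by
      have := congrArg (fun r => r * (((c ^ (1 : ℤ))⁻¹ : Rˣ) : R)) h2
      simp only [mul_assoc, Units.mul_inv, mul_one, zero_mul] at this
      exact this
    rw [map_eq_zero] at h4
    exact hn (sub_eq_zero.1 h4).symm
  obtain ⟨n', hn'⟩ := hne1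
  obtain ⟨g, hg⟩ := hfix (br Φ τN c (n' * (ρ β - β)⁻¹) 1) (hτbr _ _)
  have hcomm : inc (b * g - g * b) = -br Φ τN c n' 1 := by
    rw [map_sub, map_mul, map_mul, hb, hg, br_mul_left Φ τN c β _ hβ]
    have e1 : br Φ τN c (n' * (ρ β - β)⁻¹) 1 * Φ β =
        br Φ τN c (n' * (ρ β - β)⁻¹ * ρ β) 1 := by
      unfold br
      rw [add_mul, mul_assoc, mul_assoc, zpow_conj Φ ρ c hc, zpow_conj Φ ρ c hc, ← mul_assoc,
        ← mul_assoc, ← map_mul, ← map_mul, map_mul τN _ (ρ β), hτρ, hβ, zpow_one, zpow_neg_one]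
    rw [e1]
    have e2 : n' = n' * (ρ β - β)⁻¹ * (ρ β - β) := by
      rw [mul_assoc, inv_mul_cancel₀ hκ, mul_one]
    have e3 : br Φ τN c (n' * (ρ β - β)⁻¹ * ρ β) 1 =
        br Φ τN c (β * (n' * (ρ β - β)⁻¹)) 1 + br Φ τN c n' 1 := by
      rw [← br_add]
      congr 1
      nth_rw 3 [e2]
      ring
    rw [e3]
    abel
  have hbg : b * g ≠ g * b := by
    intro h
    rw [h, sub_self, map_zero] at hcomm
    exact hn' (neg_eq_zero.1 hcomm.symm)
  -- commutation with `z₀`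
  have hgz : g * z₀ = z₀ * g := by
    apply hinj
    rw [map_mul, map_mul, hg, hstep, hstep']
  have hbz : b * z₀ = z₀ * b := by
    apply hinj
    rw [map_mul, map_mul, hb, hz₀]
    have hm1 : ρ ^ (m : ℤ) = 1 := by rw [zpow_natCast, hm]
    have hm2 : ρ ^ (-(m : ℤ)) = 1 := by rw [zpow_neg, hm1, inv_one]
    rw [mul_add, add_mul, zpow_conj Φ ρ c hc, zpow_conj Φ ρ c hc, hm1, hm2, RingAut.one_apply]
  refine centFin_of_span z₀ s₀ hone b g hbz hgz ?_ ?_ hbg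
  · rintro ⟨i, j⟩
    apply hmem ((j : ℕ) : ℤ) (β * ν i)
    rw [map_mul, hb, hs₀, br_mul_left Φ τN c β _ hβ]
  · rintro ⟨i, j⟩
    obtain ⟨e₁, he₁, h1⟩ := hall (1 + ((j : ℕ) : ℤ)) (n' * (ρ β - β)⁻¹ * ρ (ν i))
    obtain ⟨e₂, he₂, h2⟩ := hall (1 - ((j : ℕ) : ℤ)) (n' * (ρ β - β)⁻¹ * ρ (τN (ν i)))
    have : g * s₀ (i, j) = e₁ + e₂ := by
      apply hinj
      rw [map_mul, map_add, hg, hs₀, h1, h2]
      exact br_mul Φ τN ρ c hc hττ hτρ _ _ _
    rw [this]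
    exact add_mem he₁ he₂

end Bracket2

end Pool.Agent.Helper78.DR
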