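import Pool.Agent.Helper78.DR.Dih2

/-!
# The division ring `E ⊗ L'` for a quadratic extension `L'`
-/

set_option autoImplicit false

open scoped TensorProduct

namespace Pool.Agent.Helper78.DR

universe u v w

section Quadratic

variable {L : Type v} [Field L] {E : Type u} [DivisionRing E] [Algebra L E]
  {Q : Type w} [Field Q] [Algebra L Q]

/-- a basis `1, δ` -/
theorem quad_basis (hQ : Module.finrank L Q = 2) (δ : Q) (hδ : δ ∉ Set.range (algebraMap L Q)) :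
    ∃ bs : Module.Basis (Fin 2) L Q, bs 0 = 1 ∧ bs 1 = δ := by
  have hli : LinearIndependent L ![(1 : Q), δ] := by
    rw [LinearIndependent.pair_iff]
    intro s t hst
    have ht : t = 0 := by
      by_contra ht
      apply hδ
      refine ⟨-(t⁻¹ * s), ?_⟩
      have h1 : t • δ = -(s • (1 : Q)) := eq_neg_of_add_eq_zero_right hst
      have h2 : δ = t⁻¹ • (t • δ) := by rw [smul_smul, inv_mul_cancel₀ ht, one_smul]
      rw [h2, h1, Algebra.algebraMap_eq_smul_one, smul_neg, smul_smul, neg_smul]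
    refine ⟨?_, ht⟩
    rw [ht, zero_smul, add_zero] at hst
    exact (smul_eq_zero.1 hst).resolve_right one_ne_zero
  refine ⟨basisOfLinearIndependentOfCardEqFinrank hli (by simp [hQ]), ?_, ?_⟩
  · simp
  · simp

theorem ten_repr (bs : Module.Basis (Fin 2) L Q) (h0 : bs 0 = 1) (r : E ⊗[L] Q) :
    ∃ x y : E, r = x ⊗ₜ 1 + y ⊗ₜ bs 1 := by
  obtain ⟨f, hf⟩ := TensorProduct.eq_repr_basis_right bs r
  refine ⟨f 0, f 1, ?_⟩
  rw [← hf, Finsupp.sum_fintype f (fun i m => m ⊗ₜ[L] bs i)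
    (fun i => TensorProduct.zero_tmul _ _), Fin.sum_univ_two, h0]

theorem ten_zero (bs : Module.Basis (Fin 2) L Q) (h0 : bs 0 = 1) (x y : E)
    (h : x ⊗ₜ[L] (1 : Q) + y ⊗ₜ bs 1 = 0) : x = 0 ∧ y = 0 := by
  have h1 := TensorProduct.sum_tmul_basis_right_eq_zero bs
    (Finsupp.equivFunOnFinite.symm ![x, y]) (by
      rw [Finsupp.sum_fintype _ (fun i m => m ⊗ₜ[L] bs i)
        (fun i => TensorProduct.zero_tmul _ _), Fin.sum_univ_two, h0]
      exact h)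
  have h2 := DFunLike.congr_fun h1 0
  have h3 := DFunLike.congr_fun h1 1
  exact ⟨h2, h3⟩

/-- nonzero elements are units -/
theorem ten_unit (bs : Module.Basis (Fin 2) L Q) (h0 : bs 0 = 1) (t d : L)
    (hδ : bs 1 * bs 1 = t • bs 1 + d • 1)
    (hE : ∀ u : E, u * u ≠ t • u + d • 1) (r : E ⊗[L] Q) (hr : r ≠ 0) : IsUnit r := by
  obtain ⟨x, y, rfl⟩ := ten_repr bs h0 r
  have hunit : ∀ x : E, x ≠ 0 → IsUnit (x ⊗ₜ[L] (1 : Q)) := by
    intro x hx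
    rw [isUnit_iff_exists]
    refine ⟨x⁻¹ ⊗ₜ 1, ?_, ?_⟩
    · rw [Algebra.TensorProduct.tmul_mul_tmul, mul_inv_cancel₀ hx, one_mul]
      rfl
    · rw [Algebra.TensorProduct.tmul_mul_tmul, inv_mul_cancel₀ hx, one_mul]
      rfl
  by_cases hy : y = 0
  · subst hy
    rw [TensorProduct.zero_tmul, add_zero] at hr ⊢
    apply hunit
    rintro rfl
    exact hr (TensorProduct.zero_tmul _ _)
  · obtain ⟨u, hu⟩ : ∃ u, u = y⁻¹ * x := ⟨_, rfl⟩
    have hx : x = y * u := by rw [hu, mul_inv_cancel_left₀ hy]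
    have e1 : x ⊗ₜ[L] (1 : Q) + y ⊗ₜ bs 1 = (y ⊗ₜ 1) * (u ⊗ₜ 1 + 1 ⊗ₜ bs 1) := by
      rw [mul_add, Algebra.TensorProduct.tmul_mul_tmul, Algebra.TensorProduct.tmul_mul_tmul,
        one_mul, one_mul, mul_one, hx]
    rw [e1]
    apply (hunit y hy).mul
    obtain ⟨w, hw⟩ : ∃ w : E, w = u * u + t • u - d • 1 := ⟨_, rfl⟩
    have hw0 : w ≠ 0 := by
      intro h
      rw [hw] at h
      apply hE (-u)
      rw [neg_mul_neg, smul_neg]
      have : u * u = (u * u + t • u - d • 1) + (-(t • u) + d • 1) := by abel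
      rw [this, h, zero_add]
    have h11 : ∀ a b : E, (a ⊗ₜ[L] (1 : Q)) * (b ⊗ₜ 1) = (a * b) ⊗ₜ 1 := by
      intro a b
      rw [Algebra.TensorProduct.tmul_mul_tmul, one_mul]
    have h1δ : ∀ a b : E, (a ⊗ₜ[L] (1 : Q)) * (b ⊗ₜ bs 1) = (a * b) ⊗ₜ bs 1 := by
      intro a b
      rw [Algebra.TensorProduct.tmul_mul_tmul, one_mul]
    have hδ1 : ∀ a b : E, (a ⊗ₜ[L] bs 1) * (b ⊗ₜ (1 : Q)) = (a * b) ⊗ₜ bs 1 := by
      intro a b
      rw [Algebra.TensorProduct.tmul_mul_tmul, mul_one]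
    have hδδ : ∀ a b : E, (a ⊗ₜ[L] bs 1) * (b ⊗ₜ bs 1) =
        (t • (a * b)) ⊗ₜ bs 1 + (d • (a * b)) ⊗ₜ (1 : Q) := by
      intro a b
      rw [Algebra.TensorProduct.tmul_mul_tmul, hδ, TensorProduct.tmul_add,
        TensorProduct.tmul_smul, TensorProduct.tmul_smul, TensorProduct.smul_tmul',
        TensorProduct.smul_tmul']
    have k1 : (u ⊗ₜ[L] (1 : Q) + 1 ⊗ₜ bs 1) * ((u + t • 1) ⊗ₜ 1 + (-1) ⊗ₜ bs 1) = w ⊗ₜ 1 := by
      rw [mul_add, add_mul, add_mul, h11, h1δ, hδ1, hδδ, hw]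
      simp only [one_mul, mul_one, mul_neg, mul_add, mul_smul_comm, smul_neg,
        TensorProduct.neg_tmul, TensorProduct.add_tmul, TensorProduct.sub_tmul]
      abel
    have k2 : ((u + t • 1) ⊗ₜ 1 + (-1) ⊗ₜ bs 1) * (u ⊗ₜ[L] (1 : Q) + 1 ⊗ₜ bs 1) = w ⊗ₜ 1 := by
      rw [mul_add, add_mul, add_mul, h11, h1δ, hδ1, hδδ, hw]
      simp only [one_mul, mul_one, neg_mul, add_mul, smul_mul_assoc, smul_neg,
        TensorProduct.neg_tmul, TensorProduct.add_tmul, TensorProduct.sub_tmul]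
      abel
    have hwu := hunit w hw0
    rw [isUnit_iff_exists]
    obtain ⟨w', hw1, hw2⟩ := isUnit_iff_exists.1 hwu
    refine ⟨((u + t • 1) ⊗ₜ 1 + (-1) ⊗ₜ bs 1) * w', ?_, ?_⟩
    · rw [← mul_assoc, k1, hw1]
    · -- `w` commutes with the second factor
      have hc : (w ⊗ₜ[L] (1 : Q)) * ((u + t • 1) ⊗ₜ 1 + (-1) ⊗ₜ bs 1) =
          ((u + t • 1) ⊗ₜ 1 + (-1) ⊗ₜ bs 1) * (w ⊗ₜ[L] (1 : Q)) := by
        calc (w ⊗ₜ[L] (1 : Q)) * ((u + t • 1) ⊗ₜ 1 + (-1) ⊗ₜ bs 1)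
            = (((u + t • 1) ⊗ₜ 1 + (-1) ⊗ₜ bs 1) * (u ⊗ₜ[L] (1 : Q) + 1 ⊗ₜ bs 1)) *
                ((u + t • 1) ⊗ₜ 1 + (-1) ⊗ₜ bs 1) := by rw [k2]
          _ = ((u + t • 1) ⊗ₜ 1 + (-1) ⊗ₜ bs 1) * ((u ⊗ₜ[L] (1 : Q) + 1 ⊗ₜ bs 1) *
                ((u + t • 1) ⊗ₜ 1 + (-1) ⊗ₜ bs 1)) := mul_assoc _ _ _
          _ = _ := by rw [k1]
      have hc' : ((u + t • 1) ⊗ₜ 1 + (-1) ⊗ₜ bs 1) * w' =
          w' * ((u + t • 1) ⊗ₜ[L] (1 : Q) + (-1) ⊗ₜ bs 1) := by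
        calc ((u + t • 1) ⊗ₜ 1 + (-1) ⊗ₜ bs 1) * w'
            = w' * ((w ⊗ₜ[L] (1 : Q)) * ((u + t • 1) ⊗ₜ 1 + (-1) ⊗ₜ bs 1)) * w' := by
              rw [← mul_assoc, hw2, one_mul]
          _ = w' * (((u + t • 1) ⊗ₜ[L] (1 : Q) + (-1) ⊗ₜ bs 1) * ((w ⊗ₜ[L] (1 : Q)) * w')) := by
              rw [hc]; simp only [mul_assoc]
          _ = _ := by rw [hw1, mul_one]
      rw [hc', mul_assoc, k2, hw2]

/-- the conjugation of `E ⊗ Q` -/
theorem ten_fixed (bs : Module.Basis (Fin 2) L Q) (h0 : bs 0 = 1) (t : L) (τ : Q →ₐ[L] Q)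
    (hτ : τ (bs 1) = t • 1 - bs 1) (hτ1 : τ (bs 1) ≠ bs 1) (r : E ⊗[L] Q)
    (hr : Algebra.TensorProduct.map (AlgHom.id L E) τ r = r) : ∃ e : E, r = e ⊗ₜ 1 := by
  obtain ⟨x, y, rfl⟩ := ten_repr bs h0 r
  refine ⟨x, ?_⟩
  have hy : y = 0 := by
    rw [map_add, Algebra.TensorProduct.map_tmul, Algebra.TensorProduct.map_tmul, map_one, hτ,
      AlgHom.id_apply, AlgHom.id_apply, TensorProduct.tmul_sub, TensorProduct.tmul_smul,
      TensorProduct.smul_tmul', ← sub_eq_zero] at hr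
    have h2 : (t • y) ⊗ₜ[L] (1 : Q) + (-(y + y)) ⊗ₜ bs 1 = 0 := by
      rw [← hr, TensorProduct.neg_tmul, TensorProduct.add_tmul]
      abel
    obtain ⟨h3, h4⟩ := ten_zero bs h0 _ _ h2
    by_contra hy
    have ht : t = 0 := (smul_eq_zero.1 h3).resolve_right hy
    have h5 : y + y = 0 := neg_eq_zero.1 h4
    have h2E : (2 : E) = 0 := by
      have : (2 : E) * y = 0 := by rw [two_mul, h5]
      exact (mul_eq_zero.1 this).resolve_right hy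
    have h2L : (2 : L) = 0 := by
      apply (algebraMap L E).injective
      rw [map_ofNat, map_zero, h2E]
    have h2Q : (2 : Q) = 0 := by
      rw [← map_ofNat (algebraMap L Q) 2, h2L, map_zero]
    apply hτ1
    rw [hτ, ht, zero_smul, zero_sub, neg_eq_iff_add_eq_zero, ← two_mul, h2Q, zero_mul]
  rw [hy, TensorProduct.zero_tmul, add_zero]

end Quadratic

end Pool.Agent.Helper78.DR
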