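import Pool.Agent.Helper78.DR.Dih3

/-!
# The dihedral step
-/

set_option autoImplicit false

open scoped TensorProduct

namespace Pool.Agent.Helper78.DR

universe u v w

/-- The Casimir element in a ring. -/
theorem casimirR {D : Type u} [Ring D] {F : Type v} [Field F] [Algebra F D] (f : Polynomial F)
    (n : ℕ) (hf : f.Monic) (hn : f.natDegree = n + 1) (a a' : D)
    (ha : Polynomial.aeval a f = 0) (ha' : Polynomial.aeval a' f = 0) :
    ∃ E : ℕ → D, E n = 1 ∧ ∀ t : D,
      a * ∑ j ∈ Finset.range (n + 1), E j * t * a' ^ j =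
        (∑ j ∈ Finset.range (n + 1), E j * t * a' ^ j) * a' := by
  classical
  obtain ⟨g, hg⟩ : ∃ g : ℕ → Polynomial F, g = fun j => (Polynomial.divX^[j]) f := ⟨_, rfl⟩
  have hg0 : g 0 = f := by rw [hg]; rfl
  have hgs : ∀ j, g (j + 1) = (g j).divX := by
    intro j
    rw [hg]
    exact Function.iterate_succ_apply' _ _ _
  have hco : ∀ j k, (g j).coeff k = f.coeff (k + j) := by
    intro j
    induction j with
    | zero => intro k; rw [hg0, add_zero]
    | succ j ih =>
      intro k
      rw [hgs, Polynomial.coeff_divX, ih]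
      congr 1
      ring
  have hrec : ∀ j, Polynomial.aeval a (g j) =
      a * Polynomial.aeval a (g (j + 1)) + algebraMap F D (f.coeff j) := by
    intro j
    have h1 := Polynomial.divX_mul_X_add (g j)
    rw [← hgs, hco, zero_add, ← Polynomial.X_mul] at h1
    rw [← h1, map_add, Polynomial.aeval_C, map_mul, Polynomial.aeval_X]
  have hlast : g (n + 1) = 1 := by
    ext k
    rw [hco, Polynomial.coeff_one]
    by_cases hk : k = 0
    · subst hk
      rw [if_pos rfl, zero_add, ← hn]
      exact hf.coeff_natDegree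
    · rw [if_neg hk]
      exact Polynomial.coeff_eq_zero_of_natDegree_lt (by omega)
  refine ⟨fun j => Polynomial.aeval a (g (j + 1)), ?_, fun t => ?_⟩
  · change Polynomial.aeval a (g (n + 1)) = 1
    rw [hlast, map_one]
  · have e1 : ∀ j, a * (Polynomial.aeval a (g (j + 1)) * t * a' ^ j) =
        Polynomial.aeval a (g j) * t * a' ^ j - f.coeff j • (t * a' ^ j) := by
      intro j
      rw [hrec j, Algebra.smul_def]
      simp only [add_mul, mul_assoc]
      abel
    rw [Finset.mul_sum, Finset.sum_mul]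
    have e2 : ∀ j, Polynomial.aeval a (g (j + 1)) * t * a' ^ j * a' =
        Polynomial.aeval a (g (j + 1)) * t * a' ^ (j + 1) := by
      intro j
      rw [mul_assoc, ← pow_succ]
    rw [Finset.sum_congr rfl fun j _ => e1 j, Finset.sum_congr rfl fun j _ => e2 j,
      Finset.sum_sub_distrib]
    have e3 := Finset.sum_range_succ' (fun j => Polynomial.aeval a (g j) * t * a' ^ j) (n + 1)
    have e4 := Finset.sum_range_succ (fun j => Polynomial.aeval a (g j) * t * a' ^ j) (n + 1)
    have e5 : Polynomial.aeval a (g 0) = 0 := by rw [hg0, ha]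
    have e6 : ∑ j ∈ Finset.range (n + 1), f.coeff j • (t * a' ^ j) + t * a' ^ (n + 1) = 0 := by
      have h1 : t * Polynomial.aeval a' f = 0 := by rw [ha', mul_zero]
      rw [Polynomial.aeval_eq_sum_range, hn, Finset.mul_sum, Finset.sum_range_succ] at h1
      have h2 : f.coeff (n + 1) = 1 := by rw [← hn]; exact hf.coeff_natDegree
      rw [h2, one_smul] at h1
      rw [← h1]
      congr 1
      exact Finset.sum_congr rfl fun j _ => (mul_smul_comm _ _ _).symm
    rw [e3, e5, zero_mul, zero_mul, add_zero, hlast, map_one, one_mul] at e4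
    rw [e4, sub_eq_iff_eq_add]
    have e7 : t * a' ^ (n + 1) = -∑ j ∈ Finset.range (n + 1), f.coeff j • (t * a' ^ j) :=
      eq_neg_of_add_eq_zero_right e6
    rw [e7]
    abel

section Step

variable {L : Type v} [Field L] {E : Type u} [DivisionRing E] [Algebra L E]
  {N : Type w} [Field N] [Algebra L N]

/-- a nonzero intertwiner in `E ⊗ Q` -/
theorem exists_twist {Q : Type w} [Field Q] [Algebra L Q]
    (hcen : ∀ x : E, (∀ y, y * x = x * y) → ∃ l : L, algebraMap L E l = x)
    (bs : Module.Basis (Fin 2) L Q) (h0 : bs 0 = 1) (b : E) (hb : IsIntegral L b)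
    (a : E ⊗[L] Q) (ha : Polynomial.aeval a (minpoly L b) = 0) :
    ∃ y : E ⊗[L] Q, y ≠ 0 ∧ a * y = y * (b ⊗ₜ 1) := by
  classical
  obtain ⟨n, hn⟩ : ∃ n, (minpoly L b).natDegree = n + 1 :=
    ⟨(minpoly L b).natDegree - 1, by
      have := minpoly.natDegree_pos hb
      omega⟩
  have hb' : Polynomial.aeval (b ⊗ₜ[L] (1 : Q)) (minpoly L b) = 0 := by
    have h1 := Polynomial.aeval_algHom_apply
      (Algebra.TensorProduct.includeLeft : E →ₐ[L] E ⊗[L] Q) b (minpoly L b)
    rw [minpoly.aeval, map_zero] at h1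
    exact h1
  obtain ⟨C, hC, hw⟩ := casimirR (minpoly L b) n (minpoly.monic hb) hn a (b ⊗ₜ[L] (1 : Q)) ha hb'
  by_contra hcon
  push Not at hcon
  have hzero : ∀ t : E ⊗[L] Q,
      ∑ j ∈ Finset.range (n + 1), C j * t * (b ⊗ₜ[L] (1 : Q)) ^ j = 0 := by
    intro t
    by_contra hne
    exact hcon _ hne (hw t)
  choose x y hxy using fun j => ten_repr bs h0 (C j)
  -- linear independence over the center
  have hli : LinearIndependent (Subring.center E)
      (fun i : Fin (minpoly L b).natDegree => b ^ (i : ℕ)) := by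
    have h1 := linearIndependent_pow (K := L) b
    rw [Fintype.linearIndependent_iff] at h1 ⊢
    intro g hg
    choose l hl using fun i => hcen (g i : E) (Subring.mem_center_iff.1 (g i).2)
    have h2 := h1 l (by
      rw [← hg]
      refine Finset.sum_congr rfl fun i _ => ?_
      rw [Algebra.smul_def, hl]
      rfl)
    intro i
    apply Subtype.ext
    rw [← hl i, h2 i, map_zero]
    rfl
  have h1 := artin _ hli Finset.univ (fun i => x i) (fun t => by
    have h2 := hzero (t ⊗ₜ 1)
    have h3 : ∀ j, C j * (t ⊗ₜ[L] (1 : Q)) * (b ⊗ₜ[L] (1 : Q)) ^ j =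
        (x j * t * b ^ j) ⊗ₜ 1 + (y j * t * b ^ j) ⊗ₜ bs 1 := by
      intro j
      rw [hxy j, Algebra.TensorProduct.tmul_pow, one_pow, add_mul, add_mul,
        Algebra.TensorProduct.tmul_mul_tmul, Algebra.TensorProduct.tmul_mul_tmul,
        Algebra.TensorProduct.tmul_mul_tmul, Algebra.TensorProduct.tmul_mul_tmul, one_mul,
        one_mul, mul_one, mul_one]
    rw [Finset.sum_congr rfl fun j _ => h3 j, Finset.sum_add_distrib, ← TensorProduct.sum_tmul,
      ← TensorProduct.sum_tmul] at h2
    have h4 := (ten_zero bs h0 _ _ h2).1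
    rw [← hn, Finset.sum_range] at h4
    exact h4)
  have h2 : x n = 0 := h1 ⟨n, by omega⟩ (Finset.mem_univ _)
  have h3 := hxy n
  rw [hC, h2, TensorProduct.zero_tmul, zero_add] at h3
  have h4 : (1 : E) ⊗ₜ[L] (1 : Q) + (-y n) ⊗ₜ bs 1 = 0 := by
    rw [TensorProduct.neg_tmul, ← h3]
    exact add_neg_cancel _
  exact one_ne_zero (ten_zero bs h0 _ _ h4).1

end Step

end Pool.Agent.Helper78.DR
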