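import Pool.Agent.Helper78.DR.Dih4

/-!
# The dihedral step: field data
-/

set_option autoImplicit false

open scoped TensorProduct IntermediateField

namespace Pool.Agent.Helper78.DR

universe u v w

section Step

variable {L : Type v} [Field L] {E : Type u} [DivisionRing E] [Algebra L E]
  {N : Type w} [Field N] [Algebra L N]

theorem dih_core (hcen : ∀ x : E, (∀ y, y * x = x * y) → ∃ l : L, algebraMap L E l = x)
    (hmin2 : ∀ (x : E) (α β : L), NonC x → x * x ≠ α • x + β • 1)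
    [FiniteDimensional L N] (α : N) (Q : IntermediateField L N)
    (hQ : Module.finrank L Q = 2) (τ σ : N ≃ₐ[L] N) (hτα : τ α = α) (hττ : ∀ n, τ (τ n) = n)
    (hτQ : ∀ q ∈ Q, τ q ∈ Q) (δ : N) (hδQ : δ ∈ Q) (hτδ : τ δ ≠ δ)
    (hσQ : ∀ q ∈ Q, σ q = q) (hτσ : ∀ n, τ (σ n) = σ.symm (τ n)) (hσα : σ (σ α) ≠ α)
    (hdim : Module.finrank L L⟮α⟯ * 2 = Module.finrank L N) (hsup : L⟮α⟯ ⊔ Q = ⊤)
    (b : E) (hb : Polynomial.aeval b (minpoly L α) = 0) : ∃ K : Subfield E, CentFin K := by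
  classical
  have hα : IsIntegral L α := Algebra.IsIntegral.isIntegral α
  -- `δ` and its quadratic equation
  have hδL : (⟨δ, hδQ⟩ : Q) ∉ Set.range (algebraMap L Q) := by
    rintro ⟨l, hl⟩
    apply hτδ
    have h1 : algebraMap L N l = δ := congrArg Subtype.val hl
    rw [← h1, AlgEquiv.commutes]
  obtain ⟨bs, h0, h1⟩ := quad_basis hQ (⟨δ, hδQ⟩ : Q) hδL
  -- the conjugation of `Q`
  let τQ : Q →ₐ[L] Q := ((τ : N →ₐ[L] N).comp Q.val).codRestrict Q.toSubalgebra
    (fun q => hτQ q q.2)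
  have hτQv : ∀ q : Q, ((τQ q : Q) : N) = τ q := fun q => rfl
  have hτQ2 : ∀ q : Q, τQ (τQ q) = q := fun q => Subtype.ext (hττ q)
  -- fixed points of `τQ`
  have hfixL : ∀ q : Q, τQ q = q → ∃ l : L, algebraMap L Q l = q := by
    intro q hq
    have h2 := bs.sum_repr q
    rw [Fin.sum_univ_two, h0, h1] at h2
    have h3 : bs.repr q 1 = 0 := by
      by_contra hne
      have h4 : τQ ((bs.repr q) 0 • (1 : Q) + (bs.repr q) 1 • (⟨δ, hδQ⟩ : Q)) =
          (bs.repr q) 0 • (1 : Q) + (bs.repr q) 1 • (⟨δ, hδQ⟩ : Q) := by rw [h2, hq]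
      rw [map_add, map_smul, map_smul, map_one, add_right_inj] at h4
      have h5 := smul_right_injective Q hne h4
      exact hτδ (congrArg Subtype.val h5)
    refine ⟨(bs.repr q) 0, ?_⟩
    rw [h3, zero_smul, add_zero] at h2
    rw [Algebra.algebraMap_eq_smul_one]
    exact h2
  obtain ⟨t, ht⟩ := hfixL ((⟨δ, hδQ⟩ : Q) + τQ ⟨δ, hδQ⟩) (by
    rw [map_add, hτQ2, add_comm])
  obtain ⟨d, hd⟩ := hfixL (-((⟨δ, hδQ⟩ : Q) * τQ ⟨δ, hδQ⟩)) (by
    rw [map_neg, map_mul, hτQ2, mul_comm])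
  have hτb : τQ (bs 1) = t • 1 - bs 1 := by
    rw [h1, ← Algebra.algebraMap_eq_smul_one, ht, add_sub_cancel_left]
  have hquad : bs 1 * bs 1 = t • bs 1 + d • 1 := by
    have e : τQ (bs 1) = t • 1 - bs 1 := hτb
    have hd' : d • (1 : Q) = -(bs 1 * τQ (bs 1)) := by
      rw [h1, ← Algebra.algebraMap_eq_smul_one, hd]
    rw [hd', e, mul_sub, mul_smul_comm, mul_one]
    abel
  have hτ1 : τQ (bs 1) ≠ bs 1 := by
    rw [h1]
    intro h
    exact hτδ (congrArg Subtype.val h)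
  -- no root in `E`
  have hE : ∀ u : E, u * u ≠ t • u + d • 1 := by
    intro u hu
    have hnc : ¬ NonC u := fun h => hmin2 u t d h hu
    obtain ⟨l, hl⟩ := hcen u (by
      intro y
      by_contra hne
      exact hnc ⟨y, hne⟩)
    -- `l` would be a root in `L`
    have h2 : algebraMap L E (l * l) = algebraMap L E (t * l + d) := by
      rw [map_mul, map_add, map_mul, hl, hu, Algebra.smul_def, Algebra.smul_def, mul_one]
    have h3 : l * l = t * l + d := (algebraMap L E).injective h2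
    have h4 : (bs 1 - algebraMap L Q l) * (bs 1 + algebraMap L Q l - algebraMap L Q t) = 0 := by
      have h5 : algebraMap L Q l * algebraMap L Q l =
          algebraMap L Q t * algebraMap L Q l + algebraMap L Q d := by
        rw [← map_mul, h3, map_add, map_mul]
      have h6 : bs 1 * bs 1 = algebraMap L Q t * bs 1 + algebraMap L Q d := by
        rw [hquad, Algebra.smul_def, Algebra.smul_def, mul_one]
      linear_combination h6 - h5
    rcases mul_eq_zero.1 h4 with h5 | h5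
    · apply hδL
      exact ⟨l, by rw [← h1]; exact (sub_eq_zero.1 h5).symm⟩
    · apply hδL
      refine ⟨t - l, ?_⟩
      rw [map_sub, ← h1]
      linear_combination -h5
  -- the ring
  have hnt : Nontrivial (E ⊗[L] Q) := by
    refine ⟨⟨1, 0, fun h => ?_⟩⟩
    have h2 : (1 : E) ⊗ₜ[L] (1 : Q) + (0 : E) ⊗ₜ bs 1 = 0 := by
      rw [TensorProduct.zero_tmul, add_zero]
      exact h
    exact one_ne_zero (ten_zero bs h0 _ _ h2).1
  -- the map `L(α) → E`
  obtain ⟨j, hj⟩ : ∃ j : L⟮α⟯ →ₐ[L] E, j (IntermediateField.AdjoinSimple.gen L α) = b := by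
    have hpb := IntermediateField.adjoin.powerBasis_gen hα
    have hb2 : Polynomial.aeval b (minpoly L (IntermediateField.adjoin.powerBasis hα).gen) = 0 := by
      rw [hpb, IntermediateField.minpoly_gen]
      exact hb
    refine ⟨(IntermediateField.adjoin.powerBasis hα).lift b hb2, ?_⟩
    rw [← hpb]
    exact PowerBasis.lift_gen _ _ _
  -- `L(α) ⊗ Q = N`
  have hbij : Function.Bijective
      (Algebra.TensorProduct.productMap (L⟮α⟯.val) Q.val : L⟮α⟯ ⊗[L] Q →ₐ[L] N) := by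
    have hsurj : Function.Surjective
        (Algebra.TensorProduct.productMap (L⟮α⟯.val) Q.val : L⟮α⟯ ⊗[L] Q →ₐ[L] N) := by
      rw [← AlgHom.range_eq_top, Algebra.TensorProduct.productMap_range]
      have h2 := congrArg IntermediateField.toSubalgebra hsup
      rw [IntermediateField.sup_toSubalgebra_of_left, IntermediateField.top_toSubalgebra] at h2
      rw [IntermediateField.range_val, IntermediateField.range_val]
      exact h2
    refine ⟨?_, hsurj⟩
    have hfin : Module.finrank L (L⟮α⟯ ⊗[L] Q) = Module.finrank L N := by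
      rw [Module.finrank_tensorProduct, hQ, hdim]
    exact (LinearMap.injective_iff_surjective_of_finrank_eq_finrank
      (f := (Algebra.TensorProduct.productMap (L⟮α⟯.val) Q.val).toLinearMap) hfin).2 hsurj
  let pm : L⟮α⟯ ⊗[L] Q ≃ₐ[L] N := AlgEquiv.ofBijective _ hbij
  let Φ : N →ₐ[L] E ⊗[L] Q :=
    (Algebra.TensorProduct.map j (AlgHom.id L Q)).comp (pm.symm : N →ₐ[L] L⟮α⟯ ⊗[L] Q)
  have hΦpm : ∀ (x : L⟮α⟯) (q : Q), Φ ((x : N) * (q : N)) = j x ⊗ₜ q := by
    intro x q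
    have h2 : pm (x ⊗ₜ q) = (x : N) * (q : N) := rfl
    rw [← h2]
    change (Algebra.TensorProduct.map j (AlgHom.id L Q)) (pm.symm (pm (x ⊗ₜ q))) = _
    rw [AlgEquiv.symm_apply_apply, Algebra.TensorProduct.map_tmul, AlgHom.id_apply]
  have hΦM : ∀ x : L⟮α⟯, Φ (x : N) = j x ⊗ₜ 1 := by
    intro x
    have := hΦpm x 1
    rwa [IntermediateField.coe_one, mul_one] at this
  have hΦQ : ∀ q : Q, Φ (q : N) = 1 ⊗ₜ q := by
    intro q
    have := hΦpm 1 q
    rwa [IntermediateField.coe_one, one_mul, map_one] at this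
  have hΦα : Φ α = b ⊗ₜ 1 := by
    rw [← hj, ← hΦM, IntermediateField.AdjoinSimple.coe_gen]
  -- induction over `N`
  have hind : ∀ P : N → Prop, (∀ (x : L⟮α⟯) (q : Q), P ((x : N) * (q : N))) →
      (∀ n n', P n → P n' → P (n + n')) → P 0 → ∀ n, P n := by
    intro P hP hadd hz n
    obtain ⟨r, rfl⟩ := pm.surjective n
    induction r using TensorProduct.induction_on with
    | zero => rw [map_zero]; exact hz
    | tmul x q => exact hP x q
    | add x y hx hy => rw [map_add]; exact hadd _ _ hx hy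
  -- the conjugation of the ring
  let τR : E ⊗[L] Q →ₐ[L] E ⊗[L] Q := Algebra.TensorProduct.map (AlgHom.id L E) τQ
  have hτR : ∀ (e : E) (q : Q), τR (e ⊗ₜ q) = e ⊗ₜ τQ q := fun e q => rfl
  have hτR2 : ∀ r, τR (τR r) = r := by
    intro r
    induction r using TensorProduct.induction_on with
    | zero => rw [map_zero, map_zero]
    | tmul e q => rw [hτR, hτR, hτQ2]
    | add x y hx hy => rw [map_add, map_add, hx, hy]
  have hτM0 : ∀ x ∈ L⟮α⟯, τ x = x := by
    intro x hx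
    induction hx using IntermediateField.adjoin_induction with
    | mem x hx => rw [Set.mem_singleton_iff.1 hx]; exact hτα
    | algebraMap l => exact τ.commutes l
    | add x y _ _ hx hy => rw [map_add, hx, hy]
    | inv x _ hx => rw [map_inv₀, hx]
    | mul x y _ _ hx hy => rw [map_mul, hx, hy]
  have hτM : ∀ x : L⟮α⟯, τ (x : N) = x := fun x => hτM0 x x.2
  have hτΦ : ∀ n, τR (Φ n) = Φ (τ n) := by
    apply hind
    · intro x q
      rw [hΦpm, hτR, map_mul, hτM, ← hτQv, hΦpm]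
    · intro n n' hn hn'
      rw [map_add, map_add, map_add, map_add, hn, hn']
    · rw [map_zero, map_zero, map_zero, map_zero]
  -- the twist
  have hminb : minpoly L b = minpoly L α := by
    symm
    exact minpoly.eq_of_irreducible_of_monic (minpoly.irreducible hα) hb (minpoly.monic hα)
  have hbint : IsIntegral L b := ⟨minpoly L α, minpoly.monic hα, hb⟩
  obtain ⟨y, hy0, hy⟩ := exists_twist hcen bs h0 b hbint (Φ (σ α)) (by
    rw [hminb, Polynomial.aeval_algHom_apply, Polynomial.aeval_algHom_apply, minpoly.aeval,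
      map_zero, map_zero])
  have hyM0 : ∀ x ∈ L⟮α⟯, y * Φ x = Φ (σ x) * y := by
    intro x hx
    induction hx using IntermediateField.adjoin_induction with
    | mem x hx =>
      rw [Set.mem_singleton_iff.1 hx, hΦα]
      exact hy.symm
    | algebraMap l =>
      rw [AlgEquiv.commutes, AlgHom.commutes]
      exact (Algebra.commutes l y).symm
    | add x x' _ _ hx hx' =>
      rw [map_add, map_add, map_add, mul_add, add_mul, hx, hx']
    | inv x _ hx =>
      by_cases hx0 : x = 0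
      · rw [hx0, inv_zero, map_zero, map_zero, map_zero, mul_zero, zero_mul]
      have e1' : Φ x * Φ x⁻¹ = 1 := by
        rw [← map_mul, mul_inv_cancel₀ hx0]
        exact Φ.toRingHom.map_one
      have e2 : Φ (σ x⁻¹) * Φ (σ x) = 1 := by
        rw [← map_mul, ← map_mul, inv_mul_cancel₀ hx0]
        exact (congrArg Φ (map_one σ)).trans Φ.toRingHom.map_one
      calc y * Φ x⁻¹ = (Φ (σ x⁻¹) * Φ (σ x)) * (y * Φ x⁻¹) := by rw [e2, one_mul]
        _ = Φ (σ x⁻¹) * ((Φ (σ x) * y) * Φ x⁻¹) := by simp only [mul_assoc]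
        _ = Φ (σ x⁻¹) * ((y * Φ x) * Φ x⁻¹) := by rw [hx]
        _ = Φ (σ x⁻¹) * y := by rw [mul_assoc y, e1', mul_one]
    | mul x x' _ _ hx hx' =>
      rw [map_mul, map_mul, map_mul, ← mul_assoc, hx, mul_assoc, hx', mul_assoc]
  have hyM : ∀ x : L⟮α⟯, y * Φ (x : N) = Φ (σ (x : N)) * y := fun x => hyM0 x x.2
  have hyN : ∀ n, y * Φ n = Φ (σ n) * y := by
    apply hind
    · intro x q
      rw [map_mul, map_mul, map_mul, ← mul_assoc, hyM, hσQ q q.2, hΦQ, mul_assoc, mul_assoc]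
      congr 1
      -- `1 ⊗ q` is central
      have hcq : ∀ r : E ⊗[L] Q, r * ((1 : E) ⊗ₜ q) = ((1 : E) ⊗ₜ q) * r := by
        intro r
        induction r using TensorProduct.induction_on with
        | zero => rw [zero_mul, mul_zero]
        | tmul e q' =>
          rw [Algebra.TensorProduct.tmul_mul_tmul, Algebra.TensorProduct.tmul_mul_tmul, mul_one,
            one_mul, mul_comm]
        | add x y hx hy => rw [add_mul, mul_add, hx, hy]
      exact hcq y
    · intro n n' hn hn'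
      rw [map_add, map_add, map_add, mul_add, add_mul, hn, hn']
    · rw [map_zero, map_zero, map_zero, mul_zero, zero_mul]
  obtain ⟨yu, hyu⟩ := ten_unit bs h0 t d hquad hE y hy0
  -- `c = τ(y) y⁻¹`
  let cu : (E ⊗[L] Q)ˣ := Units.map (τR : E ⊗[L] Q →* E ⊗[L] Q) yu * yu⁻¹
  have hcu : (cu : E ⊗[L] Q) = τR y * ((yu⁻¹ : (E ⊗[L] Q)ˣ) : E ⊗[L] Q) := by
    rw [← hyu]
    rfl
  have hyu' : ∀ n, ((yu⁻¹ : (E ⊗[L] Q)ˣ) : E ⊗[L] Q) * Φ n =
      Φ (σ.symm n) * ((yu⁻¹ : (E ⊗[L] Q)ˣ) : E ⊗[L] Q) := by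
    intro n
    have h2 := hyN (σ.symm n)
    rw [AlgEquiv.apply_symm_apply, ← hyu] at h2
    calc ((yu⁻¹ : (E ⊗[L] Q)ˣ) : E ⊗[L] Q) * Φ n
        = ((yu⁻¹ : (E ⊗[L] Q)ˣ) : E ⊗[L] Q) * (Φ n * (yu : E ⊗[L] Q)) *
            ((yu⁻¹ : (E ⊗[L] Q)ˣ) : E ⊗[L] Q) := by
          rw [mul_assoc, mul_assoc, Units.mul_inv, mul_one]
      _ = ((yu⁻¹ : (E ⊗[L] Q)ˣ) : E ⊗[L] Q) * ((yu : E ⊗[L] Q) * Φ (σ.symm n)) *
            ((yu⁻¹ : (E ⊗[L] Q)ˣ) : E ⊗[L] Q) := by rw [h2]
      _ = _ := by rw [← mul_assoc _ (yu : E ⊗[L] Q), Units.inv_mul, one_mul]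
  have hτy : ∀ n, τR y * Φ n = Φ (σ.symm n) * τR y := by
    intro n
    have h2 := congrArg τR (hyN (τ n))
    rw [map_mul, map_mul, hτΦ, hτΦ, hττ, hτσ, hττ] at h2
    exact h2
  have hcΦ : ∀ n, (cu : E ⊗[L] Q) * Φ n = Φ (σ.symm (σ.symm n)) * cu := by
    intro n
    rw [hcu, mul_assoc, hyu', ← mul_assoc, hτy, mul_assoc]
  have hτc : τR (cu : E ⊗[L] Q) = ((cu⁻¹ : (E ⊗[L] Q)ˣ) : E ⊗[L] Q) := by
    have h2 : (cu⁻¹ : (E ⊗[L] Q)ˣ) = yu * (Units.map (τR : E ⊗[L] Q →* E ⊗[L] Q) yu)⁻¹ := by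
      rw [mul_inv_rev, inv_inv]
    rw [h2, hcu, map_mul, hτR2, Units.val_mul, hyu, ← map_inv]
    rfl
  -- apply the bracket construction
  let ρ : N ≃+* N := ((σ⁻¹ * σ⁻¹ : N ≃ₐ[L] N) : N ≃+* N)
  have hρ : ∀ n, ρ n = σ.symm (σ.symm n) := fun n => rfl
  obtain ⟨m, hm0, hm⟩ : ∃ m : ℕ, 0 < m ∧ ρ ^ m = 1 := by
    have h2 : IsOfFinOrder (σ⁻¹ * σ⁻¹ : N ≃ₐ[L] N) := isOfFinOrder_of_finite _
    obtain ⟨m, hm0, hm⟩ := isOfFinOrder_iff_pow_eq_one.1 h2
    refine ⟨m, hm0, ?_⟩
    ext n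
    have h3 : ∀ k : ℕ, ∀ n, (ρ ^ k) n = ((σ⁻¹ * σ⁻¹ : N ≃ₐ[L] N) ^ k) n := by
      intro k
      induction k with
      | zero => intro n; rfl
      | succ k ih =>
        intro n
        rw [pow_succ, pow_succ, RingAut.mul_apply, AlgEquiv.mul_apply, ih]
        rfl
    rw [h3, hm]
    rfl
  let B := Module.finBasis L N
  refine bracket_case (R := E ⊗[L] Q) (N := N)
    (Algebra.TensorProduct.includeLeft : E →ₐ[L] E ⊗[L] Q).toRingHom τR.toRingHom ?_ ?_
    Φ.toRingHom ((τ : N →ₐ[L] N) : N →+* N) ρ cu hτΦ hτc hcΦ hττ ?_ ⟨δ, hτδ⟩ m hm0 hm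
    (Module.finrank L N) B ?_ α hτα ?_ b hΦα.symm
  · intro e
    change τR (e ⊗ₜ 1) = e ⊗ₜ 1
    rw [hτR, map_one]
  · intro r hr
    obtain ⟨e, he⟩ := ten_fixed bs h0 t τQ hτb hτ1 r hr
    exact ⟨e, he.symm⟩
  · intro n
    change τ (σ.symm (σ.symm n)) = ρ.symm (τ n)
    have h2 : ∀ n, τ (σ.symm n) = σ (τ n) := by
      intro n
      have h3 := hτσ (σ.symm n)
      rw [AlgEquiv.apply_symm_apply] at h3
      rw [h3, AlgEquiv.apply_symm_apply]
    rw [h2, h2]
    rfl
  · intro n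
    refine ⟨fun i => algebraMap L E (B.repr n i), fun i x => (Algebra.commutes _ _).symm, ?_⟩
    have h2 := B.sum_repr n
    change Φ n = ∑ i, (algebraMap L E (B.repr n i) ⊗ₜ[L] (1 : Q)) * Φ (B i)
    calc Φ n = Φ (∑ i, B.repr n i • B i) := by rw [h2]
      _ = ∑ i, B.repr n i • Φ (B i) := by
          rw [map_sum]
          exact Finset.sum_congr rfl fun i _ => map_smul _ _ _
      _ = _ := Finset.sum_congr rfl fun i _ => by
          have hsm : ∀ (l : L) (r : E ⊗[L] Q), l • r = (algebraMap L E l ⊗ₜ[L] (1 : Q)) * r := by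
            intro l r
            induction r using TensorProduct.induction_on with
            | zero => rw [smul_zero, mul_zero]
            | tmul e q =>
              rw [TensorProduct.smul_tmul', Algebra.TensorProduct.tmul_mul_tmul, one_mul,
                Algebra.smul_def]
            | add x y hx hy => rw [smul_add, mul_add, hx, hy]
          exact hsm _ _
  · change σ.symm (σ.symm α) ≠ α
    intro h
    apply hσα
    have h2 : σ.symm α = σ α := by rw [← h, AlgEquiv.apply_symm_apply, h]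
    rw [← h2, AlgEquiv.apply_symm_apply]

end Step

end Pool.Agent.Helper78.DR
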