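import Pool.Agent.Helper78.DR.Dih5

/-!
# The dihedral step: Galois theory
-/

set_option autoImplicit false

open scoped TensorProduct IntermediateField

namespace Pool.Agent.Helper78.DR

universe u v w

section GroupTheory

variable {G : Type w} [Group G] [Finite G]

/-- the normal complement -/
theorem exists_complement (n : ℕ) (hn : Odd n) (hG : Nat.card G = 2 * n) (H : Subgroup G)
    (hH : Nat.card H = 2) : ∃ C : Subgroup G, C.Normal ∧ C ⊓ H = ⊥ ∧ C ⊔ H = ⊤ ∧
      Nat.card C = n := by
  have hn0 : n ≠ 0 := by
    rintro rfl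
    exact absurd hn (by decide)
  have hfact : Fact (Nat.Prime 2) := ⟨Nat.prime_two⟩
  have hfac : (Nat.card G).factorization 2 = 1 := by
    rw [hG, Nat.factorization_mul (by norm_num) hn0, Finsupp.add_apply,
      Nat.Prime.factorization_self Nat.prime_two,
      Nat.factorization_eq_zero_of_not_dvd (by rw [← even_iff_two_dvd]; exact Nat.not_even_iff_odd.2 hn)]
  let P : Sylow 2 G := Sylow.ofCard H (by rw [hH, hfac, pow_one])
  have hPH : (P : Subgroup G) = H := Sylow.coe_ofCard _ _
  have hmin : (Nat.card G).minFac = 2 := by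
    rw [Nat.minFac_eq_two_iff, hG]
    exact Dvd.intro _ rfl
  have hcyc : IsCyclic ↥(P : Subgroup G) := by
    apply isCyclic_of_prime_card (p := 2)
    rw [hPH, hH]
  have hle := IsCyclic.normalizer_le_centralizer hmin hcyc
  have hcomp := MonoidHom.ker_transferSylow_isComplement' P hle
  refine ⟨(MonoidHom.transferSylow P hle).ker, inferInstance, ?_, ?_, ?_⟩
  · rw [← hPH]
    exact hcomp.disjoint.eq_bot
  · rw [← hPH]
    exact hcomp.sup_eq_top
  · have h1 := hcomp.card_mul_card
    have h2 : Nat.card ↥(P : Subgroup G) = 2 := by rw [hPH, hH]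
    rw [h2, hG] at h1
    omega

end GroupTheory

section Galois

variable {L : Type v} [Field L] {E : Type u} [DivisionRing E] [Algebra L E]
  {N : Type w} [Field N] [Algebra L N]

/-- the Galois case: a second root -/
theorem second_root (hcen : ∀ x : E, (∀ y, y * x = x * y) → ∃ l : L, algebraMap L E l = x)
    (b : E) (hb : IsIntegral L b) (q : Polynomial L)
    (hq : ∀ p : Polynomial L, Polynomial.aeval b p = 0 →
      Polynomial.aeval (Polynomial.aeval b q) p = 0)
    (hqb : Polynomial.aeval b q ≠ b) : ∃ K : Subfield E, CentFin K := by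
  classical
  -- the inclusion of `L` in the center
  let φ : L →+* Subring.center E :=
    (algebraMap L E).codRestrict (Subring.center E) (fun l => by
      rw [Subring.mem_center_iff]
      intro x
      exact (Algebra.commutes l x).symm)
  have hφ : ∀ l, ((φ l : Subring.center E) : E) = algebraMap L E l := fun l => rfl
  have hφs : Function.Surjective φ := by
    rintro ⟨z, hz⟩
    obtain ⟨l, hl⟩ := hcen z (Subring.mem_center_iff.1 hz)
    exact ⟨l, Subtype.ext hl⟩
  have hφi : Function.Injective φ := φ.injective
  have hev : ∀ (x : E) (p : Polynomial L),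
      Polynomial.aeval x (p.map φ) = Polynomial.aeval x p := by
    intro x p
    rw [Polynomial.aeval_def, Polynomial.aeval_def, Polynomial.eval₂_map]
    rfl
  have hint : IsIntegral (Subring.center E) b := by
    obtain ⟨p, hp, hpb⟩ := hb
    refine ⟨p.map φ, hp.map φ, ?_⟩
    have := hev b p
    rw [Polynomial.aeval_def, Polynomial.aeval_def] at this
    rw [this]
    exact hpb
  obtain ⟨p', hp'⟩ := Polynomial.map_surjective φ hφs (minpoly (Subring.center E) b)
  obtain ⟨w, hw0, hw⟩ := conj_root b (Polynomial.aeval b q) hint (by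
    rw [← hp', hev]
    apply hq
    rw [← hev, hp', minpoly.aeval])
  refine aut_case b w hint ?_ ?_
  · intro h
    rw [h] at hw
    exact hqb (mul_right_cancel₀ hw0 hw)
  · rw [← hw, mul_assoc, mul_inv_cancel₀ hw0, mul_one, ← hev]
    exact Polynomial.aeval_mem_adjoin_singleton _ _

theorem dih_gal (hcen : ∀ x : E, (∀ y, y * x = x * y) → ∃ l : L, algebraMap L E l = x)
    (f : Polynomial L) (hirr : Irreducible f) (hsep : f.Separable)
    (hdeg : 1 < f.natDegree) (hgal : Nat.card f.Gal ≤ 2 * f.natDegree) (b : E)
    (hb : Polynomial.aeval b f = 0) : ∃ K : Subfield E, CentFin K := by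
  classical
  by_cases hmin2 : ∀ (x : E) (α β : L), NonC x → x * x ≠ α • x + β • 1
  swap
  · push Not at hmin2
    obtain ⟨x, α, β, hx, h2⟩ := hmin2
    exact deg_two α β x hx h2
  have hG : IsGalois L f.SplittingField := IsGalois.of_separable_splitting_field hsep
  have hcard : Nat.card (f.SplittingField ≃ₐ[L] f.SplittingField) =
      Module.finrank L f.SplittingField := IsGalois.card_aut_eq_finrank _ _
  have hcard' : Nat.card (f.SplittingField ≃ₐ[L] f.SplittingField) ≤ 2 * f.natDegree := hgal
  -- a root
  have hdegne : (f.map (algebraMap L f.SplittingField)).degree ≠ 0 := by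
    rw [Polynomial.degree_map]
    exact (Polynomial.degree_pos_of_irreducible hirr).ne'
  obtain ⟨α, hα0⟩ := (Polynomial.SplittingField.splits f).exists_eval_eq_zero hdegne
  have hα : Polynomial.aeval α f = 0 := by
    rwa [Polynomial.eval_map_algebraMap] at hα0
  have hαint : IsIntegral L α := Algebra.IsIntegral.isIntegral α
  have hmin := minpoly.eq_of_irreducible hirr hα
  have hminb : Polynomial.aeval b (minpoly L α) = 0 := by
    rw [← hmin, map_mul, hb, zero_mul]
  have hbint : IsIntegral L b := ⟨minpoly L α, minpoly.monic hαint, hminb⟩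
  have hminbb : minpoly L b = minpoly L α :=
    (minpoly.eq_of_irreducible_of_monic (minpoly.irreducible hαint) hminb
      (minpoly.monic hαint)).symm
  have hndeg : (minpoly L α).natDegree = f.natDegree := by
    rw [← hmin, Polynomial.natDegree_mul_C]
    exact inv_ne_zero (Polynomial.leadingCoeff_ne_zero.2 hirr.ne_zero)
  have hM : Module.finrank L L⟮α⟯ = f.natDegree := by
    rw [IntermediateField.adjoin.finrank hαint, hndeg]
  have htower := Module.finrank_mul_finrank L L⟮α⟯ f.SplittingField
  rw [hM] at htower
  have hpos : 0 < Module.finrank L⟮α⟯ f.SplittingField := Module.finrank_pos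
  -- roots are images of `α`
  have htrans : ∀ r ∈ f.rootSet f.SplittingField,
      ∃ g : f.SplittingField ≃ₐ[L] f.SplittingField, g α = r := by
    intro r hr
    have hr' : Polynomial.aeval r f = 0 := (Polynomial.mem_rootSet.1 hr).2
    have hmr := minpoly.eq_of_irreducible hirr hr'
    exact minpoly.exists_algEquiv_of_root (Algebra.IsAlgebraic.isAlgebraic r) (by
      rw [← hmr, map_mul, hα, zero_mul])
  have hnotall : Module.finrank L⟮α⟯ f.SplittingField ≠ 1 →
      ∃ g : f.SplittingField ≃ₐ[L] f.SplittingField, g α ∉ L⟮α⟯ := by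
    intro hne
    by_contra hcon
    push Not at hcon
    apply hne
    have htop : L⟮α⟯ = ⊤ := by
      have h1 := Polynomial.IsSplittingField.adjoin_rootSet f.SplittingField f
      have h2 : Algebra.adjoin L (f.rootSet f.SplittingField) ≤ L⟮α⟯.toSubalgebra := by
        apply Algebra.adjoin_le
        intro r hr
        obtain ⟨g, rfl⟩ := htrans r hr
        exact hcon g
      rw [h1] at h2
      rw [eq_top_iff]
      intro x _
      exact h2 Algebra.mem_top
    have h3 : Module.finrank L L⟮α⟯ = Module.finrank L f.SplittingField := by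
      rw [htop]
      exact IntermediateField.finrank_top'
    rw [hM, ← htower] at h3
    have h4 : 0 < f.natDegree := by omega
    exact Nat.eq_of_mul_eq_mul_left h4 (by omega)
  have hk : Module.finrank L⟮α⟯ f.SplittingField ≤ 2 := by
    rw [hcard, ← htower, mul_comm] at hcard'
    exact Nat.le_of_mul_le_mul_right hcard' (by omega)
  have hsecond : ∀ g : f.SplittingField ≃ₐ[L] f.SplittingField, g α ∈ L⟮α⟯ → g α ≠ α →
      ∃ K : Subfield E, CentFin K := by
    intro g hgM hgα
    obtain ⟨q, hq⟩ : ∃ q : Polynomial L, Polynomial.aeval α q = g α := by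
      have h1 : g α ∈ L⟮α⟯.toSubalgebra := hgM
      rw [IntermediateField.adjoin_simple_toSubalgebra_of_isAlgebraic hαint.isAlgebraic,
        Algebra.adjoin_singleton_eq_range_aeval] at h1
      exact h1
    refine second_root hcen b hbint q ?_ ?_
    · intro p hp
      obtain ⟨p₁, rfl⟩ := minpoly.dvd L b hp
      have h1 : Polynomial.aeval (Polynomial.aeval b q) (minpoly L b) = 0 := by
        -- `minpoly ∣ minpoly.comp q`
        have h2 : Polynomial.aeval α ((minpoly L α).comp q) = 0 := by
          rw [Polynomial.aeval_comp, hq, Polynomial.aeval_algHom_apply, minpoly.aeval, map_zero]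
        obtain ⟨p₂, hp₂⟩ := minpoly.dvd L α h2
        rw [hminbb, ← Polynomial.aeval_comp, hp₂, map_mul, hminb, zero_mul]
      rw [map_mul, h1, zero_mul]
    · intro h
      have h2 : Polynomial.aeval b (q - Polynomial.X) = 0 := by
        rw [map_sub, h, Polynomial.aeval_X, sub_self]
      obtain ⟨p₂, hp₂⟩ := minpoly.dvd L b h2
      have h3 : Polynomial.aeval α (q - Polynomial.X) = 0 := by
        rw [hp₂, hminbb, map_mul, minpoly.aeval, zero_mul]
      rw [map_sub, hq, Polynomial.aeval_X, sub_eq_zero] at h3
      exact hgα h3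
  by_cases hk1 : Module.finrank L⟮α⟯ f.SplittingField = 1
  · -- Galois
    rw [hk1, mul_one] at htower
    have hmtop : L⟮α⟯ = ⊤ := by
      apply IntermediateField.eq_of_le_of_finrank_eq le_top
      rw [hM, IntermediateField.finrank_top', htower]
    have hcard2 : 1 < Nat.card (f.SplittingField ≃ₐ[L] f.SplittingField) := by
      rw [hcard, ← htower]
      exact hdeg
    obtain ⟨g, hg⟩ : ∃ g : f.SplittingField ≃ₐ[L] f.SplittingField, g ≠ 1 := by
      have hfin : Finite (f.SplittingField ≃ₐ[L] f.SplittingField) := inferInstance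
      have : Nontrivial (f.SplittingField ≃ₐ[L] f.SplittingField) :=
        Finite.one_lt_card_iff_nontrivial.1 hcard2
      exact exists_ne 1
    have hgα : g α ≠ α := by
      intro h
      apply hg
      ext x
      have hx : x ∈ L⟮α⟯ := by rw [hmtop]; exact IntermediateField.mem_top
      induction hx using IntermediateField.adjoin_induction with
      | mem x hx => rw [Set.mem_singleton_iff.1 hx]; exact h
      | algebraMap l => exact g.commutes l
      | add x y _ _ hx hy => rw [map_add, hx, hy]; rfl
      | inv x _ hx => rw [map_inv₀, hx]; rfl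
      | mul x y _ _ hx hy => rw [map_mul, hx, hy]; rfl
    exact hsecond g (by rw [hmtop]; exact IntermediateField.mem_top) hgα
  · have hk2 : Module.finrank L⟮α⟯ f.SplittingField = 2 := by omega
    rw [hk2] at htower
    obtain ⟨g₀, hg₀⟩ := hnotall hk1
    have hfin : Finite (f.SplittingField ≃ₐ[L] f.SplittingField) := inferInstance
    have hH : Nat.card L⟮α⟯.fixingSubgroup = 2 := by
      rw [IsGalois.card_fixingSubgroup_eq_finrank, hk2]
    have hcardG : Nat.card (f.SplittingField ≃ₐ[L] f.SplittingField) = 2 * f.natDegree := by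
      rw [hcard, ← htower, mul_comm]
    -- the involution
    obtain ⟨τ, hτH, hτ1⟩ : ∃ τ ∈ L⟮α⟯.fixingSubgroup, τ ≠ 1 := by
      by_contra hcon
      push Not at hcon
      have : L⟮α⟯.fixingSubgroup = ⊥ := (Subgroup.eq_bot_iff_forall _).2 hcon
      rw [this] at hH
      simp at hH
    have hτM : ∀ x ∈ L⟮α⟯, τ x = x := (IntermediateField.mem_fixingSubgroup_iff _ _).1 hτH
    have hτα : τ α = α := hτM α (IntermediateField.mem_adjoin_simple_self L α)
    have hττ : τ * τ = 1 := by
      have h1 : (⟨τ, hτH⟩ : L⟮α⟯.fixingSubgroup) ^ 2 = 1 := by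
        rw [← hH]
        exact pow_card_eq_one'
      have h2 := congrArg Subtype.val h1
      rwa [pow_two] at h2
    have hττ' : ∀ n, τ (τ n) = n := fun n => by
      have := DFunLike.congr_fun hττ n
      exact this
    have hinv : τ⁻¹ = τ := inv_eq_of_mul_eq_one_left hττ
    -- the two elements of the stabilizer
    have hHtwo : ∀ h ∈ L⟮α⟯.fixingSubgroup, h = 1 ∨ h = τ := by
      intro h hh
      by_contra hcon
      push Not at hcon
      have hs : ({1, ⟨τ, hτH⟩, ⟨h, hh⟩} : Finset L⟮α⟯.fixingSubgroup).card = 3 := by
        rw [Finset.card_eq_three]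
        refine ⟨1, ⟨τ, hτH⟩, ⟨h, hh⟩, ?_, ?_, ?_, rfl⟩
        · intro h1
          exact hτ1 (congrArg Subtype.val h1).symm
        · intro h1
          exact hcon.1 (congrArg Subtype.val h1).symm
        · intro h1
          exact hcon.2 (congrArg Subtype.val h1).symm
      have hfinH : Fintype L⟮α⟯.fixingSubgroup := Fintype.ofFinite _
      have := Finset.card_le_univ ({1, ⟨τ, hτH⟩, ⟨h, hh⟩} : Finset L⟮α⟯.fixingSubgroup)
      rw [hs, ← Nat.card_eq_fintype_card, hH] at this
      omega
    -- even degree: a second root
    by_cases hodd : Odd f.natDegree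
    swap
    · have hfact : Fact (Nat.Prime 2) := ⟨Nat.prime_two⟩
      have h1 := Sylow.card_normalizer_modEq_card (p := 2) (n := 1)
        (H := L⟮α⟯.fixingSubgroup) (by rw [hH, pow_one])
      have h2 : Nat.card (Subgroup.normalizer (L⟮α⟯.fixingSubgroup : Set (f.SplittingField ≃ₐ[L] f.SplittingField))) ≠ 2 := by
        intro h3
        rw [h3, hcardG] at h1
        obtain ⟨k, hk⟩ := Nat.not_odd_iff_even.1 hodd
        rw [hk] at h1
        unfold Nat.ModEq at h1
        omega
      obtain ⟨g, hgN, hgH⟩ : ∃ g ∈ Subgroup.normalizer (L⟮α⟯.fixingSubgroup : Set (f.SplittingField ≃ₐ[L] f.SplittingField)),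
          g ∉ L⟮α⟯.fixingSubgroup := by
        by_contra hcon
        push Not at hcon
        apply h2
        have h3 : Subgroup.normalizer (L⟮α⟯.fixingSubgroup : Set (f.SplittingField ≃ₐ[L] f.SplittingField)) = L⟮α⟯.fixingSubgroup :=
          le_antisymm hcon Subgroup.le_normalizer
        rw [h3, hH]
      have hgα : g α ≠ α := by
        intro h
        apply hgH
        rw [IntermediateField.mem_fixingSubgroup_iff]
        intro x hx
        induction hx using IntermediateField.adjoin_induction with
        | mem x hx => rw [Set.mem_singleton_iff.1 hx]; exact h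
        | algebraMap l => exact g.commutes l
        | add x y _ _ hx hy => rw [map_add, hx, hy]
        | inv x _ hx => rw [map_inv₀, hx]
        | mul x y _ _ hx hy => rw [map_mul, hx, hy]
      have hconj : g * τ * g⁻¹ = τ := by
        have h3 : g * τ * g⁻¹ ∈ L⟮α⟯.fixingSubgroup :=
          (Subgroup.mem_normalizer_iff.1 hgN τ).1 hτH
        rcases hHtwo _ h3 with h4 | h4
        · exfalso
          apply hτ1
          rw [mul_inv_eq_one] at h4
          exact mul_eq_left.1 h4
        · exact h4
      have hcomm : τ * g = g * τ := by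
        rw [mul_inv_eq_iff_eq_mul] at hconj
        exact hconj.symm
      apply hsecond g _ hgα
      rw [← IsGalois.fixedField_fixingSubgroup L⟮α⟯, IntermediateField.mem_fixedField_iff]
      intro h hh
      rcases hHtwo h hh with rfl | rfl
      · rfl
      · have h2 := DFunLike.congr_fun hcomm α
        change h (g α) = g (h α) at h2
        rw [h2, hτα]
    obtain ⟨C, hCn, hCH, hCH', hCcard⟩ := exists_complement f.natDegree hodd hcardG _ hH
    -- an element of `C` which does not commute with `τ`
    obtain ⟨g, hgC, hgτ⟩ : ∃ g ∈ C, τ * g ≠ g * τ := by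
      by_contra hcon
      push Not at hcon
      apply hg₀
      -- `τ` is central
      have hall : ∀ g : f.SplittingField ≃ₐ[L] f.SplittingField, τ * g = g * τ := by
        intro g
        have hg : g ∈ C ⊔ L⟮α⟯.fixingSubgroup := by rw [hCH']; exact Subgroup.mem_top g
        have hCn' := hCn
        rw [Subgroup.mem_sup_of_normal_left] at hg
        obtain ⟨c, hc, h, hh, rfl⟩ := hg
        rcases hHtwo h hh with rfl | rfl
        · rw [mul_one]; exact hcon c hc
        · rw [← mul_assoc, hcon c hc, mul_assoc]
      have h1 : g₀ α ∈ IntermediateField.fixedField L⟮α⟯.fixingSubgroup := by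
        rw [IntermediateField.mem_fixedField_iff]
        intro h hh
        rcases hHtwo h hh with rfl | rfl
        · rfl
        · have h2 := DFunLike.congr_fun (hall g₀) α
          change h (g₀ α) = g₀ (h α) at h2
          rw [h2, hτα]
      rwa [IsGalois.fixedField_fixingSubgroup] at h1
    -- the rotation
    obtain ⟨σ, hσ⟩ : ∃ σ, σ = τ * g * τ * g⁻¹ := ⟨_, rfl⟩
    have hσC : σ ∈ C := by
      rw [hσ]
      apply C.mul_mem _ (C.inv_mem hgC)
      have h1 := hCn.conj_mem g hgC τ
      rwa [hinv] at h1
    have hσ1 : σ ≠ 1 := by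
      intro h
      rw [hσ, mul_inv_eq_one] at h
      apply hgτ
      calc τ * g = τ * g * (τ * τ) := by rw [hττ, mul_one]
        _ = (τ * g * τ) * τ := by simp only [mul_assoc]
        _ = g * τ := by rw [h]
    have hτσ : τ * σ = σ⁻¹ * τ := by
      have h1 : σ⁻¹ = g * τ * g⁻¹ * τ := by
        rw [hσ]
        simp only [mul_inv_rev, inv_inv, hinv, mul_assoc]
      rw [h1, hσ]
      calc τ * (τ * g * τ * g⁻¹) = (τ * τ) * (g * τ * g⁻¹) := by simp only [mul_assoc]
        _ = g * τ * g⁻¹ * (τ * τ) := by rw [hττ, one_mul, mul_one]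
        _ = _ := by simp only [mul_assoc]
    have hσσα : σ (σ α) ≠ α := by
      intro h
      have h1 : σ * σ ∈ L⟮α⟯.fixingSubgroup := by
        rw [IntermediateField.mem_fixingSubgroup_iff]
        intro x hx
        induction hx using IntermediateField.adjoin_induction with
        | mem x hx => rw [Set.mem_singleton_iff.1 hx]; exact h
        | algebraMap l => exact (σ * σ).commutes l
        | add x y _ _ hx hy => rw [map_add, hx, hy]
        | inv x _ hx => rw [map_inv₀, hx]
        | mul x y _ _ hx hy => rw [map_mul, hx, hy]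
      have h2 : σ * σ ∈ C ⊓ L⟮α⟯.fixingSubgroup := ⟨C.mul_mem hσC hσC, h1⟩
      rw [hCH, Subgroup.mem_bot] at h2
      apply hσ1
      have h3 : (⟨σ, hσC⟩ : C) ^ f.natDegree = 1 := by
        rw [← hCcard]
        exact pow_card_eq_one'
      have h4 : σ ^ f.natDegree = 1 := congrArg Subtype.val h3
      obtain ⟨k, hk⟩ := hodd
      rw [hk, pow_succ, pow_mul, pow_two, h2, one_pow, one_mul] at h4
      exact h4
    -- the quadratic subfield
    have hQfix : (IntermediateField.fixedField C).fixingSubgroup = C :=
      IntermediateField.fixingSubgroup_fixedField C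
    have hQfin : Module.finrank L (IntermediateField.fixedField C) = 2 := by
      have h1 := Module.finrank_mul_finrank L (IntermediateField.fixedField C) f.SplittingField
      rw [IntermediateField.finrank_fixedField_eq_card, hCcard, ← htower, mul_comm] at h1
      exact Nat.eq_of_mul_eq_mul_left (by omega) h1
    obtain ⟨δ, hδ, hτδ⟩ : ∃ δ ∈ IntermediateField.fixedField C, τ δ ≠ δ := by
      by_contra hcon
      push Not at hcon
      have h1 : τ ∈ (IntermediateField.fixedField C).fixingSubgroup := by
        rw [IntermediateField.mem_fixingSubgroup_iff]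
        exact hcon
      rw [hQfix] at h1
      have h2 : τ ∈ C ⊓ L⟮α⟯.fixingSubgroup := ⟨h1, hτH⟩
      rw [hCH, Subgroup.mem_bot] at h2
      exact hτ1 h2
    refine dih_core hcen hmin2 α (IntermediateField.fixedField C) hQfin τ σ hτα hττ' ?_ δ hδ hτδ
      ?_ ?_ hσσα ?_ ?_ b hminb
    · intro q hq
      rw [IntermediateField.mem_fixedField_iff] at hq ⊢
      intro c hc
      have h1 := hCn.conj_mem c hc τ
      rw [hinv] at h1
      have h2 := hq _ h1
      have h3 : τ ((τ * c * τ) q) = c (τ q) := hττ' _
      rw [← h3, h2]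
    · intro q hq
      exact (IntermediateField.mem_fixedField_iff _ _).1 hq σ hσC
    · intro n
      exact DFunLike.congr_fun hτσ n
    · rw [hM]; exact htower
    · have h1 : (L⟮α⟯ ⊔ IntermediateField.fixedField C).fixingSubgroup = ⊥ := by
        rw [IntermediateField.fixingSubgroup_sup, hQfix, inf_comm, hCH]
      rw [← IsGalois.fixedField_fixingSubgroup (L⟮α⟯ ⊔ IntermediateField.fixedField C), h1,
        IntermediateField.fixedField_bot]

end Galois

end Pool.Agent.Helper78.DR
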