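import Pool.Agent.Helper78.DR.Dih6

/-!
# The dihedral step over a finite subfield
-/

set_option autoImplicit false

namespace Pool.Agent.Helper78.DR

universe u v

theorem main_dih {D : Type u} [DivisionRing D] {L : Type v} [Field L] (i : L →+* D)
    (hF : ∀ x : D, (∀ y, y * x = x * y) → ∃ l, i l = x)
    (hfin : ∃ s : Finset D, (∀ t ∈ s, ∃ l, i l = t) ∧
      ∀ l : L, ∃ c : D → D, (∀ t ∈ s, ∀ y, c t * y = y * c t) ∧ i l = ∑ t ∈ s, c t * t)
    (b : D) (hbL : ∀ l, b * i l = i l * b) (f : Polynomial L) (hirr : Irreducible f)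
    (hsep : f.Separable) (hdeg : 1 < f.natDegree)
    (hgal : Nat.card f.Gal ≤ 2 * f.natDegree) (hb : f.eval₂ i b = 0) :
    ∃ K : Subfield D, CentFin K := by
  classical
  -- the image of `L`
  let L₀ : Subfield D :=
    { carrier := Set.range i
      mul_mem' := by
        rintro _ _ ⟨x, rfl⟩ ⟨y, rfl⟩
        exact ⟨x * y, map_mul i x y⟩
      one_mem' := ⟨1, map_one i⟩
      add_mem' := by
        rintro _ _ ⟨x, rfl⟩ ⟨y, rfl⟩
        exact ⟨x + y, map_add i x y⟩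
      zero_mem' := ⟨0, map_zero i⟩
      neg_mem' := by
        rintro _ ⟨x, rfl⟩
        exact ⟨-x, map_neg i x⟩
      inv_mem' := by
        rintro _ ⟨x, rfl⟩
        exact ⟨x⁻¹, map_inv₀ i x⟩ }
  have hL₀ : ∀ x, x ∈ L₀ ↔ ∃ l, i l = x := fun x => Iff.rfl
  have hcomm : ∀ x ∈ L₀, ∀ y ∈ L₀, x * y = y * x := by
    rintro _ ⟨x, rfl⟩ _ ⟨y, rfl⟩
    rw [← map_mul, ← map_mul, mul_comm]
  have hbic := bic_of_fin L₀ hcomm hF (by
    obtain ⟨s, hs, hsp⟩ := hfin
    refine ⟨s, hs, ?_⟩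
    rintro _ ⟨l, rfl⟩
    exact hsp l)
  have hmem : ∀ l : L, i l ∈ Ce (L₀ : Set D) := by
    rintro l _ ⟨l', rfl⟩
    rw [← map_mul, ← map_mul, mul_comm]
  let iE : L →+* Ce (L₀ : Set D) := i.codRestrict (Ce (L₀ : Set D)).toSubring hmem
  have hiE : ∀ l, ((iE l : Ce (L₀ : Set D)) : D) = i l := fun l => rfl
  let _ : Algebra L (Ce (L₀ : Set D)) := iE.toAlgebra' (fun l x => by
    apply Subtype.ext
    change i l * (x : D) = (x : D) * i l
    exact (x.2 (i l) ⟨l, rfl⟩).symm)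
  have halg : ∀ l, algebraMap L (Ce (L₀ : Set D)) l = iE l := fun l => rfl
  have hbE : b ∈ Ce (L₀ : Set D) := by
    rintro _ ⟨l, rfl⟩
    exact hbL l
  apply centFin_map (Ce (L₀ : Set D))
  refine dih_gal (L := L) (E := Ce (L₀ : Set D)) ?_ f hirr hsep hdeg hgal ⟨b, hbE⟩ ?_
  · intro x hx
    have h1 : (x : D) ∈ L₀ := by
      apply hbic
      intro y hy
      have h2 := hx ⟨y, hy⟩
      exact (congrArg Subtype.val h2).symm
    obtain ⟨l, hl⟩ := h1
    exact ⟨l, Subtype.ext hl⟩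
  · apply Subtype.ext
    have h1 := Polynomial.hom_eval₂ f (algebraMap L (Ce (L₀ : Set D))) (Ce (L₀ : Set D)).subtype
      ⟨b, hbE⟩
    exact h1.trans hb

end Pool.Agent.Helper78.DR
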