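import Pool.Agent.Helper78.DR.Core

/-!
# The general theorem over a finite subfield
-/

set_option autoImplicit false

namespace Pool.Agent.Helper78.DR

universe u

variable {D : Type u} [DivisionRing D]

/-- the centralizer of a set -/
def Ce (S : Set D) : Subfield D where
  carrier := {x | ∀ s ∈ S, x * s = s * x}
  mul_mem' := by
    intro x y hx hy s hs
    rw [mul_assoc, hy s hs, ← mul_assoc, hx s hs, mul_assoc]
  one_mem' := by intro s _; simp
  add_mem' := by
    intro x y hx hy s hs
    rw [add_mul, mul_add, hx s hs, hy s hs]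
  zero_mem' := by intro s _; simp
  neg_mem' := by
    intro x hx s hs
    rw [neg_mul, mul_neg, hx s hs]
  inv_mem' := by
    intro x hx s hs
    exact (Commute.inv_left₀ (show Commute x s from hx s hs)).eq

theorem mem_Ce {S : Set D} {x : D} : x ∈ Ce S ↔ ∀ s ∈ S, x * s = s * x := Iff.rfl

/-- the inclusion of the center of a subdivision ring -/
def cInc (E : Subfield D) : Subring.center E →+* D :=
  E.subtype.comp (Subring.center E).subtype

theorem cInc_apply (E : Subfield D) (r : Subring.center E) : cInc E r = ((r : E) : D) := rfl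

theorem cInc_injective (E : Subfield D) : Function.Injective (cInc E) := by
  intro r s h
  exact Subtype.ext (Subtype.ext h)

theorem cInc_aeval (E : Subfield D) (a : E) (p : Polynomial (Subring.center E)) :
    ((Polynomial.aeval a p : E) : D) = Polynomial.eval (a : D) (p.map (cInc E)) := by
  rw [Polynomial.eval_map]
  exact Polynomial.hom_eval₂ p (Subring.center E).subtype E.subtype a

theorem cInc_mem (E L : Subfield D) (hL : ∀ r : Subring.center E, cInc E r ∈ L) (a : E)
    (ha : (a : D) ∈ L) (p : Polynomial (Subring.center E)) :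
    ((Polynomial.aeval a p : E) : D) ∈ L := by
  rw [cInc_aeval, Polynomial.eval_map, Polynomial.eval₂_eq_sum_range]
  exact sum_mem fun i _ => mul_mem (hL _) (pow_mem ha _)

/-- integrality passes to subdivision rings which contain the center -/
theorem integral_sub (E : Subfield D) (hE : ∀ x : D, (∀ y, y * x = x * y) → x ∈ E) (a : E)
    (ha : IsIntegral (Subring.center D) (a : D)) : IsIntegral (Subring.center E) a := by
  obtain ⟨p, hp, hpa⟩ := ha
  let φ : Subring.center D →+* Subring.center E :=
    { toFun := fun r => ⟨⟨r, hE r (Subring.mem_center_iff.1 r.2)⟩, by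
        rw [Subring.mem_center_iff]
        intro y
        exact Subtype.ext (Subring.mem_center_iff.1 r.2 y)⟩
      map_one' := rfl
      map_mul' := fun _ _ => rfl
      map_zero' := rfl
      map_add' := fun _ _ => rfl }
  refine ⟨p.map φ, hp.map φ, ?_⟩
  apply Subtype.ext
  have h := Polynomial.hom_eval₂ (p.map φ) (algebraMap (Subring.center E) E) E.subtype a
  have h2 : Polynomial.eval₂ (E.subtype.comp (algebraMap (Subring.center E) E)) (E.subtype a)
      (p.map φ) = Polynomial.eval₂ (algebraMap (Subring.center D) D) (a : D) p :=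
    Polynomial.eval₂_map _ _ _
  exact h.trans (h2.trans hpa)

/-- **Double centralizer theorem** for finite subfields. -/
theorem bic_of_fin (L : Subfield D) (hcomm : ∀ x ∈ L, ∀ y ∈ L, x * y = y * x)
    (hF : ∀ x : D, (∀ y, y * x = x * y) → x ∈ L)
    (hfin : ∃ s : Finset D, (∀ t ∈ s, t ∈ L) ∧
      ∀ x ∈ L, ∃ c : D → D, (∀ t ∈ s, ∀ y, c t * y = y * c t) ∧ x = ∑ t ∈ s, c t * t)
    (x : D) (hx : ∀ y, (∀ l ∈ L, y * l = l * y) → x * y = y * x) : x ∈ L := by
  classical
  obtain ⟨s, hs, hspan⟩ := hfin
  -- `L` as a subalgebra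
  let A : Subalgebra (Subring.center D) D :=
    { carrier := L
      mul_mem' := fun ha hb => mul_mem ha hb
      add_mem' := fun ha hb => add_mem ha hb
      algebraMap_mem' := fun r => hF _ (Subring.mem_center_iff.1 r.2) }
  have hA : A.toSubmodule.FG := by
    refine ⟨s, le_antisymm ?_ ?_⟩
    · rw [Submodule.span_le]
      intro t ht
      exact hs t ht
    · intro y hy
      obtain ⟨c, hc, rfl⟩ := hspan y hy
      refine Submodule.sum_mem _ fun t ht => ?_
      have : c t * t = (⟨c t, Subring.mem_center_iff.2 fun y => (hc t ht y).symm⟩ :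
          Subring.center D) • t := rfl
      rw [this]
      exact Submodule.smul_mem _ _ (Submodule.subset_span ht)
  have hint : ∀ a ∈ L, IsIntegral (Subring.center D) a := fun a ha =>
    IsIntegral.of_mem_of_fg A hA a ha
  have key : ∀ T : Finset D, (∀ t ∈ T, t ∈ L) → ∀ x : D,
      (∀ y, (∀ t ∈ T, y * t = t * y) → x * y = y * x) → x ∈ L := by
    intro T
    induction T using Finset.induction_on with
    | empty =>
      intro _ x hx
      exact hF x fun y => (hx y (by simp)).symm
    | insert a T _ ih =>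
      intro hT x hx
      have haL : a ∈ L := hT a (Finset.mem_insert_self _ _)
      have hTL : ∀ t ∈ T, t ∈ L := fun t ht => hT t (Finset.mem_insert_of_mem ht)
      have haE : a ∈ Ce (T : Set D) := fun t ht => hcomm a haL t (hTL t ht)
      have hxE : x ∈ Ce (T : Set D) := fun t ht =>
        hx t fun t' ht' => hcomm t (hTL t ht) t' (hT t' ht')
      have hcen : ∀ r : Subring.center (Ce (T : Set D)), cInc (Ce (T : Set D)) r ∈ L := by
        intro r
        apply ih hTL
        intro y hy
        have h1 := Subring.mem_center_iff.1 r.2 ⟨y, hy⟩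
        exact (congrArg Subtype.val h1).symm
      have hE : ∀ x : D, (∀ y, y * x = x * y) → x ∈ Ce (T : Set D) := fun x hx t _ => (hx t).symm
      obtain ⟨p, hp⟩ := dcc (⟨a, haE⟩ : Ce (T : Set D)) ⟨x, hxE⟩
        (integral_sub _ hE _ (hint a haL)) (by
          rintro ⟨c, hc⟩ hca
          apply Subtype.ext
          have hca' : c * a = a * c := congrArg Subtype.val hca
          apply hx c
          intro t ht
          rcases Finset.mem_insert.1 ht with rfl | ht
          · exact hca'
          · exact hc t ht)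
      have h1 : x = ((Polynomial.aeval (⟨a, haE⟩ : Ce (T : Set D)) p : Ce (T : Set D)) : D) :=
        congrArg Subtype.val hp
      rw [h1]
      exact cInc_mem _ L hcen _ haL p
  refine key s hs x fun y hy => hx y fun l hl => ?_
  obtain ⟨c, hc, rfl⟩ := hspan l hl
  rw [Finset.mul_sum, Finset.sum_mul]
  refine Finset.sum_congr rfl fun t ht => ?_
  rw [← mul_assoc, ← hc t ht y, mul_assoc, hy t ht, mul_assoc]

/-- **Main theorem.** -/
theorem main (L : Subfield D) (hcomm : ∀ x ∈ L, ∀ y ∈ L, x * y = y * x)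
    (hF : ∀ x : D, (∀ y, y * x = x * y) → x ∈ L)
    (hfin : ∃ s : Finset D, (∀ t ∈ s, t ∈ L) ∧
      ∀ x ∈ L, ∃ c : D → D, (∀ t ∈ s, ∀ y, c t * y = y * c t) ∧ x = ∑ t ∈ s, c t * t)
    (b : D) (hbL : ∀ l ∈ L, b * l = l * b) (hb : b ∉ L)
    (h : (∃ c : Fin 5 → D, (∀ i, c i ∈ L) ∧ (∃ i, c i ≠ 0) ∧ ∑ i, c i * b ^ (i : ℕ) = 0) ∨
      (∃ p : ℕ, p.Prime ∧ (p : D) = 0 ∧ b ^ p ∈ L) ∨
      ((∃ p : Polynomial D, p ≠ 0 ∧ (∀ i, p.coeff i ∈ L) ∧ p.eval b = 0) ∧
        ∃ q : Polynomial D, (∀ i, q.coeff i ∈ L) ∧ q.eval b ≠ b ∧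
          ∀ p : Polynomial D, (∀ i, p.coeff i ∈ L) → p.eval b = 0 → p.eval (q.eval b) = 0)) :
    ∃ K : Subfield D, CentFin K := by
  classical
  have hbic := bic_of_fin L hcomm hF hfin
  -- the center of the centralizer is `L`
  have hLE : ∀ l ∈ L, l ∈ Ce (L : Set D) := fun l hl s hs => hcomm l hl s hs
  have hcen : ∀ r : Subring.center (Ce (L : Set D)), cInc (Ce (L : Set D)) r ∈ L := by
    intro r
    apply hbic
    intro y hy
    have h1 := Subring.mem_center_iff.1 r.2 ⟨y, hy⟩
    exact (congrArg Subtype.val h1).symm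
  have hcen' : ∀ l ∈ L, ∃ r : Subring.center (Ce (L : Set D)), cInc (Ce (L : Set D)) r = l := by
    intro l hl
    refine ⟨⟨⟨l, hLE l hl⟩, ?_⟩, rfl⟩
    rw [Subring.mem_center_iff]
    rintro ⟨y, hy⟩
    exact Subtype.ext (hy l hl)
  have hbE : b ∈ Ce (L : Set D) := hbL
  have hbN : NonC (⟨b, hbE⟩ : Ce (L : Set D)) := by
    by_contra hcon
    apply hb
    have h1 : (⟨b, hbE⟩ : Ce (L : Set D)) ∈ Subring.center (Ce (L : Set D)) := by
      rw [Subring.mem_center_iff]
      intro z
      by_contra hne
      exact hcon ⟨z, hne⟩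
    exact hcen ⟨_, h1⟩
  apply centFin_map (Ce (L : Set D))
  rcases h with ⟨c, hcL, hc0, hsum⟩ | ⟨p, hp, hp0, hbp⟩ | ⟨⟨p₀, hp0, hp0L, hp0b⟩, q, hqL, hqb, hq⟩
  · choose r hr using fun i => hcen' (c i) (hcL i)
    refine small_case ⟨b, hbE⟩ hbN r ?_ ?_
    · obtain ⟨i, hi⟩ := hc0
      refine ⟨i, fun h0 => hi ?_⟩
      rw [← hr i, h0, map_zero]
    · apply Subtype.ext
      have e : ((∑ i, r i • (⟨b, hbE⟩ : Ce (L : Set D)) ^ (i : ℕ) : Ce (L : Set D)) : D) =
          ∑ i, c i * b ^ (i : ℕ) := by
        rw [← Subfield.coe_subtype, map_sum]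
        refine Finset.sum_congr rfl fun i _ => ?_
        rw [← hr i]
        rfl
      rw [e, hsum]
      rfl
  · refine insep_case p hp ?_ ⟨b, hbE⟩ ?_ hbN
    · apply Subtype.ext
      have : (((p : Ce (L : Set D)) : Ce (L : Set D)) : D) = (p : D) := by
        rw [← Subfield.coe_subtype, map_natCast]
      rw [this, hp0]
      rfl
    · rintro ⟨y, hy⟩
      apply Subtype.ext
      exact hy _ hbp
  · -- lift the polynomials
    have hlift : ∀ p : Polynomial D, (∀ i, p.coeff i ∈ L) →
        ∃ p' : Polynomial (Subring.center (Ce (L : Set D))),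
          p'.map (cInc (Ce (L : Set D))) = p := by
      intro p hp
      have h1 : p ∈ Polynomial.lifts (cInc (Ce (L : Set D))) := by
        rw [Polynomial.lifts_iff_coeff_lifts]
        intro n
        exact hcen' _ (hp n)
      rw [Polynomial.mem_lifts] at h1
      exact h1
    obtain ⟨p₀', hp₀'⟩ := hlift p₀ hp0L
    obtain ⟨q', hq'⟩ := hlift q hqL
    have hint : IsIntegral (Subring.center (Ce (L : Set D))) (⟨b, hbE⟩ : Ce (L : Set D)) := by
      rw [← isAlgebraic_iff_isIntegral]
      refine ⟨p₀', ?_, ?_⟩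
      · rintro rfl
        apply hp0
        rw [← hp₀', Polynomial.map_zero]
      · apply Subtype.ext
        rw [cInc_aeval, hp₀']
        exact hp0b
    have hbe : ((Polynomial.aeval (⟨b, hbE⟩ : Ce (L : Set D)) q' : Ce (L : Set D)) : D) =
        q.eval b := by
      rw [cInc_aeval, hq']
    have hroot : Polynomial.aeval (Polynomial.aeval (⟨b, hbE⟩ : Ce (L : Set D)) q')
        (minpoly (Subring.center (Ce (L : Set D))) (⟨b, hbE⟩ : Ce (L : Set D))) = 0 := by
      apply Subtype.ext
      rw [cInc_aeval, hbe]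
      apply hq
      · intro i
        rw [Polynomial.coeff_map]
        exact hcen _
      · have h1 := cInc_aeval (Ce (L : Set D)) ⟨b, hbE⟩
          (minpoly (Subring.center (Ce (L : Set D))) (⟨b, hbE⟩ : Ce (L : Set D)))
        rw [minpoly.aeval] at h1
        exact h1.symm
    obtain ⟨w, hw0, hw⟩ := conj_root _ _ hint hroot
    have hne : (Polynomial.aeval (⟨b, hbE⟩ : Ce (L : Set D)) q') ≠ ⟨b, hbE⟩ := by
      intro h1
      apply hqb
      rw [← hbe, h1]
    refine aut_case ⟨b, hbE⟩ w hint ?_ ?_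
    · intro h1
      apply hne
      rw [h1] at hw
      exact mul_right_cancel₀ hw0 hw
    · rw [← hw, mul_assoc, mul_inv_cancel₀ hw0, mul_one]
      exact Polynomial.aeval_mem_adjoin_singleton _ _

end Pool.Agent.Helper78.DR
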